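import Mathlib

/-!
# Boolean circuits with negated gates, and CNF formulas as incidence matrices
-/

open Finset

namespace Pool.Agent.H1.Mono

/-- A circuit with `s` gates and inputs indexed by `ι`: each gate computes the conjunction or the
disjunction of the inputs in `ins t` and of the values of the earlier gates in `gates t`
(arbitrary fan-in), or the negation of this conjunction or disjunction when `neg t` is true. -/
structure Circuit (ι : Type) (s : ℕ) where
  isAnd : Fin s → Bool
  neg : Fin s → Bool
  ins : Fin s → Finset ι
  gates : Fin s → Finset (Fin s)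
  lt : ∀ t, ∀ u ∈ gates t, u < t
  out : Fin s

/-- Gate `t` of the circuit takes the value true on the input `A`. -/
def Circuit.Val {ι : Type} {s : ℕ} (C : Circuit ι s) (A : ι → Bool) (t : Fin s) : Prop :=
  if C.neg t = true then
    ¬ if C.isAnd t = true then
        (∀ i ∈ C.ins t, A i = true) ∧ ∀ u : {u : Fin s // u ∈ C.gates t}, C.Val A u.1
      else (∃ i ∈ C.ins t, A i = true) ∨ ∃ u : {u : Fin s // u ∈ C.gates t}, C.Val A u.1
  else
    if C.isAnd t = true then
      (∀ i ∈ C.ins t, A i = true) ∧ ∀ u : {u : Fin s // u ∈ C.gates t}, C.Val A u.1
    else (∃ i ∈ C.ins t, A i = true) ∨ ∃ u : {u : Fin s // u ∈ C.gates t}, C.Val A u.1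
termination_by t
decreasing_by all_goals exact C.lt t u.1 u.2

/-- The circuit accepts the input `A`: its output gate takes the value true. -/
def Circuit.Accepts {ι : Type} {s : ℕ} (C : Circuit ι s) (A : ι → Bool) : Prop := C.Val A C.out

/-- the number of negated gates -/
def Circuit.negs {ι : Type} {s : ℕ} (C : Circuit ι s) : ℕ :=
  (univ.filter fun t => C.neg t = true).card

/-- A CNF formula with `n` variables and `m` clauses, given by its incidence matrix: the entry at
`(j, (i, b))` tells whether the `j`-th clause contains the literal `(i, b)`, which is true under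
the assignment `x` when `x i = b`. -/
abbrev Formula (n m : ℕ) := Fin m × (Fin n × Bool) → Bool

/-- The assignment `x` satisfies every clause of the formula. -/
def Sat {n m : ℕ} (x : Fin n → Bool) (A : Formula n m) : Prop :=
  ∀ j : Fin m, ∃ i : Fin n, A (j, (i, x i)) = true

/-- The formula is satisfiable. -/
def Satisfiable {n m : ℕ} (A : Formula n m) : Prop := ∃ x : Fin n → Bool, Sat x A

/-- Each clause of the formula contains both literals of some variable, or has at most `w`
literals. -/
def Narrow {n m : ℕ} (w : ℕ) (A : Formula n m) : Prop :=
  ∀ j : Fin m, (∃ i : Fin n, A (j, (i, true)) = true ∧ A (j, (i, false)) = true) ∨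
    (univ.filter fun l : Fin n × Bool => A (j, l) = true).card ≤ w

end Pool.Agent.H1.Mono
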