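import Pool.Agent.H1.Mono.Enc2

/-!
# The lower bound for circuits with few negations, with all parameters
-/

open Finset

namespace Pool.Agent.H1.Mono

/-- the zero-one law for one copy inside the whole formula -/
lemma zero_one_copy (hFR : FR2_target) (hPART : PART_target) (hINJ : INJ_target)
    {n m σ a b j0 Δ R s : ℕ} {lam T0 : ℝ} (ha : 1 ≤ a)
    (h : σ + (2 ^ a + 1) * b ≤ n)
    {e : (Fin σ → Bool) × Row (2 ^ a + 1) b → Fin m} (he : Function.Injective e)
    (en : (Fin σ → Bool) ≃ Fin R)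
    (hlam0 : 0 < lam) (hlam1 : lam < 1) (hT0 : 0 ≤ T0) (hΔ : 0 < Δ) (hj0 : 4 * j0 ^ 2 ≤ 2 ^ a)
    (hpart0 : ∀ j : ℕ, j0 < j → j ≤ 2 ^ a + 1 →
      ((2 ^ b : ℕ) : ℝ) ^ (2 ^ a + 1 - j) ≤ T0 * lam ^ j)
    (hlam : 32 * Δ * ((2 ^ a + 1 : ℕ) : ℝ) ^ 2 * 4 ^ a * lam ≤ 1)
    (hs : 4 * (s * (2 * 2 ^ b * 2 ^ a) ^ (2 ^ a + 1)) < 2 ^ Δ)
    (C : MonCircuit (Fin m × (Fin n × Bool)) s) (t : Fin R)
    (y : Fin R → Fin (2 ^ a + 1) → (Fin b → Bool) → Fin a → Bool)
    (Y0 : Finset (Fin (2 ^ a + 1) → (Fin b → Bool) → Fin a → Bool))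
    (hY0 : ∀ ω ∈ Y0, ¬ C.Accepts (form2 h e (stAll en y t.1 (stU ω))))
    (hY0c : Fintype.card (Fin (2 ^ a + 1) → (Fin b → Bool) → Fin a → Bool) ≤ 2 * Y0.card)
    (S : Finset (Fin (2 ^ a + 1) → Fin b → Bool))
    (hS : ∀ X ∈ S, C.Accepts (form2 h e (stAll en y t.1 (stP X)))) :
    (S.card : ℝ) ≤ s * (1 / lam) ^ (2 ^ a + 1) + T0 := by
  classical
  have hQ : Fintype.card (Fin b → Bool) = 2 ^ b := by
    rw [Fintype.card_fun, Fintype.card_fin, Fintype.card_bool]
  have hΩ : Fintype.card (Fin (2 ^ a + 1) → (Fin b → Bool) → Fin a → Bool) =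
      2 ^ ((2 ^ a + 1) * Fintype.card (Fin b → Bool) * a) := by
    rw [Fintype.card_fun, Fintype.card_fun, Fintype.card_fun, Fintype.card_bool, Fintype.card_fin,
      Fintype.card_fin, ← pow_mul, ← pow_mul]
    congr 1
    ring
  have ha2 : 2 ≤ 2 ^ a := by
    calc 2 = 2 ^ 1 := by norm_num
      _ ≤ 2 ^ a := Nat.pow_le_pow_right (by norm_num) ha
  refine zero_one hFR hPART (j0 := j0) (Q := Fin b → Bool) (a := a) (d := 2 ^ a) dup_php hlam0 hlam1
    (by positivity) hT0 hΔ ?_ ?_ ?_ hlam ?_ ?_ C (fun X => form2 h e (stAll en y t.1 (stP X)))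
    (fun ω => form2 h e (stAll en y t.1 (stU ω))) ?_ Y0 hY0 ?_ S hS
  · -- `j0 ≤ 2 ^ a`
    nlinarith
  · intro j hj hj'
    have : j = 2 ^ a + 1 := by omega
    rw [this, Nat.sub_self, pow_zero, ← mul_pow, one_div, inv_mul_cancel₀ hlam0.ne', one_pow]
  · intro j hj hj'
    rw [hQ]
    exact hpart0 j hj hj'
  · rw [hQ]
    exact hs
  · intro I α hI W hW
    have h1 := hINJ (ν := 2 ^ a + 1) (a := a) (j := j0) (Q := Fin b → Bool) I α hI
    have h2 : W.card ≤ (univ.filter fun y : Fin (2 ^ a + 1) → (Fin b → Bool) → Fin a → Bool =>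
        ¬ Set.InjOn (fun i => y i (α i)) I).card :=
      card_le_card fun y hy => mem_filter.2 ⟨mem_univ _, hW y hy⟩
    rw [hΩ] at h1
    have h3 : 2 ^ a * (4 * W.card) ≤
        2 ^ a * 2 ^ ((2 ^ a + 1) * Fintype.card (Fin b → Bool) * a) := by
      calc 2 ^ a * (4 * W.card) = 4 * (2 ^ a * W.card) := by ring
        _ ≤ 4 * (j0 ^ 2 * 2 ^ ((2 ^ a + 1) * Fintype.card (Fin b → Bool) * a)) :=
            Nat.mul_le_mul_left _ ((Nat.mul_le_mul_left _ h2).trans h1)
        _ = 4 * j0 ^ 2 * 2 ^ ((2 ^ a + 1) * Fintype.card (Fin b → Bool) * a) := by ring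
        _ ≤ _ := Nat.mul_le_mul_right _ hj0
    exact Nat.le_of_mul_le_mul_left h3 (by positivity)
  · rintro ⟨j, l⟩
    by_cases hj : ∃ τ r, e (τ, r) = j
    · obtain ⟨τ, r, hr⟩ := hj
      have huniq : ∀ τ' r', e (τ', r') = j → τ' = τ ∧ r' = r := by
        intro τ' r' h'
        have := he (h'.trans hr.symm)
        rwa [Prod.mk.injEq] at this
      have hval : ∀ st : (Fin σ → Bool) → Row (2 ^ a + 1) b → Fin 3,
          form2 h e st (j, l) = true ↔
            (l ∈ selCl h τ ∨ (st τ r = 1 ∧ l ∈ rowCl2 h r) ∨ st τ r = 2) := by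
        intro st
        rw [form2_true]
        constructor
        · exact fun hq => hq τ r hr
        · intro hq τ' r' h'
          obtain ⟨rfl, rfl⟩ := huniq τ' r' h'
          exact hq
      by_cases hsel : l ∈ selCl h τ
      · left
        exact fun ω => (hval _).2 (Or.inl hsel)
      · by_cases htt : (en τ).1 = t.1
        · have hst : ∀ Z : Row (2 ^ a + 1) b → Fin 3, stAll en y t.1 Z τ r = Z r := by
            intro Z
            unfold stAll
            rw [if_neg (by omega), if_pos htt]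
          by_cases hrow : l ∈ rowCl2 h r
          · left
            intro ω
            rw [hval, hst]
            rcases stU_cases ω r with ⟨_, h2⟩ | ⟨_, h2⟩
            · exact Or.inr (Or.inl ⟨h2, hrow⟩)
            · exact Or.inr (Or.inr h2)
          · by_cases hij : r.1.1 = r.1.2
            · left
              intro ω
              rw [hval, hst]
              rcases stU_cases ω r with ⟨h2, _⟩ | ⟨_, h2⟩
              · exact absurd hij h2.1
              · exact Or.inr (Or.inr h2)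
            · right; right
              refine ⟨{r.1.1, r.1.2}, fun v => if v = r.1.1 then r.2.1 else r.2.2, ?_, ?_, ?_⟩
              · exact (card_le_two).trans ha2
              · intro X hX j' hj'
                rw [hval, hst] at hX
                rcases stP_cases X r with ⟨h2, _⟩ | ⟨_, h3⟩
                · rw [mem_insert, mem_singleton] at hj'
                  rcases hj' with rfl | rfl
                  · simp only [if_true]
                    exact h2.1
                  · simp only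
                    rw [if_neg (Ne.symm hij)]
                    exact h2.2
                · rw [h3] at hX
                  rcases hX with h4 | ⟨_, h4⟩ | h4
                  · exact absurd h4 hsel
                  · exact absurd h4 hrow
                  · exact absurd h4 (by decide)
              · intro ω hω
                have hne : ¬ (form2 h e (stAll en y t.1 (stU ω)) (j, l) = true) := by
                  rw [hω]
                  simp
                rw [hval, hst] at hne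
                rcases stU_cases ω r with ⟨h2, _⟩ | ⟨_, h2⟩
                · intro hinj
                  apply hij
                  refine hinj (by simp) (by simp) ?_
                  simp only [if_true]
                  rw [if_neg (Ne.symm hij)]
                  exact h2.2
                · exact absurd (Or.inr (Or.inr h2)) hne
        · have hst : ∀ Z : Row (2 ^ a + 1) b → Fin 3, stAll en y t.1 Z τ r =
              stAll en y t.1 (fun _ => 0) τ r := by
            intro Z
            unfold stAll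
            rw [if_neg htt, if_neg htt]
          by_cases hq : (l ∈ selCl h τ ∨
              (stAll en y t.1 (fun _ => 0) τ r = 1 ∧ l ∈ rowCl2 h r) ∨
              stAll en y t.1 (fun _ => 0) τ r = 2)
          · left
            intro ω
            rw [hval, hst]
            exact hq
          · right; left
            intro X
            rw [Bool.eq_false_iff]
            intro hX
            rw [hval, hst] at hX
            exact hq hX
    · left
      intro ω
      rw [form2_true]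
      exact fun τ r hr => absurd ⟨τ, r, hr⟩ hj
  · rw [← hΩ]
    exact hY0c

/-- colourings of the values of the blocks -/
abbrev OmT (a b : ℕ) := Fin (2 ^ a + 1) → (Fin b → Bool) → Fin a → Bool

/-- values of the blocks -/
abbrev XT (a b : ℕ) := Fin (2 ^ a + 1) → Fin b → Bool

/-- the lower bound for circuits with few negations, with all parameters -/
theorem core2 (hFR : FR2_target) (hPART : PART_target) (hNEG : NEG_target) (hAVG : AVG_target)
    (hINJ : INJ_target) {n m σ a b j0 Δ : ℕ} {lam T0 : ℝ} (ha : 1 ≤ a)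
    (h : σ + (2 ^ a + 1) * b ≤ n) (hm : 2 ^ σ * ((2 ^ a + 1) ^ 2 * 4 ^ b) ≤ m) (hn : 0 < n)
    (hlam0 : 0 < lam) (hlam1 : lam < 1) (hT0 : 0 ≤ T0) (hΔ : 0 < Δ) (hj0 : 4 * j0 ^ 2 ≤ 2 ^ a)
    (hpart0 : ∀ j : ℕ, j0 < j → j ≤ 2 ^ a + 1 →
      ((2 ^ b : ℕ) : ℝ) ^ (2 ^ a + 1 - j) ≤ T0 * lam ^ j)
    (hlam : 32 * Δ * ((2 ^ a + 1 : ℕ) : ℝ) ^ 2 * 4 ^ a * lam ≤ 1) :
    ∃ (κ : Type) (_ : Fintype κ) (_ : Nonempty κ) (P U : κ → Formula n m),
      (∀ k, Satisfiable (P k)) ∧ (∀ k, ¬ Satisfiable (U k)) ∧ (∀ k, Narrow (σ + 2 * b) (P k)) ∧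
      (∀ k, Narrow (σ + 2 * b) (U k)) ∧
      ∀ (s : ℕ) (C : Circuit (Fin m × (Fin n × Bool)) s),
        4 * (s * (2 * 2 ^ b * 2 ^ a) ^ (2 ^ a + 1)) < 2 ^ Δ →
        ∀ S : Finset κ, (∀ k ∈ S, ¬ C.Accepts (U k) ∧ C.Accepts (P k)) →
        (S.card : ℝ) * (2 ^ b : ℝ) ^ (2 ^ a + 1) * 2 ^ σ ≤
          (C.negs + 1) * 2 ^ C.negs * ((s * (1 / lam) ^ (2 ^ a + 1) + T0) * 2 ^ σ +
            2 * (2 ^ b : ℝ) ^ (2 ^ a + 1)) * Fintype.card κ := by
  classical
  have hcard : Fintype.card ((Fin σ → Bool) × Row (2 ^ a + 1) b) ≤ Fintype.card (Fin m) := by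
    rw [Fintype.card_prod, Fintype.card_prod, Fintype.card_prod, Fintype.card_prod,
      Fintype.card_fun, Fintype.card_fun, Fintype.card_fin, Fintype.card_fin, Fintype.card_fin,
      Fintype.card_fin, Fintype.card_bool]
    refine le_trans (le_of_eq ?_) hm
    rw [show (4 : ℕ) = 2 * 2 by norm_num, mul_pow 2 2 b]
    ring
  obtain ⟨e⟩ := Function.Embedding.nonempty_of_card_le hcard
  have he : Function.Injective e := e.injective
  have en : (Fin σ → Bool) ≃ Fin (2 ^ σ) := Fintype.equivFinOfCardEq (by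
    rw [Fintype.card_fun, Fintype.card_fin, Fintype.card_bool])
  have hXcard : Fintype.card (XT a b) = (2 ^ b) ^ (2 ^ a + 1) := by
    rw [Fintype.card_fun, Fintype.card_fun, Fintype.card_fin, Fintype.card_fin,
      Fintype.card_bool]
  refine ⟨Fin (2 ^ σ) × (Fin (2 ^ σ) → (OmT a b)) × (XT a b), inferInstance,
    ⟨(⟨0, by positivity⟩, fun _ _ _ _ => false, fun _ _ => false)⟩,
    fun k => form2 h e (stAll en k.2.1 k.1.1 (stP k.2.2)),
    fun k => form2 h e (stAll en k.2.1 k.1.1 fun _ => 0), ?_, ?_, ?_, ?_, ?_⟩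
  · exact fun k => sat_planted h hn he en k.2.1 k.1 k.2.2
  · exact fun k => unsat_prefix h en k.2.1 k.1.1
  · exact fun k => form2_narrow h hn e _
  · exact fun k => form2_narrow h hn e _
  intro s C hs S hS
  obtain ⟨κ, hκ, M, hMc, hM⟩ := hNEG C
  set p : ℝ := (s * (1 / lam) ^ (2 ^ a + 1) + T0) / Fintype.card (XT a b) with hp
  have hXpos : (0 : ℝ) < Fintype.card (XT a b) := by
    rw [hXcard]
    positivity
  have hp0 : 0 ≤ p := by
    rw [hp]
    positivity
  -- for each monotone circuit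
  have hone : ∀ k : κ, (∑ t : Fin (2 ^ σ), ∑ y : Fin (2 ^ σ) → (OmT a b),
      ((univ.filter fun X : (XT a b) =>
        (¬ (M k).Accepts (form2 h e (stAll en y t.1 fun _ => 0))) ∧
          (M k).Accepts (form2 h e (stAll en y t.1 (stP X)))).card : ℝ)) ≤
      (p * (2 ^ σ : ℕ) + 2) * (Fintype.card (OmT a b) : ℝ) ^ (2 ^ σ) * Fintype.card (XT a b) := by
    intro k
    refine hAVG (R := 2 ^ σ) (Ω := OmT a b) (X := XT a b)
      (fun t y => ¬ (M k).Accepts (form2 h e (stAll en y t fun _ => 0)))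
      (fun t y X => (M k).Accepts (form2 h e (stAll en y t.1 (stP X)))) p hp0 ?_ ?_ ?_
    · intro t y y' hyy hal
      rwa [← stAll_congr en hyy]
    · intro t y hal hacc
      exact hal ((M k).mono (fun i hi => form2_mono h e (fun τ r => stAll_le_succ en y t τ r) i hi)
        _ hacc)
    · intro t y hhalf
      rw [hp, div_mul_cancel₀ _ hXpos.ne']
      refine zero_one_copy hFR hPART hINJ ha h he en hlam0 hlam1 hT0 hΔ hj0 hpart0 hlam hs (M k) t y
        (univ.filter fun ω : (OmT a b) => ¬ (M k).Accepts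
          (form2 h e (stAll en (Function.update y t ω) (t.1 + 1) fun _ => 0))) ?_ hhalf
        (univ.filter fun X : (XT a b) => (M k).Accepts (form2 h e (stAll en y t.1 (stP X)))) ?_
      · intro ω hω
        have h1 := (mem_filter.1 hω).2
        rwa [stAll_succ] at h1
      · exact fun X hX => (mem_filter.1 hX).2
  -- covering
  have hcover : (S.card : ℝ) ≤ ∑ k : κ, ∑ t : Fin (2 ^ σ), ∑ y : Fin (2 ^ σ) → (OmT a b),
      ((univ.filter fun X : (XT a b) =>
        (¬ (M k).Accepts (form2 h e (stAll en y t.1 fun _ => 0))) ∧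
          (M k).Accepts (form2 h e (stAll en y t.1 (stP X)))).card : ℝ) := by
    have h1 : S ⊆ univ.biUnion fun k : κ =>
        univ.filter fun q : Fin (2 ^ σ) × (Fin (2 ^ σ) → (OmT a b)) × (XT a b) =>
          (¬ (M k).Accepts (form2 h e (stAll en q.2.1 q.1.1 fun _ => 0))) ∧
          (M k).Accepts (form2 h e (stAll en q.2.1 q.1.1 (stP q.2.2))) := by
      intro q hq
      obtain ⟨k, hk1, hk2⟩ := hM (form2 h e (stAll en q.2.1 q.1.1 fun _ => 0))
        (form2 h e (stAll en q.2.1 q.1.1 (stP q.2.2)))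
        (fun i hi => form2_mono h e (fun τ r => stAll_zero_le en _ _ _ τ r) i hi)
        (hS q hq).1 (hS q hq).2
      exact mem_biUnion.2 ⟨k, mem_univ _, mem_filter.2 ⟨mem_univ _, hk1, hk2⟩⟩
    have h2 := (card_le_card h1).trans card_biUnion_le
    have h3 : ((∑ k : κ, (univ.filter fun q : Fin (2 ^ σ) × (Fin (2 ^ σ) → (OmT a b)) × (XT a b) =>
          (¬ (M k).Accepts (form2 h e (stAll en q.2.1 q.1.1 fun _ => 0))) ∧
          (M k).Accepts (form2 h e (stAll en q.2.1 q.1.1 (stP q.2.2)))).card : ℕ) : ℝ) =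
        ∑ k : κ, ∑ t : Fin (2 ^ σ), ∑ y : Fin (2 ^ σ) → (OmT a b),
      ((univ.filter fun X : (XT a b) =>
        (¬ (M k).Accepts (form2 h e (stAll en y t.1 fun _ => 0))) ∧
          (M k).Accepts (form2 h e (stAll en y t.1 (stP X)))).card : ℝ) := by
      rw [Nat.cast_sum]
      refine sum_congr rfl fun k _ => ?_
      rw [card_triple (fun (t : Fin (2 ^ σ)) (y : Fin (2 ^ σ) → (OmT a b)) (X : (XT a b)) =>
        (¬ (M k).Accepts (form2 h e (stAll en y t.1 fun _ => 0))) ∧
          (M k).Accepts (form2 h e (stAll en y t.1 (stP X))))]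
      push_cast
      rfl
    rw [← h3]
    exact_mod_cast h2
  have hsum : (S.card : ℝ) ≤ ((C.negs + 1) * 2 ^ C.negs : ℝ) *
      ((p * (2 ^ σ : ℕ) + 2) * (Fintype.card (OmT a b) : ℝ) ^ (2 ^ σ) * Fintype.card (XT a b)) := by
    refine hcover.trans ((sum_le_sum fun k _ => hone k).trans ?_)
    rw [sum_const, nsmul_eq_mul, card_univ]
    refine mul_le_mul_of_nonneg_right ?_ (by positivity)
    exact_mod_cast hMc
  have hκcard : ((Fintype.card (Fin (2 ^ σ) × (Fin (2 ^ σ) → (OmT a b)) × (XT a b)) : ℕ) : ℝ) =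
      2 ^ σ * ((Fintype.card (OmT a b) : ℝ) ^ (2 ^ σ) * Fintype.card (XT a b)) := by
    rw [Fintype.card_prod, Fintype.card_prod, Fintype.card_fin, Fintype.card_fun,
      Fintype.card_fin]
    push_cast
    rfl
  rw [hκcard]
  have hXR : (Fintype.card (XT a b) : ℝ) = (2 ^ b : ℝ) ^ (2 ^ a + 1) := by
    rw [hXcard]
    push_cast
    rfl
  calc (S.card : ℝ) * (2 ^ b : ℝ) ^ (2 ^ a + 1) * 2 ^ σ
      ≤ ((C.negs + 1) * 2 ^ C.negs : ℝ) *
      ((p * (2 ^ σ : ℕ) + 2) * (Fintype.card (OmT a b) : ℝ) ^ (2 ^ σ) * Fintype.card (XT a b)) *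
        (2 ^ b : ℝ) ^ (2 ^ a + 1) * 2 ^ σ := by gcongr
    _ = (C.negs + 1) * 2 ^ C.negs * ((p * Fintype.card (XT a b)) * 2 ^ σ + 2 * Fintype.card (XT a b)) *
        (2 ^ σ * ((Fintype.card (OmT a b) : ℝ) ^ (2 ^ σ) * (2 ^ b : ℝ) ^ (2 ^ a + 1))) := by
        push_cast
        ring
    _ = (C.negs + 1) * 2 ^ C.negs * ((s * (1 / lam) ^ (2 ^ a + 1) + T0) * 2 ^ σ +
            2 * (2 ^ b : ℝ) ^ (2 ^ a + 1)) *
        (2 ^ σ * ((Fintype.card (OmT a b) : ℝ) ^ (2 ^ σ) * Fintype.card (XT a b))) := by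
        rw [hp, div_mul_cancel₀ _ hXpos.ne', hXR]

end Pool.Agent.H1.Mono
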