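import Pool.Agent.H1.Mono.Targets

/-!
# The dag-like lifting theorem for monotone circuits
-/

open Finset Pool.Agent.H73.Xor

namespace Pool.Agent.H1.Mono

lemma Dup.extend_to {ν d : ℕ} {F : CNF ν} {H : Finset (Fin ν) → (Fin ν → Bool) → Prop}
    (hH : Dup F d H) (J I : Finset (Fin ν)) (ρ : Fin ν → Bool) (hI : H I ρ)
    (hc : (I ∪ J).card ≤ d) : ∃ ρ', (∀ j ∈ I, ρ' j = ρ j) ∧ H (I ∪ J) ρ' := by
  classical
  induction J using Finset.induction_on with
  | empty => exact ⟨ρ, fun _ _ => rfl, by rwa [union_empty]⟩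
  | insert j J hj ih =>
    have hsub : (I ∪ J).card ≤ d :=
      (card_le_card (union_subset_union_right (subset_insert j J))).trans hc
    obtain ⟨ρ1, h1, h2⟩ := ih hsub
    rw [union_insert] at hc ⊢
    by_cases hjm : j ∈ I ∪ J
    · rw [insert_eq_of_mem hjm]
      exact ⟨ρ1, h1, h2⟩
    · rw [card_insert_of_notMem hjm] at hc
      obtain ⟨ρ2, h3, h4⟩ := hH.extend _ _ h2 (by omega) j
      exact ⟨ρ2, fun i hi => by rw [h3 i (mem_union_left _ hi), h1 i hi], h4⟩

lemma Dense.single {V Q : Type} [Fintype V] [DecidableEq V] [DecidableEq Q] {lam : ℝ}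
    {I : Finset V} {X : Finset (V → Q)} (h : Dense lam I X) {i : V} (hi : i ∉ I) {x0 : V → Q}
    (hx : ∀ x ∈ X, x i = x0 i) : (X.card : ℝ) ≤ lam * X.card := by
  have h2 := h {i} (by simpa using hi) x0
  rw [card_singleton, pow_one] at h2
  refine le_trans (Nat.cast_le.2 (card_le_card fun x hx' => ?_)) h2
  rw [mem_filter]
  refine ⟨hx', fun j hj => ?_⟩
  rw [mem_singleton] at hj
  rw [hj]
  exact hx x hx'

/-- Duplicator re-chooses a position on the points `I'`, keeping it on `I ∩ I'` -/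
lemma Dup.move {ν d : ℕ} {F : CNF ν} {H : Finset (Fin ν) → (Fin ν → Bool) → Prop}
    (hH : Dup F d H) (I I' : Finset (Fin ν)) (ρ : Fin ν → Bool) (hI : H I ρ)
    (hc : I'.card ≤ d) : ∃ z, (∀ j ∈ I, z j = ρ j) ∧ H I' z := by
  classical
  have h1 : I ∩ I' ∪ I' = I' := union_eq_right.2 inter_subset_right
  obtain ⟨ρ', h2, h3⟩ := hH.extend_to I' (I ∩ I') ρ (hH.mono _ _ _ hI inter_subset_left)
    (by rwa [h1])
  rw [h1] at h3
  refine ⟨fun i => if i ∈ I then ρ i else ρ' i, fun j hj => by simp [hj], ?_⟩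
  refine hH.congr _ _ _ h3 fun i hi => ?_
  by_cases hiI : i ∈ I
  · simp only [hiI, if_true]
    exact h2 i (mem_inter.2 ⟨hiI, hi⟩)
  · simp [hiI]

section dag

variable {ν s : ℕ} {Q : Type} [Fintype Q] [DecidableEq Q]

/-- the points of `Y` consistent with a position -/
def cls (Y : Finset (Fin ν → Q → Bool)) (I : Finset (Fin ν)) (α : Fin ν → Q) (ρ : Fin ν → Bool) :
    Finset (Fin ν → Q → Bool) := Y.filter fun y => ∀ i ∈ I, y i (α i) = ρ i

/-- the points of `Y` in a small class -/
noncomputable def small (Δ : ℕ) (Y : Finset (Fin ν → Q → Bool)) : Finset (Fin ν → Q → Bool) :=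
  (univ.filter fun p : Finset (Fin ν) × (Fin ν → Q) × (Fin ν → Bool) =>
    (cls Y p.1 p.2.1 p.2.2).card * 2 ^ Δ < 2 ^ (ν * Fintype.card Q)).biUnion
      fun p => cls Y p.1 p.2.1 p.2.2

omit [DecidableEq Q] in
lemma small_card (Δ : ℕ) (Y : Finset (Fin ν → Q → Bool)) :
    (small Δ Y).card * 2 ^ Δ ≤ (4 * Fintype.card Q) ^ ν * 2 ^ (ν * Fintype.card Q) := by
  unfold small
  refine (Nat.mul_le_mul_right _ card_biUnion_le).trans ?_
  rw [sum_mul]
  refine (sum_le_card_nsmul _ _ (2 ^ (ν * Fintype.card Q)) fun p hp => ?_).trans ?_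
  · rw [mem_filter] at hp
    exact hp.2.le
  · rw [smul_eq_mul]
    refine Nat.mul_le_mul_right _ ((card_le_univ _).trans ?_)
    rw [Fintype.card_prod, Fintype.card_prod, Fintype.card_finset, Fintype.card_fun,
      Fintype.card_fun, Fintype.card_fin, Fintype.card_bool]
    refine le_of_eq ?_
    rw [mul_pow, show (4 : ℕ) = 2 * 2 by norm_num, mul_pow]
    ring

omit [DecidableEq Q] in
lemma cls_large {Δ : ℕ} {Y : Finset (Fin ν → Q → Bool)} {I : Finset (Fin ν)} {α : Fin ν → Q}
    {ρ : Fin ν → Bool} {y : Fin ν → Q → Bool} (hy : y ∈ cls Y I α ρ) (hs : y ∉ small Δ Y) :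
    2 ^ (ν * Fintype.card Q) ≤ (cls Y I α ρ).card * 2 ^ Δ := by
  by_contra hcon
  apply hs
  unfold small
  rw [mem_biUnion]
  exact ⟨(I, α, ρ), mem_filter.2 ⟨mem_univ _, not_le.1 hcon⟩, hy⟩

/-- accumulated error sets -/
def errs {β : Type} [DecidableEq β] (tl : Finset β → Finset β) (X : Fin s → Finset β) :
    ℕ → Finset β
  | 0 => ∅
  | t + 1 => errs tl X t ∪ if h : t < s then tl (X ⟨t, h⟩ \ errs tl X t) else ∅

lemma errs_mono {β : Type} [DecidableEq β] (tl : Finset β → Finset β) (X : Fin s → Finset β)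
    {a b : ℕ} (h : a ≤ b) : errs tl X a ⊆ errs tl X b := by
  induction b, h using Nat.le_induction with
  | base => exact Subset.rfl
  | succ b _ ih => exact ih.trans subset_union_left

lemma errs_succ {β : Type} [DecidableEq β] (tl : Finset β → Finset β) (X : Fin s → Finset β)
    (t : Fin s) : errs tl X (t.1 + 1) = errs tl X t.1 ∪ tl (X t \ errs tl X t.1) := by
  rw [errs, dif_pos t.2]

lemma errs_card {β : Type} [DecidableEq β] (tl : Finset β → Finset β) (X : Fin s → Finset β)
    {T : ℝ} (hT : 0 ≤ T) (h : ∀ Z, ((tl Z).card : ℝ) ≤ T) (t : ℕ) :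
    ((errs tl X t).card : ℝ) ≤ t * T := by
  induction t with
  | zero => simp [errs]
  | succ t ih =>
    rw [errs]
    refine (Nat.cast_le.2 (card_union_le _ _)).trans ?_
    push_cast
    rw [add_mul, one_mul]
    refine add_le_add ih ?_
    split_ifs
    · exact h _
    · simpa using hT

/-- the points with prescribed values at `x` are not too rare -/
lemma card_fix (x : Fin ν → Q) (ρ : Fin ν → Bool) :
    2 ^ (ν * Fintype.card Q) ≤
      (univ.filter fun y : Fin ν → Q → Bool => ∀ i, y i (x i) = ρ i).card * 2 ^ ν := by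
  classical
  have h1 : 2 ^ (ν * Fintype.card Q) = (univ : Finset (Fin ν → Q → Bool)).card := by
    rw [card_univ, Fintype.card_fun, Fintype.card_fun, Fintype.card_fin, Fintype.card_bool,
      ← pow_mul, mul_comm]
  have h2 : 2 ^ ν = (univ : Finset (Fin ν → Bool)).card := by
    rw [card_univ, Fintype.card_fun, Fintype.card_fin, Fintype.card_bool]
  rw [h1, h2, ← card_product]
  refine card_le_card_of_injOn
    (fun y => (fun i q => if q = x i then ρ i else y i q, fun i => y i (x i))) ?_ ?_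
  · intro y _
    simp
  · intro y _ y' _ h
    simp only [Prod.mk.injEq] at h
    obtain ⟨h3, h4⟩ := h
    funext i q
    by_cases hq : q = x i
    · rw [hq]
      exact congrFun h4 i
    · have h5 := congrFun (congrFun h3 i) q
      simpa [hq] using h5

end dag

/-- the dag-like lifting theorem -/
theorem dag (hFR : FR_target) (hPART : PART_target) : DAG_target := by
  intro ν k s d Δ Q ι _ _ F H lam T hH hk hlam0 hlam1 hT hΔ hpart hlam hs C A B hleaf hrej S hS
  classical
  by_contra hcon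
  rw [not_le] at hcon
  -- the tail sets
  have hpart' := hPART (V := Fin ν) (Q := Q) lam T d hlam0 hT (by
    rw [Fintype.card_fin]
    exact hpart)
  choose tl htl1 htl2 htl3 using hpart'
  let XX : Fin s → Finset (Fin ν → Q) := fun t => univ.filter fun x => C.Val (A x) t
  let YY : Fin s → Finset (Fin ν → Q → Bool) := fun t => univ.filter fun y => ¬ C.Val (B y) t
  have hXX : ∀ t x, x ∈ XX t ↔ C.Val (A x) t := fun t x => by simp [XX]
  have hYY : ∀ t y, y ∈ YY t ↔ ¬ C.Val (B y) t := fun t y => by simp [YY]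
  let E := errs tl XX
  let G := errs (small Δ) YY
  have hFR' : ∀ (X' : Finset (Fin ν → Q)) (I : Finset (Fin ν)) (Y' : Finset (Fin ν → Q → Bool)),
      X'.Nonempty → Dense lam I X' → 2 ^ (ν * Fintype.card Q) ≤ Y'.card * 2 ^ Δ →
      ∃ x ∈ X', ∀ z : Fin ν → Bool, ∃ y ∈ Y', ∀ i, i ∉ I → y i (x i) = z i := by
    intro X' I Y' h1 h2 h3
    exact hFR X' I lam Y' Δ h1 hlam0.le h2 hΔ (by rwa [Fintype.card_fin])
      (by rwa [Fintype.card_fin])
  -- a clause of a row cannot be falsified at a position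
  have hbad : ∀ (I : Finset (Fin ν)) (ρ : Fin ν → Bool) (x : Fin ν → Q) (y : Fin ν → Q → Bool)
      (r : Fin k → Fin ν × Q), H I ρ → (∀ i ∈ I, y i (x i) = ρ i) →
      (∀ j, (r j).1 ∈ I ∧ x (r j).1 = (r j).2) →
      (∃ D ∈ F, ∀ l ∈ D, ∃ j, l.1 = (r j).1 ∧ y (r j).1 (r j).2 = !l.2) → False := by
    rintro I ρ x y r hHI hy hr ⟨D, hD, hl⟩
    obtain ⟨l, hlD, hρ⟩ := hH.safe I ρ hHI D hD (fun l hlD => by
      obtain ⟨j, hj, -⟩ := hl l hlD
      rw [hj]
      exact (hr j).1)
    obtain ⟨j, hj, hj2⟩ := hl l hlD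
    rw [← (hr j).2, hy _ (hr j).1, ← hj, hρ] at hj2
    revert hj2
    cases l.2 <;> simp
  -- membership in the next error sets
  have hEmono : ∀ {a b : ℕ}, a ≤ b → E a ⊆ E b := fun h => errs_mono tl XX h
  have hGmono : ∀ {a b : ℕ}, a ≤ b → G a ⊆ G b := fun h => errs_mono (small Δ) YY h
  have hEnext : ∀ (u : Fin s) (b : ℕ), u.1 < b → ∀ x, x ∉ E b →
      x ∉ E u.1 ∧ x ∉ tl (XX u \ E u.1) := by
    intro u b hub x hx
    have h1 : x ∉ E (u.1 + 1) := fun h => hx (hEmono hub h)
    rw [show E (u.1 + 1) = E u.1 ∪ tl (XX u \ E u.1) from errs_succ tl XX u, mem_union,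
      not_or] at h1
    exact h1
  have hGnext : ∀ (u : Fin s) (b : ℕ), u.1 < b → ∀ y, y ∉ G b →
      y ∉ G u.1 ∧ y ∉ small Δ (YY u \ G u.1) := by
    intro u b hub y hy
    have h1 : y ∉ G (u.1 + 1) := fun h => hy (hGmono hub h)
    rw [show G (u.1 + 1) = G u.1 ∪ small Δ (YY u \ G u.1) from errs_succ (small Δ) YY u, mem_union,
      not_or] at h1
    exact h1
  have hcls : ∀ (u : Fin s) (b : ℕ), u.1 < b → ∀ (I : Finset (Fin ν)) (α : Fin ν → Q)
      (ρ : Fin ν → Bool) (y : Fin ν → Q → Bool), y ∉ G b → ¬ C.Val (B y) u →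
      (∀ i ∈ I, y i (α i) = ρ i) →
      2 ^ (ν * Fintype.card Q) ≤ (cls (YY u \ G u.1) I α ρ).card * 2 ^ Δ := by
    intro u b hub I α ρ y hy hval hI
    obtain ⟨h1, h2⟩ := hGnext u b hub y hy
    refine cls_large (y := y) ?_ h2
    unfold cls
    rw [mem_filter, mem_sdiff]
    exact ⟨⟨(hYY u y).2 hval, h1⟩, hI⟩
  -- the walk
  have key : ∀ (t : Fin s) (I : Finset (Fin ν)) (α : Fin ν → Q) (ρ : Fin ν → Bool)
      (X' : Finset (Fin ν → Q)),
      X'.Nonempty → X' ⊆ XX t \ E t.1 → I.card ≤ d → (∀ x ∈ X', ∀ i ∈ I, x i = α i) →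
      Dense lam I X' → H I ρ →
      2 ^ (ν * Fintype.card Q) ≤ (cls (YY t \ G t.1) I α ρ).card * 2 ^ Δ → False := by
    intro t
    induction t using WellFoundedLT.induction with
    | ind t ih =>
      intro I α ρ X' hne hsub hId hconst hdense hHI hlarge
      have hYne : (cls (YY t \ G t.1) I α ρ).Nonempty := by
        rw [← card_pos]
        by_contra h0
        rw [not_lt, Nat.le_zero] at h0
        rw [h0, zero_mul] at hlarge
        have : 0 < 2 ^ (ν * Fintype.card Q) := by positivity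
        omega
      have hYmem : ∀ y ∈ cls (YY t \ G t.1) I α ρ, ¬ C.Val (B y) t ∧ y ∉ G t.1 ∧
          ∀ i ∈ I, y i (α i) = ρ i := by
        intro y hy
        unfold cls at hy
        rw [mem_filter, mem_sdiff, hYY] at hy
        exact ⟨hy.1.1, hy.1.2, hy.2⟩
      have hXmem : ∀ x ∈ X', C.Val (A x) t ∧ x ∉ E t.1 := by
        intro x hx
        have := hsub hx
        rw [mem_sdiff, hXX] at this
        exact this
      by_cases hand : C.isAnd t = true
      · -- an AND gate: keep the set `X'`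
        obtain ⟨y, hy⟩ := hYne
        obtain ⟨hyv, hyG, hyI⟩ := hYmem y hy
        rw [C.val_and _ hand, not_and_or] at hyv
        rcases hyv with hyv | hyv
        · push Not at hyv
          obtain ⟨i, hi, hBi⟩ := hyv
          rcases hleaf i with h1 | ⟨r, hr1, hr2⟩
          · exact hBi (h1 y)
          · have hBf : B y i = false := by simpa using hBi
            have hxr : ∀ x ∈ X', ∀ j, x (r j).1 = (r j).2 := by
              intro x hx
              exact hr1 x (((C.val_and _ hand).1 (hXmem x hx).1).1 i hi)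
            obtain ⟨x0, hx0⟩ := hne
            have hjI : ∀ j, (r j).1 ∈ I := by
              intro j
              by_contra hj
              have h2 := hdense.single hj (x0 := x0) fun x hx => by
                rw [hxr x hx, hxr x0 hx0]
              have h4 : (0 : ℝ) < X'.card := by
                exact_mod_cast card_pos.2 ⟨x0, hx0⟩
              nlinarith
            refine hbad I ρ α y r hHI hyI (fun j => ⟨hjI j, ?_⟩) (hr2 y hBf)
            rw [← hconst x0 hx0 _ (hjI j)]
            exact hxr x0 hx0 j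
        · push Not at hyv
          obtain ⟨u, hu, huv⟩ := hyv
          have hut : u.1 < t.1 := C.lt t u hu
          refine ih u (C.lt t u hu) I α ρ X' hne ?_ hId hconst hdense hHI
            (hcls u t.1 hut I α ρ y hyG huv hyI)
          intro x hx
          obtain ⟨h1, h2⟩ := hXmem x hx
          rw [mem_sdiff, hXX]
          exact ⟨((C.val_and _ hand).1 h1).2 u hu, fun h => h2 (hEmono hut.le h)⟩
      · -- an OR gate
        obtain ⟨x, hx, hfull⟩ := hFR' X' I _ hne hdense hlarge
        obtain ⟨hxv, hxE⟩ := hXmem x hx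
        have hfull' : ∀ z : Fin ν → Bool, (∀ i ∈ I, z i = ρ i) →
            ∃ y, ¬ C.Val (B y) t ∧ y ∉ G t.1 ∧ ∀ i, y i (x i) = z i := by
          intro z hz
          obtain ⟨y, hy, hyz⟩ := hfull z
          obtain ⟨h1, h2, h3⟩ := hYmem y hy
          refine ⟨y, h1, h2, fun i => ?_⟩
          by_cases hi : i ∈ I
          · rw [hconst x hx i hi, h3 i hi, hz i hi]
          · exact hyz i hi
        rw [C.val_or _ hand] at hxv
        rcases hxv with ⟨i, hi, hAi⟩ | ⟨u, hu, hxu⟩
        · rcases hleaf i with h1 | ⟨r, hr1, hr2⟩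
          · obtain ⟨y, hy⟩ := hYne
            have h2 := (hYmem y hy).1
            rw [C.val_or _ hand, not_or] at h2
            exact h2.1 ⟨i, hi, h1 y⟩
          · obtain ⟨z, hz1, hz2⟩ := hH.move I (univ.image fun j => (r j).1) ρ hHI
              (card_image_le.trans (by rwa [card_univ, Fintype.card_fin]))
            obtain ⟨y, hy1, -, hy3⟩ := hfull' z hz1
            rw [C.val_or _ hand, not_or] at hy1
            have hBf : B y i = false := by
              by_contra hB
              apply hy1.1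
              exact ⟨i, hi, by simpa using hB⟩
            exact hbad _ z x y r hz2 (fun i _ => hy3 i)
              (fun j => ⟨mem_image.2 ⟨j, mem_univ _, rfl⟩, hr1 x hAi j⟩) (hr2 y hBf)
        · have hut : u.1 < t.1 := C.lt t u hu
          obtain ⟨hE1, hE2⟩ := hEnext u t.1 hut x hxE
          have hxm : x ∈ XX u \ E u.1 := by
            rw [mem_sdiff, hXX]
            exact ⟨hxu, hE1⟩
          obtain ⟨X2, hX2, I2, hx2, hI2, hc2, hd2⟩ := htl3 _ x hxm hE2
          obtain ⟨z, hz1, hz2⟩ := hH.move I I2 ρ hHI hI2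
          obtain ⟨y, hy1, hy2, hy3⟩ := hfull' z hz1
          rw [C.val_or _ hand, not_or] at hy1
          have hyu : ¬ C.Val (B y) u := fun h => hy1.2 ⟨u, hu, h⟩
          exact ih u (C.lt t u hu) I2 x z X2 ⟨x, hx2⟩ hX2 hI2 hc2 hd2 hz2
            (hcls u t.1 hut I2 x z y hy2 hyu fun i _ => hy3 i)
  -- the root
  have hEcard : ((E s).card : ℝ) ≤ s * T := errs_card tl XX hT htl2 s
  obtain ⟨x, hxS, hxE⟩ : ∃ x ∈ S, x ∉ E s := by
    by_contra hno
    push Not at hno
    have h1 : S ⊆ E s := hno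
    have h2 : (S.card : ℝ) ≤ (E s).card := by exact_mod_cast card_le_card h1
    linarith
  obtain ⟨hE1, hE2⟩ := hEnext C.out s C.out.2 x hxE
  have hxm : x ∈ XX C.out \ E C.out.1 := by
    rw [mem_sdiff, hXX]
    exact ⟨hS x hxS, hE1⟩
  obtain ⟨X2, hX2, I2, hx2, hI2, hc2, hd2⟩ := htl3 _ x hxm hE2
  obtain ⟨z, -, hz2⟩ := hH.move ∅ I2 (fun _ => false) (hH.empty _) hI2
  have hGcard : (G s).card * 2 ^ Δ ≤ s * ((4 * Fintype.card Q) ^ ν * 2 ^ (ν * Fintype.card Q)) := by
    have h1 : ∀ t : ℕ, (G t).card * 2 ^ Δ ≤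
        t * ((4 * Fintype.card Q) ^ ν * 2 ^ (ν * Fintype.card Q)) := by
      intro t
      induction t with
      | zero => simp [G, errs]
      | succ t iht =>
        by_cases ht : t < s
        · have h2 : G (t + 1) = G t ∪ small Δ (YY ⟨t, ht⟩ \ G t) := errs_succ (small Δ) YY ⟨t, ht⟩
          rw [h2]
          have h3 := small_card Δ (YY ⟨t, ht⟩ \ G t)
          have h4 := card_union_le (G t) (small Δ (YY ⟨t, ht⟩ \ G t))
          calc _ ≤ ((G t).card + (small Δ (YY ⟨t, ht⟩ \ G t)).card) * 2 ^ Δ :=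
                Nat.mul_le_mul_right _ h4
            _ ≤ _ := by
                rw [add_mul, add_mul, one_mul]
                exact add_le_add iht h3
        · have h2 : G (t + 1) = G t := by
            change errs (small Δ) YY (t + 1) = errs (small Δ) YY t
            rw [errs, dif_neg ht, union_empty]
          rw [h2]
          refine iht.trans (Nat.mul_le_mul_right _ (by omega))
    exact h1 s
  have hW := card_fix x z
  set W := univ.filter fun y : Fin ν → Q → Bool => ∀ i, y i (x i) = z i with hWdef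
  obtain ⟨y, hyW, hyG⟩ : ∃ y ∈ W, y ∉ G s := by
    by_contra hno
    push Not at hno
    have h1 : W.card ≤ (G s).card := card_le_card hno
    have hWpos : 0 < W.card := by
      by_contra h0
      rw [not_lt, Nat.le_zero] at h0
      rw [h0, zero_mul] at hW
      have : 0 < 2 ^ (ν * Fintype.card Q) := by positivity
      omega
    have h2 : W.card * 2 ^ Δ ≤ W.card * (s * (8 * Fintype.card Q) ^ ν) := by
      calc W.card * 2 ^ Δ ≤ (G s).card * 2 ^ Δ := Nat.mul_le_mul_right _ h1
        _ ≤ s * ((4 * Fintype.card Q) ^ ν * 2 ^ (ν * Fintype.card Q)) := hGcard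
        _ ≤ s * ((4 * Fintype.card Q) ^ ν * (W.card * 2 ^ ν)) := by gcongr
        _ = W.card * (s * (8 * Fintype.card Q) ^ ν) := by
            rw [show (8 : ℕ) = 4 * 2 by norm_num, mul_pow, mul_pow, mul_pow]
            ring
    have h3 := Nat.le_of_mul_le_mul_left h2 hWpos
    omega
  rw [hWdef, mem_filter] at hyW
  exact key C.out I2 x z X2 ⟨x, hx2⟩ hX2 hI2 hc2 hd2 hz2
    (hcls C.out s C.out.2 I2 x z y hyG (hrej y) fun i _ => hyW.2 i)

end Pool.Agent.H1.Mono
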