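import Pool.Agent.H1.Mono.Defs
import Pool.Agent.H1.Mono.Circ

/-!
# Second part: circuits with few negations; targets LVL2, FR2, NEG, AVG, INJ
-/

open Finset

namespace Pool.Agent.H1.Mono

/-- the value of a gate before negation -/
def Circuit.Inner {ι : Type} {s : ℕ} (C : Circuit ι s) (A : ι → Bool) (t : Fin s) : Prop :=
  if C.isAnd t = true then (∀ i ∈ C.ins t, A i = true) ∧ ∀ u ∈ C.gates t, C.Val A u
  else (∃ i ∈ C.ins t, A i = true) ∨ ∃ u ∈ C.gates t, C.Val A u

lemma Circuit.val_eq {ι : Type} {s : ℕ} (C : Circuit ι s) (A : ι → Bool) (t : Fin s) :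
    C.Val A t ↔ if C.neg t = true then ¬ C.Inner A t else C.Inner A t := by
  rw [Circuit.Val, Circuit.Inner]
  simp

/-- module LVL2: level inequality for weights -/
def LVL2_target : Prop := ∀ {V Q : Type} [Fintype V] [DecidableEq V] [Fintype Q] [DecidableEq Q]
    (f : (V → Q → Bool) → ℝ) (N : ℝ) (K : Finset V) (Δ : ℕ), 0 < Δ → (∀ u, 0 ≤ f u) →
    (∀ u, f u ≤ N) → 0 < ∑ u, f u →
    N * 2 ^ (Fintype.card V * Fintype.card Q) ≤ (∑ u, f u) * 2 ^ Δ →
  ∑ β : {i // i ∈ K} → Q, (∑ u, f u * ∏ i : {i // i ∈ K}, sgn (u i.1 (β i))) ^ 2 ≤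
    2 * (2 * Δ : ℝ) ^ K.card * (∑ u, f u) ^ 2

/-- module FR2: full range for the alphabet of `a`-bit strings -/
def FR2_target : Prop := ∀ {V Q : Type} [Fintype V] [DecidableEq V] [Fintype Q] [DecidableEq Q]
    {a : ℕ} (X : Finset (V → Q)) (I : Finset V) (lam : ℝ) (Y : Finset (V → Q → Fin a → Bool))
    (Δ : ℕ), X.Nonempty → 0 ≤ lam → Dense lam I X → 0 < Δ →
    2 ^ (Fintype.card V * Fintype.card Q * a) ≤ Y.card * 2 ^ Δ →
    32 * Δ * (Fintype.card V : ℝ) ^ 2 * 4 ^ a * lam ≤ 1 →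
  ∃ x ∈ X, ∀ z : V → Fin a → Bool, ∃ y ∈ Y, ∀ i, i ∉ I → y i (x i) = z i

/-- module NEG: a circuit with few negations is covered by few monotone circuits: every comparable
pair of inputs it separates is separated by one of them -/
def NEG_target : Prop := ∀ {ι : Type} {s : ℕ} (C : Circuit ι s),
  ∃ (κ : Type) (_ : Fintype κ) (M : κ → MonCircuit ι s),
    Fintype.card κ ≤ (C.negs + 1) * 2 ^ C.negs ∧
    ∀ A A' : ι → Bool, (∀ i, A i = true → A' i = true) → ¬ C.Accepts A → C.Accepts A' →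
      ∃ k, ¬ (M k).Accepts A ∧ (M k).Accepts A'

/-- module AVG: the stopping time argument. `al t y` (alive before step `t`) depends only on the
coordinates of `y` before `t` and is decreasing in `t`. -/
def AVG_target : Prop := ∀ {R : ℕ} {Ω X : Type} [Fintype Ω] [DecidableEq Ω] [Nonempty Ω]
    [Fintype X] (al : ℕ → (Fin R → Ω) → Prop) (acc : Fin R → (Fin R → Ω) → X → Prop)
    [∀ t, DecidablePred (al t)] [∀ t y, DecidablePred (acc t y)] (p : ℝ), 0 ≤ p →
    (∀ t y y', (∀ i : Fin R, i.1 < t → y i = y' i) → al t y → al t y') →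
    (∀ t y, al (t + 1) y → al t y) →
    (∀ (t : Fin R) (y : Fin R → Ω),
      Fintype.card Ω ≤ 2 * (univ.filter fun ω : Ω => al (t.1 + 1) (Function.update y t ω)).card →
      ((univ.filter fun x => acc t y x).card : ℝ) ≤ p * Fintype.card X) →
    (∑ t : Fin R, ∑ y : Fin R → Ω, ((univ.filter fun x => al t.1 y ∧ acc t y x).card : ℝ)) ≤
      (p * R + 2) * (Fintype.card Ω : ℝ) ^ R * Fintype.card X

/-- module INJ: few `y` fail to be injective along `α` on a small set -/
def INJ_target : Prop := ∀ {ν a j : ℕ} {Q : Type} [Fintype Q] [DecidableEq Q]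
    (I : Finset (Fin ν)) (α : Fin ν → Q)
    [DecidablePred fun y : Fin ν → Q → Fin a → Bool => ¬ Set.InjOn (fun i => y i (α i)) I],
    I.card ≤ j →
    2 ^ a * (univ.filter fun y : Fin ν → Q → Fin a → Bool =>
      ¬ Set.InjOn (fun i => y i (α i)) I).card ≤
      j ^ 2 * Fintype.card (Fin ν → Q → Fin a → Bool)

end Pool.Agent.H1.Mono
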