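import Pool.Agent.H1.Mono.Dag
import Pool.Agent.H1.Mono.Targets2

/-!
# The zero-one law for monotone circuits (alphabet of `a`-bit strings)
-/

open Finset

namespace Pool.Agent.H1.Mono

/-- Positions (partial assignments with values in `S`) from which Duplicator survives as long as
fewer than `d` coordinates are known. -/
structure Dup2 {ν : ℕ} {S : Type} (d : ℕ) (H : Finset (Fin ν) → (Fin ν → S) → Prop) : Prop where
  empty : ∀ ρ, H ∅ ρ
  mono : ∀ I J ρ, H I ρ → J ⊆ I → H J ρ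
  congr : ∀ I ρ ρ', H I ρ → (∀ i ∈ I, ρ i = ρ' i) → H I ρ'
  extend : ∀ I ρ, H I ρ → I.card < d → ∀ i, ∃ ρ', (∀ j ∈ I, ρ' j = ρ j) ∧ H (insert i I) ρ'

lemma Dup2.extend_to {ν d : ℕ} {S : Type} {H : Finset (Fin ν) → (Fin ν → S) → Prop}
    (hH : Dup2 d H) (J I : Finset (Fin ν)) (ρ : Fin ν → S) (hI : H I ρ)
    (hc : (I ∪ J).card ≤ d) : ∃ ρ', (∀ j ∈ I, ρ' j = ρ j) ∧ H (I ∪ J) ρ' := by
  classical
  induction J using Finset.induction_on with
  | empty => exact ⟨ρ, fun _ _ => rfl, by rwa [union_empty]⟩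
  | insert j J hj ih =>
    have hsub : (I ∪ J).card ≤ d :=
      (card_le_card (union_subset_union_right (subset_insert j J))).trans hc
    obtain ⟨ρ1, h1, h2⟩ := ih hsub
    rw [union_insert] at hc ⊢
    by_cases hjm : j ∈ I ∪ J
    · rw [insert_eq_of_mem hjm]
      exact ⟨ρ1, h1, h2⟩
    · rw [card_insert_of_notMem hjm] at hc
      obtain ⟨ρ2, h3, h4⟩ := hH.extend _ _ h2 (by omega) j
      exact ⟨ρ2, fun i hi => by rw [h3 i (mem_union_left _ hi), h1 i hi], h4⟩

/-- Duplicator re-chooses a position on the points `I'`, keeping it on `I ∩ I'` -/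
lemma Dup2.move {ν d : ℕ} {S : Type} {H : Finset (Fin ν) → (Fin ν → S) → Prop}
    (hH : Dup2 d H) (I I' : Finset (Fin ν)) (ρ : Fin ν → S) (hI : H I ρ)
    (hc : I'.card ≤ d) : ∃ z, (∀ j ∈ I, z j = ρ j) ∧ H I' z := by
  classical
  have h1 : I ∩ I' ∪ I' = I' := union_eq_right.2 inter_subset_right
  obtain ⟨ρ', h2, h3⟩ := hH.extend_to I' (I ∩ I') ρ (hH.mono _ _ _ hI inter_subset_left)
    (by rwa [h1])
  rw [h1] at h3
  refine ⟨fun i => if i ∈ I then ρ i else ρ' i, fun j hj => by simp [hj], ?_⟩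
  refine hH.congr _ _ _ h3 fun i hi => ?_
  by_cases hiI : i ∈ I
  · simp only [hiI, if_true]
    exact h2 i (mem_inter.2 ⟨hiI, hi⟩)
  · simp [hiI]

section dag

variable {ν s a : ℕ} {Q : Type} [Fintype Q] [DecidableEq Q]

/-- the points of `Y` consistent with a position -/
def cls2 (Y : Finset (Fin ν → Q → Fin a → Bool)) (I : Finset (Fin ν)) (α : Fin ν → Q)
    (ρ : Fin ν → Fin a → Bool) : Finset (Fin ν → Q → Fin a → Bool) :=
  Y.filter fun y => ∀ i ∈ I, y i (α i) = ρ i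

/-- the points of `Y` in a small class -/
noncomputable def small2 (Δ : ℕ) (Y : Finset (Fin ν → Q → Fin a → Bool)) :
    Finset (Fin ν → Q → Fin a → Bool) :=
  (univ.filter fun p : Finset (Fin ν) × (Fin ν → Q) × (Fin ν → Fin a → Bool) =>
    (cls2 Y p.1 p.2.1 p.2.2).card * 2 ^ Δ < 2 ^ (ν * Fintype.card Q * a)).biUnion
      fun p => cls2 Y p.1 p.2.1 p.2.2

omit [DecidableEq Q] in
lemma small2_card (Δ : ℕ) (Y : Finset (Fin ν → Q → Fin a → Bool)) :
    (small2 Δ Y).card * 2 ^ Δ ≤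
      (2 * Fintype.card Q * 2 ^ a) ^ ν * 2 ^ (ν * Fintype.card Q * a) := by
  unfold small2
  refine (Nat.mul_le_mul_right _ card_biUnion_le).trans ?_
  rw [sum_mul]
  refine (sum_le_card_nsmul _ _ (2 ^ (ν * Fintype.card Q * a)) fun p hp => ?_).trans ?_
  · rw [mem_filter] at hp
    exact hp.2.le
  · rw [smul_eq_mul]
    refine Nat.mul_le_mul_right _ ((card_le_univ _).trans ?_)
    rw [Fintype.card_prod, Fintype.card_prod, Fintype.card_finset, Fintype.card_fun,
      Fintype.card_fun, Fintype.card_fin, Fintype.card_fun, Fintype.card_fin, Fintype.card_bool]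
    refine le_of_eq ?_
    rw [mul_pow, mul_pow]
    ring

omit [DecidableEq Q] in
lemma cls2_large {Δ : ℕ} {Y : Finset (Fin ν → Q → Fin a → Bool)} {I : Finset (Fin ν)}
    {α : Fin ν → Q} {ρ : Fin ν → Fin a → Bool} {y : Fin ν → Q → Fin a → Bool}
    (hy : y ∈ cls2 Y I α ρ) (hs : y ∉ small2 Δ Y) :
    2 ^ (ν * Fintype.card Q * a) ≤ (cls2 Y I α ρ).card * 2 ^ Δ := by
  by_contra hcon
  apply hs
  unfold small2
  rw [mem_biUnion]
  exact ⟨(I, α, ρ), mem_filter.2 ⟨mem_univ _, not_le.1 hcon⟩, hy⟩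

end dag

/-- the general form of the zero-one law, with a hypothesis on the root -/
theorem zero_one_gen (hFR : FR2_target) (hPART : PART_target) {ν s d Δ a j0 : ℕ} {Q ι : Type}
    [Fintype Q] [DecidableEq Q] {H : Finset (Fin ν) → (Fin ν → Fin a → Bool) → Prop}
    {lam T T0 : ℝ} (hH : Dup2 d H) (hlam0 : 0 < lam) (hlam1 : lam < 1)
    (hT : 0 ≤ T) (hT0 : 0 ≤ T0) (hΔ : 0 < Δ) (hj0 : j0 ≤ d)
    (hpart : ∀ j : ℕ, d < j → j ≤ ν → (Fintype.card Q : ℝ) ^ (ν - j) ≤ T * lam ^ j)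
    (hpart0 : ∀ j : ℕ, j0 < j → j ≤ ν → (Fintype.card Q : ℝ) ^ (ν - j) ≤ T0 * lam ^ j)
    (hlam : 32 * Δ * (ν : ℝ) ^ 2 * 4 ^ a * lam ≤ 1)
    (C : MonCircuit ι s) (A : (Fin ν → Q) → ι → Bool) (B : (Fin ν → Q → Fin a → Bool) → ι → Bool)
    (hleaf : ∀ i : ι, (∀ y, B y i = true) ∨ (∀ x, A x i = false) ∨
      ∃ (J : Finset (Fin ν)) (r : Fin ν → Q), J.card ≤ d ∧
      (∀ x, A x i = true → ∀ j ∈ J, x j = r j) ∧ (∀ y, B y i = false → ¬ H J fun j => y j (r j)))
    (Y0 : Finset (Fin ν → Q → Fin a → Bool)) (hY0 : ∀ y ∈ Y0, ¬ C.Accepts (B y))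
    (hroot : ∀ (I : Finset (Fin ν)) (α : Fin ν → Q), I.card ≤ j0 →
      ∀ G' : Finset (Fin ν → Q → Fin a → Bool),
        G'.card * 2 ^ Δ ≤ s * ((2 * Fintype.card Q * 2 ^ a) ^ ν * 2 ^ (ν * Fintype.card Q * a)) →
        ∃ y ∈ Y0, y ∉ G' ∧ H I fun i => y i (α i))
    (S : Finset (Fin ν → Q)) (hS : ∀ x ∈ S, C.Accepts (A x)) : (S.card : ℝ) ≤ s * T + T0 := by
  classical
  by_contra hcon
  rw [not_le] at hcon
  -- the tail sets
  have hpart' := hPART (V := Fin ν) (Q := Q) lam T d hlam0 hT (by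
    rw [Fintype.card_fin]
    exact hpart)
  choose tl htl1 htl2 htl3 using hpart'
  let XX : Fin s → Finset (Fin ν → Q) := fun t => univ.filter fun x => C.Val (A x) t
  let YY : Fin s → Finset (Fin ν → Q → Fin a → Bool) := fun t =>
    univ.filter fun y => ¬ C.Val (B y) t
  have hXX : ∀ t x, x ∈ XX t ↔ C.Val (A x) t := fun t x => by simp [XX]
  have hYY : ∀ t y, y ∈ YY t ↔ ¬ C.Val (B y) t := fun t y => by simp [YY]
  let E := errs tl XX
  let G := errs (small2 Δ) YY
  have hFR' : ∀ (X' : Finset (Fin ν → Q)) (I : Finset (Fin ν))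
      (Y' : Finset (Fin ν → Q → Fin a → Bool)),
      X'.Nonempty → Dense lam I X' → 2 ^ (ν * Fintype.card Q * a) ≤ Y'.card * 2 ^ Δ →
      ∃ x ∈ X', ∀ z : Fin ν → Fin a → Bool, ∃ y ∈ Y', ∀ i, i ∉ I → y i (x i) = z i := by
    intro X' I Y' h1 h2 h3
    exact hFR X' I lam Y' Δ h1 hlam0.le h2 hΔ (by rwa [Fintype.card_fin])
      (by rwa [Fintype.card_fin])
  -- membership in the next error sets
  have hEmono : ∀ {b c : ℕ}, b ≤ c → E b ⊆ E c := fun h => errs_mono tl XX h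
  have hGmono : ∀ {b c : ℕ}, b ≤ c → G b ⊆ G c := fun h => errs_mono (small2 Δ) YY h
  have hEnext : ∀ (u : Fin s) (b : ℕ), u.1 < b → ∀ x, x ∉ E b →
      x ∉ E u.1 ∧ x ∉ tl (XX u \ E u.1) := by
    intro u b hub x hx
    have h1 : x ∉ E (u.1 + 1) := fun h => hx (hEmono hub h)
    rw [show E (u.1 + 1) = E u.1 ∪ tl (XX u \ E u.1) from errs_succ tl XX u, mem_union,
      not_or] at h1
    exact h1
  have hGnext : ∀ (u : Fin s) (b : ℕ), u.1 < b → ∀ y, y ∉ G b →
      y ∉ G u.1 ∧ y ∉ small2 Δ (YY u \ G u.1) := by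
    intro u b hub y hy
    have h1 : y ∉ G (u.1 + 1) := fun h => hy (hGmono hub h)
    rw [show G (u.1 + 1) = G u.1 ∪ small2 Δ (YY u \ G u.1) from errs_succ (small2 Δ) YY u,
      mem_union, not_or] at h1
    exact h1
  have hcls : ∀ (u : Fin s) (b : ℕ), u.1 < b → ∀ (I : Finset (Fin ν)) (α : Fin ν → Q)
      (ρ : Fin ν → Fin a → Bool) (y : Fin ν → Q → Fin a → Bool), y ∉ G b → ¬ C.Val (B y) u →
      (∀ i ∈ I, y i (α i) = ρ i) →
      2 ^ (ν * Fintype.card Q * a) ≤ (cls2 (YY u \ G u.1) I α ρ).card * 2 ^ Δ := by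
    intro u b hub I α ρ y hy hval hI
    obtain ⟨h1, h2⟩ := hGnext u b hub y hy
    refine cls2_large (y := y) ?_ h2
    unfold cls2
    rw [mem_filter, mem_sdiff]
    exact ⟨⟨(hYY u y).2 hval, h1⟩, hI⟩
  -- the walk
  have key : ∀ (t : Fin s) (I : Finset (Fin ν)) (α : Fin ν → Q) (ρ : Fin ν → Fin a → Bool)
      (X' : Finset (Fin ν → Q)),
      X'.Nonempty → X' ⊆ XX t \ E t.1 → I.card ≤ d → (∀ x ∈ X', ∀ i ∈ I, x i = α i) →
      Dense lam I X' → H I ρ →
      2 ^ (ν * Fintype.card Q * a) ≤ (cls2 (YY t \ G t.1) I α ρ).card * 2 ^ Δ → False := by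
    intro t
    induction t using WellFoundedLT.induction with
    | ind t ih =>
      intro I α ρ X' hne hsub hId hconst hdense hHI hlarge
      have hYne : (cls2 (YY t \ G t.1) I α ρ).Nonempty := by
        rw [← card_pos]
        by_contra h0
        rw [not_lt, Nat.le_zero] at h0
        rw [h0, zero_mul] at hlarge
        have : 0 < 2 ^ (ν * Fintype.card Q * a) := by positivity
        omega
      have hYmem : ∀ y ∈ cls2 (YY t \ G t.1) I α ρ, ¬ C.Val (B y) t ∧ y ∉ G t.1 ∧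
          ∀ i ∈ I, y i (α i) = ρ i := by
        intro y hy
        unfold cls2 at hy
        rw [mem_filter, mem_sdiff, hYY] at hy
        exact ⟨hy.1.1, hy.1.2, hy.2⟩
      have hXmem : ∀ x ∈ X', C.Val (A x) t ∧ x ∉ E t.1 := by
        intro x hx
        have := hsub hx
        rw [mem_sdiff, hXX] at this
        exact this
      by_cases hand : C.isAnd t = true
      · -- an AND gate: keep the set `X'`
        obtain ⟨y, hy⟩ := hYne
        obtain ⟨hyv, hyG, hyI⟩ := hYmem y hy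
        rw [C.val_and _ hand, not_and_or] at hyv
        rcases hyv with hyv | hyv
        · push Not at hyv
          obtain ⟨i, hi, hBi⟩ := hyv
          have hAt : ∀ x ∈ X', A x i = true := fun x hx =>
            ((C.val_and _ hand).1 (hXmem x hx).1).1 i hi
          rcases hleaf i with h1 | h1 | ⟨J, r, hJd, hr1, hr2⟩
          · exact hBi (h1 y)
          · obtain ⟨x0, hx0⟩ := hne
            have h2 := hAt x0 hx0
            rw [h1 x0] at h2
            exact absurd h2 (by simp)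
          · have hBf : B y i = false := by simpa using hBi
            have hxr : ∀ x ∈ X', ∀ j ∈ J, x j = r j := fun x hx => hr1 x (hAt x hx)
            obtain ⟨x0, hx0⟩ := hne
            have hjI : ∀ j ∈ J, j ∈ I := by
              intro j hjJ
              by_contra hj
              have h2 := hdense.single hj (x0 := x0) fun x hx => by
                rw [hxr x hx j hjJ, hxr x0 hx0 j hjJ]
              have h4 : (0 : ℝ) < X'.card := by
                exact_mod_cast card_pos.2 ⟨x0, hx0⟩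
              nlinarith
            refine hr2 y hBf (hH.congr J ρ _ (hH.mono I J ρ hHI hjI) fun j hj => ?_)
            rw [← hyI j (hjI j hj), ← hconst x0 hx0 j (hjI j hj), hxr x0 hx0 j hj]
        · push Not at hyv
          obtain ⟨u, hu, huv⟩ := hyv
          have hut : u.1 < t.1 := C.lt t u hu
          refine ih u (C.lt t u hu) I α ρ X' hne ?_ hId hconst hdense hHI
            (hcls u t.1 hut I α ρ y hyG huv hyI)
          intro x hx
          obtain ⟨h1, h2⟩ := hXmem x hx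
          rw [mem_sdiff, hXX]
          exact ⟨((C.val_and _ hand).1 h1).2 u hu, fun h => h2 (hEmono hut.le h)⟩
      · -- an OR gate
        obtain ⟨x, hx, hfull⟩ := hFR' X' I _ hne hdense hlarge
        obtain ⟨hxv, hxE⟩ := hXmem x hx
        have hfull' : ∀ z : Fin ν → Fin a → Bool, (∀ i ∈ I, z i = ρ i) →
            ∃ y, ¬ C.Val (B y) t ∧ y ∉ G t.1 ∧ ∀ i, y i (x i) = z i := by
          intro z hz
          obtain ⟨y, hy, hyz⟩ := hfull z
          obtain ⟨h1, h2, h3⟩ := hYmem y hy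
          refine ⟨y, h1, h2, fun i => ?_⟩
          by_cases hi : i ∈ I
          · rw [hconst x hx i hi, h3 i hi, hz i hi]
          · exact hyz i hi
        rw [C.val_or _ hand] at hxv
        rcases hxv with ⟨i, hi, hAi⟩ | ⟨u, hu, hxu⟩
        · rcases hleaf i with h1 | h1 | ⟨J, r, hJd, hr1, hr2⟩
          · obtain ⟨y, hy⟩ := hYne
            have h2 := (hYmem y hy).1
            rw [C.val_or _ hand, not_or] at h2
            exact h2.1 ⟨i, hi, h1 y⟩
          · rw [h1 x] at hAi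
            exact absurd hAi (by simp)
          · obtain ⟨z, hz1, hz2⟩ := hH.move I J ρ hHI hJd
            obtain ⟨y, hy1, -, hy3⟩ := hfull' z hz1
            rw [C.val_or _ hand, not_or] at hy1
            have hBf : B y i = false := by
              by_contra hB
              apply hy1.1
              exact ⟨i, hi, by simpa using hB⟩
            refine hr2 y hBf (hH.congr J z _ hz2 fun j hj => ?_)
            rw [← hy3 j, hr1 x hAi j hj]
        · have hut : u.1 < t.1 := C.lt t u hu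
          obtain ⟨hE1, hE2⟩ := hEnext u t.1 hut x hxE
          have hxm : x ∈ XX u \ E u.1 := by
            rw [mem_sdiff, hXX]
            exact ⟨hxu, hE1⟩
          obtain ⟨X2, hX2, I2, hx2, hI2, hc2, hd2⟩ := htl3 _ x hxm hE2
          obtain ⟨z, hz1, hz2⟩ := hH.move I I2 ρ hHI hI2
          obtain ⟨y, hy1, hy2, hy3⟩ := hfull' z hz1
          rw [C.val_or _ hand, not_or] at hy1
          have hyu : ¬ C.Val (B y) u := fun h => hy1.2 ⟨u, hu, h⟩
          exact ih u (C.lt t u hu) I2 x z X2 ⟨x, hx2⟩ hX2 hI2 hc2 hd2 hz2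
            (hcls u t.1 hut I2 x z y hy2 hyu fun i _ => hy3 i)
  -- the root
  have hEcard : ((E C.out.1).card : ℝ) ≤ s * T := by
    refine (errs_card tl XX hT htl2 C.out.1).trans ?_
    have h1 : (C.out.1 : ℝ) ≤ s := by exact_mod_cast C.out.2.le
    exact mul_le_mul_of_nonneg_right h1 hT
  obtain ⟨E0, hE0sub, hE0c, hE0⟩ := hPART (V := Fin ν) (Q := Q) lam T0 j0 hlam0 hT0 (by
    rw [Fintype.card_fin]
    exact hpart0) (XX C.out \ E C.out.1)
  obtain ⟨x, hxm, hxE0⟩ : ∃ x ∈ XX C.out \ E C.out.1, x ∉ E0 := by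
    by_contra hno
    push Not at hno
    have h1 : S ⊆ E C.out.1 ∪ E0 := by
      intro x hx
      rw [mem_union]
      by_cases h2 : x ∈ E C.out.1
      · exact Or.inl h2
      · refine Or.inr (hno x ?_)
        rw [mem_sdiff, hXX]
        exact ⟨hS x hx, h2⟩
    have h2 : (S.card : ℝ) ≤ (E C.out.1).card + E0.card := by
      exact_mod_cast (card_le_card h1).trans (card_union_le _ _)
    linarith
  obtain ⟨X2, hX2, I2, hx2, hI2, hc2, hd2⟩ := hE0 x hxm hxE0
  have hGcard : (G (C.out.1 + 1)).card * 2 ^ Δ ≤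
      s * ((2 * Fintype.card Q * 2 ^ a) ^ ν * 2 ^ (ν * Fintype.card Q * a)) := by
    have h1 : ∀ t : ℕ, (G t).card * 2 ^ Δ ≤
        t * ((2 * Fintype.card Q * 2 ^ a) ^ ν * 2 ^ (ν * Fintype.card Q * a)) := by
      intro t
      induction t with
      | zero => simp [G, errs]
      | succ t iht =>
        by_cases ht : t < s
        · have h2 : G (t + 1) = G t ∪ small2 Δ (YY ⟨t, ht⟩ \ G t) := errs_succ (small2 Δ) YY ⟨t, ht⟩
          rw [h2]
          have h3 := small2_card Δ (YY ⟨t, ht⟩ \ G t)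
          have h4 := card_union_le (G t) (small2 Δ (YY ⟨t, ht⟩ \ G t))
          calc _ ≤ ((G t).card + (small2 Δ (YY ⟨t, ht⟩ \ G t)).card) * 2 ^ Δ :=
                Nat.mul_le_mul_right _ h4
            _ ≤ _ := by
                rw [add_mul, add_mul, one_mul]
                exact add_le_add iht h3
        · have h2 : G (t + 1) = G t := by
            change errs (small2 Δ) YY (t + 1) = errs (small2 Δ) YY t
            rw [errs, dif_neg ht, union_empty]
          rw [h2]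
          refine iht.trans (Nat.mul_le_mul_right _ (by omega))
    refine (h1 (C.out.1 + 1)).trans (Nat.mul_le_mul_right _ ?_)
    have := C.out.2
    omega
  obtain ⟨y, hyY, hyG, hyH⟩ := hroot I2 x hI2 _ hGcard
  exact key C.out I2 x (fun i => y i (x i)) X2 ⟨x, hx2⟩ hX2 (hI2.trans hj0) hc2 hd2 hyH
    (hcls C.out (C.out.1 + 1) (by omega) I2 x _ y hyG (hY0 y hyY) fun i _ => rfl)

/-- the zero-one law: a monotone circuit rejecting at least half of the inputs `B y` accepts few of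
the inputs `A x` -/
theorem zero_one (hFR : FR2_target) (hPART : PART_target) {ν s d Δ a j0 : ℕ} {Q ι : Type}
    [Fintype Q] [DecidableEq Q] {H : Finset (Fin ν) → (Fin ν → Fin a → Bool) → Prop}
    {lam T T0 : ℝ} (hH : Dup2 d H) (hlam0 : 0 < lam) (hlam1 : lam < 1)
    (hT : 0 ≤ T) (hT0 : 0 ≤ T0) (hΔ : 0 < Δ) (hj0 : j0 ≤ d)
    (hpart : ∀ j : ℕ, d < j → j ≤ ν → (Fintype.card Q : ℝ) ^ (ν - j) ≤ T * lam ^ j)
    (hpart0 : ∀ j : ℕ, j0 < j → j ≤ ν → (Fintype.card Q : ℝ) ^ (ν - j) ≤ T0 * lam ^ j)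
    (hlam : 32 * Δ * (ν : ℝ) ^ 2 * 4 ^ a * lam ≤ 1)
    (hs : 4 * (s * (2 * Fintype.card Q * 2 ^ a) ^ ν) < 2 ^ Δ)
    (hinj : ∀ (I : Finset (Fin ν)) (α : Fin ν → Q), I.card ≤ j0 →
      ∀ W : Finset (Fin ν → Q → Fin a → Bool), (∀ y ∈ W, ¬ H I fun i => y i (α i)) →
        4 * W.card ≤ 2 ^ (ν * Fintype.card Q * a))
    (C : MonCircuit ι s) (A : (Fin ν → Q) → ι → Bool) (B : (Fin ν → Q → Fin a → Bool) → ι → Bool)
    (hleaf : ∀ i : ι, (∀ y, B y i = true) ∨ (∀ x, A x i = false) ∨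
      ∃ (J : Finset (Fin ν)) (r : Fin ν → Q), J.card ≤ d ∧
      (∀ x, A x i = true → ∀ j ∈ J, x j = r j) ∧ (∀ y, B y i = false → ¬ H J fun j => y j (r j)))
    (Y0 : Finset (Fin ν → Q → Fin a → Bool)) (hY0 : ∀ y ∈ Y0, ¬ C.Accepts (B y))
    (hY0c : 2 ^ (ν * Fintype.card Q * a) ≤ 2 * Y0.card)
    (S : Finset (Fin ν → Q)) (hS : ∀ x ∈ S, C.Accepts (A x)) : (S.card : ℝ) ≤ s * T + T0 := by
  classical
  refine zero_one_gen hFR hPART hH hlam0 hlam1 hT hT0 hΔ hj0 hpart hpart0 hlam C A B hleaf Y0 hY0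
    ?_ S hS
  intro I α hI G' hG'
  have hG4 : 4 * G'.card < 2 ^ (ν * Fintype.card Q * a) := by
    by_contra hno
    rw [not_lt] at hno
    have h1 : 2 ^ (ν * Fintype.card Q * a) * 2 ^ Δ ≤
        2 ^ (ν * Fintype.card Q * a) * (4 * (s * (2 * Fintype.card Q * 2 ^ a) ^ ν)) := by
      calc 2 ^ (ν * Fintype.card Q * a) * 2 ^ Δ ≤ 4 * G'.card * 2 ^ Δ :=
            Nat.mul_le_mul_right _ hno
        _ = 4 * (G'.card * 2 ^ Δ) := by ring
        _ ≤ 4 * (s * ((2 * Fintype.card Q * 2 ^ a) ^ ν * 2 ^ (ν * Fintype.card Q * a))) := by gcongr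
        _ = _ := by ring
    have h2 := Nat.le_of_mul_le_mul_left h1 (by positivity)
    omega
  set Bad := univ.filter fun y : Fin ν → Q → Fin a → Bool => ¬ H I fun i => y i (α i) with hBad
  have hBadc : 4 * Bad.card ≤ 2 ^ (ν * Fintype.card Q * a) :=
    hinj I α hI Bad fun y hy => (mem_filter.1 hy).2
  obtain ⟨y, hyY, hyG, hyB⟩ : ∃ y ∈ Y0, y ∉ G' ∧ y ∉ Bad := by
    by_contra hno
    push Not at hno
    have h1 : Y0 ⊆ G' ∪ Bad := by
      intro y hy
      rw [mem_union]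
      by_cases h2 : y ∈ G'
      · exact Or.inl h2
      · exact Or.inr (hno y hy h2)
    have h2 := (card_le_card h1).trans (card_union_le _ _)
    omega
  refine ⟨y, hyY, hyG, ?_⟩
  by_contra h
  exact hyB (mem_filter.2 ⟨mem_univ _, h⟩)

/-- the points with prescribed values at `x` are not too rare -/
lemma card_fix2 {ν a : ℕ} {Q : Type} [Fintype Q] [DecidableEq Q] (x : Fin ν → Q)
    (ρ : Fin ν → Fin a → Bool) [DecidablePred fun y : Fin ν → Q → Fin a → Bool =>
      ∀ i, y i (x i) = ρ i] :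
    2 ^ (ν * Fintype.card Q * a) ≤
      (univ.filter fun y : Fin ν → Q → Fin a → Bool => ∀ i, y i (x i) = ρ i).card *
        (2 ^ a) ^ ν := by
  classical
  have h1 : 2 ^ (ν * Fintype.card Q * a) = (univ : Finset (Fin ν → Q → Fin a → Bool)).card := by
    rw [card_univ, Fintype.card_fun, Fintype.card_fun, Fintype.card_fun, Fintype.card_fin,
      Fintype.card_fin, Fintype.card_bool, ← pow_mul, ← pow_mul]
    congr 1
    ring
  have h2 : (2 ^ a) ^ ν = (univ : Finset (Fin ν → Fin a → Bool)).card := by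
    rw [card_univ, Fintype.card_fun, Fintype.card_fun, Fintype.card_fin, Fintype.card_fin,
      Fintype.card_bool]
  rw [h1, h2, ← card_product]
  refine card_le_card_of_injOn
    (fun y => (fun i q => if q = x i then ρ i else y i q, fun i => y i (x i))) ?_ ?_
  · intro y _
    simp
  · intro y _ y' _ h
    simp only [Prod.mk.injEq] at h
    obtain ⟨h3, h4⟩ := h
    funext i q
    by_cases hq : q = x i
    · rw [hq]
      exact congrFun h4 i
    · have h5 := congrFun (congrFun h3 i) q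
      simpa [hq] using h5

/-- the case of circuits rejecting all the inputs `B y` -/
theorem sound_case (hFR : FR2_target) (hPART : PART_target) {ν s d Δ a : ℕ} {Q ι : Type}
    [Fintype Q] [DecidableEq Q] {H : Finset (Fin ν) → (Fin ν → Fin a → Bool) → Prop}
    {lam T : ℝ} (hH : Dup2 d H) (hlam0 : 0 < lam) (hlam1 : lam < 1)
    (hT : 0 ≤ T) (hΔ : 0 < Δ)
    (hpart : ∀ j : ℕ, d < j → j ≤ ν → (Fintype.card Q : ℝ) ^ (ν - j) ≤ T * lam ^ j)
    (hlam : 32 * Δ * (ν : ℝ) ^ 2 * 4 ^ a * lam ≤ 1)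
    (hs : s * (2 * Fintype.card Q * 2 ^ a * 2 ^ a) ^ ν < 2 ^ Δ)
    (C : MonCircuit ι s) (A : (Fin ν → Q) → ι → Bool) (B : (Fin ν → Q → Fin a → Bool) → ι → Bool)
    (hleaf : ∀ i : ι, (∀ y, B y i = true) ∨ (∀ x, A x i = false) ∨
      ∃ (J : Finset (Fin ν)) (r : Fin ν → Q), J.card ≤ d ∧
      (∀ x, A x i = true → ∀ j ∈ J, x j = r j) ∧ (∀ y, B y i = false → ¬ H J fun j => y j (r j)))
    (hY0 : ∀ y, ¬ C.Accepts (B y))
    (S : Finset (Fin ν → Q)) (hS : ∀ x ∈ S, C.Accepts (A x)) : (S.card : ℝ) ≤ s * T + T := by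
  classical
  refine zero_one_gen hFR hPART hH hlam0 hlam1 hT hT hΔ le_rfl hpart hpart hlam C A B hleaf univ
    (fun y _ => hY0 y) ?_ S hS
  intro I α hI G' hG'
  obtain ⟨ρ, -, hρ⟩ := hH.move ∅ I (fun _ _ => false) (hH.empty _) hI
  have hW := card_fix2 α ρ
  set W := univ.filter fun y : Fin ν → Q → Fin a → Bool => ∀ i, y i (α i) = ρ i with hWdef
  obtain ⟨y, hyW, hyG⟩ : ∃ y ∈ W, y ∉ G' := by
    by_contra hno
    push Not at hno
    have h1 : W.card ≤ G'.card := card_le_card hno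
    have hWpos : 0 < W.card := by
      by_contra h0
      rw [not_lt, Nat.le_zero] at h0
      rw [h0, zero_mul] at hW
      have : 0 < 2 ^ (ν * Fintype.card Q * a) := by positivity
      omega
    have h2 : W.card * 2 ^ Δ ≤ W.card * (s * (2 * Fintype.card Q * 2 ^ a * 2 ^ a) ^ ν) := by
      calc W.card * 2 ^ Δ ≤ G'.card * 2 ^ Δ := Nat.mul_le_mul_right _ h1
        _ ≤ s * ((2 * Fintype.card Q * 2 ^ a) ^ ν * 2 ^ (ν * Fintype.card Q * a)) := hG'
        _ ≤ s * ((2 * Fintype.card Q * 2 ^ a) ^ ν * (W.card * (2 ^ a) ^ ν)) := by gcongr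
        _ = W.card * (s * (2 * Fintype.card Q * 2 ^ a * 2 ^ a) ^ ν) := by
            rw [mul_pow (2 * Fintype.card Q * 2 ^ a) (2 ^ a)]
            ring
    have h3 := Nat.le_of_mul_le_mul_left h2 hWpos
    omega
  refine ⟨y, mem_univ _, hyG, hH.congr I ρ _ hρ fun i _ => ?_⟩
  exact ((mem_filter.1 hyW).2 i).symm

end Pool.Agent.H1.Mono
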