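import Pool.Agent.H73.Xor.Res

/-!
# Monotone circuits and the notions used in their lower bound
-/

open Finset Pool.Agent.H73.Xor

namespace Pool.Agent.H1.Mono

/-- A monotone circuit with `s` gates and inputs indexed by `ι`: each gate is an AND gate or an OR
gate of arbitrary fan-in, fed by the inputs in `ins t` and by the earlier gates in `gates t`. -/
structure MonCircuit (ι : Type) (s : ℕ) where
  isAnd : Fin s → Bool
  ins : Fin s → Finset ι
  gates : Fin s → Finset (Fin s)
  lt : ∀ t, ∀ u ∈ gates t, u < t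
  out : Fin s

/-- Gate `t` of the circuit takes the value true on the input `A`. -/
def MonCircuit.Val {ι : Type} {s : ℕ} (C : MonCircuit ι s) (A : ι → Bool) (t : Fin s) : Prop :=
  if C.isAnd t = true then
    (∀ i ∈ C.ins t, A i = true) ∧ ∀ u : {u : Fin s // u ∈ C.gates t}, C.Val A u.1
  else
    (∃ i ∈ C.ins t, A i = true) ∨ ∃ u : {u : Fin s // u ∈ C.gates t}, C.Val A u.1
termination_by t
decreasing_by all_goals exact C.lt t u.1 u.2

/-- The circuit accepts the input `A`: its output gate takes the value true. -/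
def MonCircuit.Accepts {ι : Type} {s : ℕ} (C : MonCircuit ι s) (A : ι → Bool) : Prop :=
  C.Val A C.out

lemma MonCircuit.val_and {ι : Type} {s : ℕ} (C : MonCircuit ι s) (A : ι → Bool) {t : Fin s}
    (h : C.isAnd t = true) :
    C.Val A t ↔ (∀ i ∈ C.ins t, A i = true) ∧ ∀ u ∈ C.gates t, C.Val A u := by
  rw [MonCircuit.Val, if_pos h]
  simp

lemma MonCircuit.val_or {ι : Type} {s : ℕ} (C : MonCircuit ι s) (A : ι → Bool) {t : Fin s}
    (h : ¬ C.isAnd t = true) :
    C.Val A t ↔ (∃ i ∈ C.ins t, A i = true) ∨ ∃ u ∈ C.gates t, C.Val A u := by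
  rw [MonCircuit.Val, if_neg h]
  simp

/-- the sign of a bit -/
def sgn (b : Bool) : ℝ := if b = true then -1 else 1

/-- `X` is `lam`-dense outside the coordinates of `I`: for every set `K` of coordinates outside `I`
and every `β`, at most a fraction `lam ^ |K|` of the points of `X` agree with `β` on `K`. -/
def Dense {V Q : Type} [Fintype V] [DecidableEq V] [DecidableEq Q] (lam : ℝ) (I : Finset V)
    (X : Finset (V → Q)) : Prop :=
  ∀ K : Finset V, Disjoint K I → ∀ β : V → Q,
    ((X.filter fun x => ∀ i ∈ K, x i = β i).card : ℝ) ≤ lam ^ K.card * X.card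

/-- A set of positions (partial assignments, `(I, ρ)` standing for `ρ` restricted to `I`) from
which Duplicator survives in the width-`d` game on `F`. -/
structure Dup {ν : ℕ} (F : CNF ν) (d : ℕ) (H : Finset (Fin ν) → (Fin ν → Bool) → Prop) : Prop where
  empty : ∀ ρ, H ∅ ρ
  mono : ∀ I J ρ, H I ρ → J ⊆ I → H J ρ
  congr : ∀ I ρ ρ', H I ρ → (∀ i ∈ I, ρ i = ρ' i) → H I ρ'
  extend : ∀ I ρ, H I ρ → I.card < d → ∀ i, ∃ ρ', (∀ j ∈ I, ρ' j = ρ j) ∧ H (insert i I) ρ'
  safe : ∀ I ρ, H I ρ → ∀ C ∈ F, (∀ l ∈ C, l.1 ∈ I) → Satisfies ρ C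

end Pool.Agent.H1.Mono
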