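import Pool.Agent.H1.Mono.Dag
import Pool.Agent.H1.Mono.Circ

/-!
# CNF formulas as incidence matrices, the planted formulas and the unsatisfiable formulas
-/

open Finset Pool.Agent.H73.Xor

namespace Pool.Agent.H1.Mono

section enc

variable {n m ν b k : ℕ}

/-- the position of a bit of a block -/
def idx (h : ν * b ≤ n) (i : Fin ν) (t : Fin b) : Fin n :=
  ⟨i.1 * b + t.1, by
    have h1 := i.2
    have h2 := t.2
    have h3 : (i.1 + 1) * b ≤ ν * b := Nat.mul_le_mul_right b h1
    rw [add_mul, one_mul] at h3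
    omega⟩

/-- the blocks of an assignment -/
def blk (h : ν * b ≤ n) (x : Fin n → Bool) : Fin ν → (Fin b → Bool) := fun i t => x (idx h i t)

/-- the clause excluding the values of a row -/
def rowCl (h : ν * b ≤ n) (r : Fin k → Fin ν × (Fin b → Bool)) : Finset (Fin n × Bool) :=
  univ.image fun p : Fin k × Fin b => (idx h (r p.1).1 p.2, !(r p.1).2 p.2)

lemma rowCl_card (h : ν * b ≤ n) (r : Fin k → Fin ν × (Fin b → Bool)) :
    (rowCl h r).card ≤ k * b := by
  refine card_image_le.trans ?_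
  rw [card_univ, Fintype.card_prod, Fintype.card_fin, Fintype.card_fin]

lemma mem_rowCl (h : ν * b ≤ n) (r : Fin k → Fin ν × (Fin b → Bool)) (x : Fin n → Bool) :
    (∃ i, (i, x i) ∈ rowCl h r) ↔ ¬ ∀ j, blk h x (r j).1 = (r j).2 := by
  constructor
  · rintro ⟨i, hi⟩ hall
    unfold rowCl at hi
    rw [mem_image] at hi
    obtain ⟨⟨j, t⟩, -, hjt⟩ := hi
    rw [Prod.mk.injEq] at hjt
    obtain ⟨h1, h2⟩ := hjt
    have h3 := congrFun (hall j) t
    unfold blk at h3
    simp only at h1 h2
    rw [h1, ← h2] at h3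
    revert h3
    cases (r j).2 t <;> simp
  · intro hne
    push Not at hne
    obtain ⟨j, hj⟩ := hne
    have : ∃ t, blk h x (r j).1 t ≠ (r j).2 t := by
      by_contra hno
      push Not at hno
      exact hj (funext hno)
    obtain ⟨t, ht⟩ := this
    refine ⟨idx h (r j).1 t, ?_⟩
    unfold rowCl
    rw [mem_image]
    refine ⟨(j, t), mem_univ _, ?_⟩
    rw [Prod.mk.injEq]
    refine ⟨rfl, ?_⟩
    unfold blk at ht
    revert ht
    cases x (idx h (r j).1 t) <;> cases (r j).2 t <;> simp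

/-- a formula all of whose rows with index `r` failing `R` are full -/
noncomputable def form (h : ν * b ≤ n) (e : (Fin k → Fin ν × (Fin b → Bool)) → Fin m)
    (R : (Fin k → Fin ν × (Fin b → Bool)) → Prop) : Formula n m :=
  fun q => @decide (∀ r, e r = q.1 → R r → q.2 ∈ rowCl h r) (Classical.propDecidable _)

lemma form_true (h : ν * b ≤ n) (e : (Fin k → Fin ν × (Fin b → Bool)) → Fin m)
    (R : (Fin k → Fin ν × (Fin b → Bool)) → Prop) (q : Fin m × (Fin n × Bool)) :
    form h e R q = true ↔ ∀ r, e r = q.1 → R r → q.2 ∈ rowCl h r := by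
  unfold form
  exact @decide_eq_true_iff _ (Classical.propDecidable _)

lemma form_narrow (h : ν * b ≤ n) (hn : 0 < n) {e : (Fin k → Fin ν × (Fin b → Bool)) → Fin m}
    (R : (Fin k → Fin ν × (Fin b → Bool)) → Prop) : Narrow (k * b) (form h e R) := by
  intro j
  by_cases hj : ∃ r, e r = j ∧ R r
  · right
    obtain ⟨r, hr, hR⟩ := hj
    refine (card_le_card fun l hl => ?_).trans (rowCl_card h r)
    rw [mem_filter, form_true] at hl
    exact hl.2 r hr hR
  · left
    refine ⟨⟨0, hn⟩, ?_, ?_⟩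
    · rw [form_true]
      exact fun r hr hR => absurd ⟨r, hr, hR⟩ hj
    · rw [form_true]
      exact fun r hr hR => absurd ⟨r, hr, hR⟩ hj

lemma form_sat (h : ν * b ≤ n) (hn : 0 < n) {e : (Fin k → Fin ν × (Fin b → Bool)) → Fin m}
    (he : Function.Injective e) {R : (Fin k → Fin ν × (Fin b → Bool)) → Prop} {x : Fin n → Bool}
    (hR : ∀ r, R r → ¬ ∀ j, blk h x (r j).1 = (r j).2) : Sat x (form h e R) := by
  intro j
  by_cases hj : ∃ r, e r = j ∧ R r
  · obtain ⟨r, hr, hRr⟩ := hj
    obtain ⟨i, hi⟩ := (mem_rowCl h r x).2 (hR r hRr)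
    refine ⟨i, ?_⟩
    rw [form_true]
    intro r' hr' _
    have : r' = r := he (hr'.trans hr.symm)
    rw [this]
    exact hi
  · refine ⟨⟨0, hn⟩, ?_⟩
    rw [form_true]
    exact fun r hr hR => absurd ⟨r, hr, hR⟩ hj

lemma form_unsat (h : ν * b ≤ n) {e : (Fin k → Fin ν × (Fin b → Bool)) → Fin m}
    {R : (Fin k → Fin ν × (Fin b → Bool)) → Prop}
    (hR : ∀ x : Fin n → Bool, ∃ r, R r ∧ ∀ j, blk h x (r j).1 = (r j).2) :
    ¬ Satisfiable (form h e R) := by
  rintro ⟨x, hx⟩
  obtain ⟨r, hr1, hr2⟩ := hR x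
  obtain ⟨i, hi⟩ := hx (e r)
  rw [form_true] at hi
  exact (mem_rowCl h r x).1 ⟨i, hi r rfl hr1⟩ hr2

/-- the rows used in the unsatisfiable formula of `y` -/
def Gd {Q : Type} (F : CNF ν) (y : Fin ν → Q → Bool) (r : Fin k → Fin ν × Q) : Prop :=
  ∃ D ∈ F, ∀ l ∈ D, ∃ j, l.1 = (r j).1 ∧ y (r j).1 (r j).2 = !l.2

lemma exists_row {Q : Type} {F : CNF ν} (hν : 0 < ν) (hF : IsKCNF k F)
    (hU : Unsat F) (y : Fin ν → Q → Bool) (X : Fin ν → Q) :
    ∃ r : Fin k → Fin ν × Q, Gd F y r ∧ ∀ j, X (r j).1 = (r j).2 := by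
  classical
  obtain ⟨D, hD, hDs⟩ := hU fun i => y i (X i)
  have hcard := hF D hD
  -- enumerate the literals of `D`
  obtain ⟨f, hf⟩ : ∃ f : Fin k → Fin ν, ∀ l ∈ D, ∃ j, f j = l.1 := by
    have h1 : (D.image Prod.fst).card ≤ k := card_image_le.trans hcard
    have h2 : Fintype.card {i // i ∈ D.image Prod.fst} ≤ Fintype.card (Fin k) := by
      rw [Fintype.card_coe, Fintype.card_fin]
      exact h1
    obtain ⟨g⟩ := Function.Embedding.nonempty_of_card_le h2
    refine ⟨fun j => if hj : ∃ i, g i = j then hj.choose.1 else ⟨0, hν⟩, fun l hl => ?_⟩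
    have hl' : l.1 ∈ D.image Prod.fst := mem_image_of_mem _ hl
    refine ⟨g ⟨l.1, hl'⟩, ?_⟩
    have hex : ∃ i, g i = g ⟨l.1, hl'⟩ := ⟨_, rfl⟩
    have h3 := g.injective hex.choose_spec
    simp only [hex, dif_pos]
    rw [h3]
  refine ⟨fun j => (f j, X (f j)), ⟨D, hD, fun l hl => ?_⟩, fun j => rfl⟩
  obtain ⟨j, hj⟩ := hf l hl
  refine ⟨j, hj.symm, ?_⟩
  simp only
  rw [hj]
  have hne : y l.1 (X l.1) ≠ l.2 := fun heq => hDs ⟨l, hl, heq⟩
  revert hne
  cases y l.1 (X l.1) <;> cases l.2 <;> simp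

/-- counting assignments by blocks -/
lemma card_blk (h : ν * b ≤ n) (hn : n < ν * b + b) (p : (Fin ν → (Fin b → Bool)) → Prop)
    [DecidablePred p] [DecidablePred fun x : Fin n → Bool => p (blk h x)] :
    (univ.filter fun x : Fin n → Bool => p (blk h x)).card ≤ (univ.filter p).card * 2 ^ b := by
  classical
  have hb : 0 < b := by omega
  have h1 : (univ.filter fun x : Fin n → Bool => p (blk h x)).card ≤
      ((univ.filter p) ×ˢ (univ : Finset (Fin (n - ν * b) → Bool))).card := by
    refine card_le_card_of_injOn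
      (fun x => (blk h x, fun j : Fin (n - ν * b) => x ⟨ν * b + j.1, by omega⟩)) ?_ ?_
    · intro x hx
      rw [mem_coe, mem_filter] at hx
      rw [mem_coe, mem_product, mem_filter]
      exact ⟨⟨mem_univ _, hx.2⟩, mem_univ _⟩
    · intro x _ x' _ hxx
      rw [Prod.mk.injEq] at hxx
      obtain ⟨h2, h3⟩ := hxx
      funext i
      by_cases hi : i.1 < ν * b
      · have h4 : i.1 / b < ν := by
          rw [Nat.div_lt_iff_lt_mul hb]
          exact hi
        have h5 : i.1 % b < b := Nat.mod_lt _ hb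
        have h6 := congrFun (congrFun h2 ⟨i.1 / b, h4⟩) ⟨i.1 % b, h5⟩
        unfold blk idx at h6
        have h7 : i.1 / b * b + i.1 % b = i.1 := Nat.div_add_mod' i.1 b
        simp only [h7] at h6
        exact h6
      · have h4 : i.1 - ν * b < n - ν * b := by omega
        have h5 := congrFun h3 ⟨i.1 - ν * b, h4⟩
        simp only at h5
        have h6 : ν * b + (i.1 - ν * b) = i.1 := by omega
        simp only [h6] at h5
        exact h5
  refine h1.trans ?_
  rw [card_product]
  refine Nat.mul_le_mul_left _ ?_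
  rw [card_univ, Fintype.card_fun, Fintype.card_fin, Fintype.card_bool]
  exact Nat.pow_le_pow_right (by norm_num) (by omega)

end enc

/-- the lower bound for planted formulas, with all parameters -/
theorem core (hDAG : DAG_target) {n m ν b k d Δ : ℕ} {F : CNF ν}
    {H : Finset (Fin ν) → (Fin ν → Bool) → Prop} {lam T : ℝ}
    (hν : 0 < ν) (hn : ν * b ≤ n) (hn' : n < ν * b + b) (hm : (ν * 2 ^ b) ^ k ≤ m)
    (hF : IsKCNF k F) (hU : Unsat F) (hH : Dup F d H) (hkd : k ≤ d) (hlam0 : 0 < lam)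
    (hlam1 : lam < 1) (hT : 0 ≤ T) (hΔ : 0 < Δ)
    (hpart : ∀ j : ℕ, d < j → j ≤ ν → ((2 ^ b : ℕ) : ℝ) ^ (ν - j) ≤ T * lam ^ j)
    (hlam : 32 * Δ * (ν : ℝ) ^ 2 * lam ≤ 1) :
    ∃ P : (Fin n → Bool) → Formula n m, (∀ x, Sat x (P x)) ∧ (∀ x, Narrow (k * b) (P x)) ∧
      ∀ (s : ℕ) (C : MonCircuit (Fin m × (Fin n × Bool)) s), s * (8 * 2 ^ b) ^ ν < 2 ^ Δ →
        (∀ A, Narrow (k * b) A → ¬ Satisfiable A → ¬ C.Accepts A) →
        ∀ S : Finset (Fin n → Bool), (∀ x ∈ S, C.Accepts (P x)) →
          (S.card : ℝ) ≤ s * T * 2 ^ b := by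
  classical
  have hb : 0 < b := by omega
  have hn0 : 0 < n := by
    have := Nat.mul_pos hν hb
    omega
  have hcard : Fintype.card (Fin k → Fin ν × (Fin b → Bool)) ≤ Fintype.card (Fin m) := by
    rw [Fintype.card_fun, Fintype.card_prod, Fintype.card_fun, Fintype.card_fin, Fintype.card_fin,
      Fintype.card_fin, Fintype.card_fin, Fintype.card_bool]
    exact hm
  obtain ⟨e⟩ := Function.Embedding.nonempty_of_card_le hcard
  have he : Function.Injective e := e.injective
  let PX : (Fin ν → (Fin b → Bool)) → Formula n m := fun X =>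
    form hn e fun r => ¬ ∀ j, X (r j).1 = (r j).2
  let UY : (Fin ν → (Fin b → Bool) → Bool) → Formula n m := fun y => form hn e fun r => Gd F y r
  refine ⟨fun x => PX (blk hn x), fun x => form_sat hn hn0 he fun r hr => hr,
    fun x => form_narrow hn hn0 _, fun s C hs hC S hS => ?_⟩
  have hcardQ : Fintype.card (Fin b → Bool) = 2 ^ b := by
    rw [Fintype.card_fun, Fintype.card_fin, Fintype.card_bool]
  have hmain := hDAG (ν := ν) (k := k) (s := s) (d := d) (Δ := Δ) (Q := Fin b → Bool)
    (ι := Fin m × (Fin n × Bool)) (F := F) (H := H) (lam := lam) (T := T) hH hkd hlam0 hlam1 hT hΔ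
    (by
      rw [hcardQ]
      exact hpart) hlam
    (by
      rw [hcardQ]
      exact hs) C PX UY
    (by
      rintro ⟨j, l⟩
      by_cases hex : ∃ r, e r = j ∧ l ∉ rowCl hn r
      · right
        obtain ⟨r, hr, hl⟩ := hex
        refine ⟨r, fun x hx => ?_, fun y hy => ?_⟩
        · rw [form_true] at hx
          by_contra hno
          exact hl (hx r hr hno)
        · by_contra hno
          have : UY y (j, l) = true := by
            rw [form_true]
            intro r' hr' hG
            have : r' = r := he (hr'.trans hr.symm)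
            rw [this] at hG
            exact absurd hG hno
          rw [this] at hy
          exact absurd hy (by simp)
      · left
        push Not at hex
        intro y
        rw [form_true]
        exact fun r hr _ => hex r hr)
    (by
      intro y
      refine hC _ (form_narrow hn hn0 _) (form_unsat hn fun x => ?_)
      exact exists_row hν hF hU y (blk hn x))
    (univ.filter fun X => C.Accepts (PX X)) (by
      intro X hX
      exact (mem_filter.1 hX).2)
  have h1 : S.card ≤ (univ.filter fun x : Fin n → Bool => C.Accepts (PX (blk hn x))).card :=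
    card_le_card fun x hx => mem_filter.2 ⟨mem_univ _, hS x hx⟩
  have h2 := h1.trans (card_blk hn hn' fun X => C.Accepts (PX X))
  calc (S.card : ℝ) ≤ (((univ.filter fun X => C.Accepts (PX X)).card * 2 ^ b : ℕ) : ℝ) := by
        exact_mod_cast h2
    _ = ((univ.filter fun X => C.Accepts (PX X)).card : ℝ) * 2 ^ b := by push_cast; ring
    _ ≤ s * T * 2 ^ b := by gcongr

end Pool.Agent.H1.Mono
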