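import Pool.Agent.H1.Mono.Dag2
import Pool.Agent.H1.Mono.Enc

/-!
# The formulas: an OR of many copies of the pigeonhole formulas, with selector variables
-/

open Finset

namespace Pool.Agent.H1.Mono

section enc

variable {n m σ ν b a : ℕ}

/-- rows of one copy: two blocks and a value of each of them -/
abbrev Row (ν b : ℕ) := (Fin ν × Fin ν) × (Fin b → Bool) × (Fin b → Bool)

/-- the position of a selector bit -/
def sidx (h : σ + ν * b ≤ n) (c : Fin σ) : Fin n := ⟨c.1, by have := c.2; omega⟩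

/-- the position of a bit of a block -/
def bidx (h : σ + ν * b ≤ n) (i : Fin ν) (t : Fin b) : Fin n :=
  ⟨σ + (i.1 * b + t.1), by
    have h1 := i.2
    have h2 := t.2
    have h3 : (i.1 + 1) * b ≤ ν * b := Nat.mul_le_mul_right b h1
    rw [add_mul, one_mul] at h3
    omega⟩

/-- the blocks of an assignment -/
def blk2 (h : σ + ν * b ≤ n) (x : Fin n → Bool) : Fin ν → (Fin b → Bool) :=
  fun i t => x (bidx h i t)

/-- the selector of an assignment -/
def sel (h : σ + ν * b ≤ n) (x : Fin n → Bool) : Fin σ → Bool := fun c => x (sidx h c)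

/-- the literals saying that the selector is not `τ` -/
def selCl (h : σ + ν * b ≤ n) (τ : Fin σ → Bool) : Finset (Fin n × Bool) :=
  univ.image fun c : Fin σ => (sidx h c, !τ c)

/-- the literals saying that the blocks of the row do not have the values of the row -/
def rowCl2 (h : σ + ν * b ≤ n) (r : Row ν b) : Finset (Fin n × Bool) :=
  (univ.image fun t : Fin b => (bidx h r.1.1 t, !r.2.1 t)) ∪
    univ.image fun t : Fin b => (bidx h r.1.2 t, !r.2.2 t)

lemma selCl_card (h : σ + ν * b ≤ n) (τ : Fin σ → Bool) : (selCl h τ).card ≤ σ := by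
  refine card_image_le.trans ?_
  rw [card_univ, Fintype.card_fin]

lemma rowCl2_card (h : σ + ν * b ≤ n) (r : Row ν b) : (rowCl2 h r).card ≤ 2 * b := by
  refine (card_union_le _ _).trans ?_
  rw [two_mul]
  refine add_le_add ?_ ?_
  · refine card_image_le.trans ?_
    rw [card_univ, Fintype.card_fin]
  · refine card_image_le.trans ?_
    rw [card_univ, Fintype.card_fin]

lemma sat_image {β : Type} [Fintype β] (f : β → Fin n) (v : β → Bool) (x : Fin n → Bool) :
    (∃ i, (i, x i) ∈ univ.image fun c : β => (f c, !v c)) ↔ ¬ ∀ c, x (f c) = v c := by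
  constructor
  · rintro ⟨i, hi⟩ hall
    rw [mem_image] at hi
    obtain ⟨c, -, hc⟩ := hi
    rw [Prod.mk.injEq] at hc
    obtain ⟨h1, h2⟩ := hc
    have h3 := hall c
    rw [h1, ← h2] at h3
    revert h3
    cases v c <;> simp
  · intro hne
    push Not at hne
    obtain ⟨c, hc⟩ := hne
    refine ⟨f c, ?_⟩
    rw [mem_image]
    refine ⟨c, mem_univ _, ?_⟩
    rw [Prod.mk.injEq]
    refine ⟨rfl, ?_⟩
    revert hc
    cases x (f c) <;> cases v c <;> simp

lemma sat_selCl (h : σ + ν * b ≤ n) (τ : Fin σ → Bool) (x : Fin n → Bool) :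
    (∃ i, (i, x i) ∈ selCl h τ) ↔ sel h x ≠ τ := by
  unfold selCl
  rw [sat_image (sidx h) τ x, not_iff_not]
  constructor
  · exact fun hc => funext hc
  · exact fun hc c => congrFun hc c

lemma sat_rowCl2 (h : σ + ν * b ≤ n) (r : Row ν b) (x : Fin n → Bool) :
    (∃ i, (i, x i) ∈ rowCl2 h r) ↔ ¬ (blk2 h x r.1.1 = r.2.1 ∧ blk2 h x r.1.2 = r.2.2) := by
  unfold rowCl2
  have h1 := sat_image (bidx h r.1.1) r.2.1 x
  have h2 := sat_image (bidx h r.1.2) r.2.2 x
  rw [not_and_or]
  have h3 : (∀ c, x (bidx h r.1.1 c) = r.2.1 c) ↔ blk2 h x r.1.1 = r.2.1 :=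
    ⟨fun hc => funext hc, fun hc c => congrFun hc c⟩
  have h4 : (∀ c, x (bidx h r.1.2 c) = r.2.2 c) ↔ blk2 h x r.1.2 = r.2.2 :=
    ⟨fun hc => funext hc, fun hc c => congrFun hc c⟩
  rw [← h3, ← h4, ← h1, ← h2]
  constructor
  · rintro ⟨i, hi⟩
    rw [mem_union] at hi
    rcases hi with hi | hi
    · exact Or.inl ⟨i, hi⟩
    · exact Or.inr ⟨i, hi⟩
  · rintro (⟨i, hi⟩ | ⟨i, hi⟩)
    · exact ⟨i, mem_union_left _ hi⟩
    · exact ⟨i, mem_union_right _ hi⟩

/-- The formula in which the row `(τ, r)` is, according to `st τ r`, the clause saying that the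
selector is not `τ` (0), this clause or that the blocks of `r` do not have the values of `r` (1),
or the full clause (2). -/
noncomputable def form2 (h : σ + ν * b ≤ n) (e : (Fin σ → Bool) × Row ν b → Fin m)
    (st : (Fin σ → Bool) → Row ν b → Fin 3) : Formula n m :=
  fun q => @decide (∀ τ r, e (τ, r) = q.1 →
    q.2 ∈ selCl h τ ∨ (st τ r = 1 ∧ q.2 ∈ rowCl2 h r) ∨ st τ r = 2) (Classical.propDecidable _)

lemma form2_true (h : σ + ν * b ≤ n) (e : (Fin σ → Bool) × Row ν b → Fin m)
    (st : (Fin σ → Bool) → Row ν b → Fin 3) (q : Fin m × (Fin n × Bool)) :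
    form2 h e st q = true ↔ ∀ τ r, e (τ, r) = q.1 →
      q.2 ∈ selCl h τ ∨ (st τ r = 1 ∧ q.2 ∈ rowCl2 h r) ∨ st τ r = 2 := by
  unfold form2
  exact @decide_eq_true_iff _ (Classical.propDecidable _)

lemma form2_mono (h : σ + ν * b ≤ n) (e : (Fin σ → Bool) × Row ν b → Fin m)
    {st st' : (Fin σ → Bool) → Row ν b → Fin 3} (hst : ∀ τ r, st τ r ≤ st' τ r)
    (q : Fin m × (Fin n × Bool)) (hq : form2 h e st q = true) : form2 h e st' q = true := by
  rw [form2_true] at hq ⊢
  intro τ r hr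
  rcases hq τ r hr with h1 | ⟨h1, h2⟩ | h1
  · exact Or.inl h1
  · have h3 := hst τ r
    rw [h1] at h3
    have h4 : st' τ r = 1 ∨ st' τ r = 2 := by
      revert h3
      generalize st' τ r = z
      revert z
      decide
    rcases h4 with h4 | h4
    · exact Or.inr (Or.inl ⟨h4, h2⟩)
    · exact Or.inr (Or.inr h4)
  · have h3 := hst τ r
    rw [h1] at h3
    have h4 : st' τ r = 2 := by
      revert h3
      generalize st' τ r = z
      revert z
      decide
    exact Or.inr (Or.inr h4)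

lemma form2_narrow (h : σ + ν * b ≤ n) (hn : 0 < n) (e : (Fin σ → Bool) × Row ν b → Fin m)
    (st : (Fin σ → Bool) → Row ν b → Fin 3) : Narrow (σ + 2 * b) (form2 h e st) := by
  intro j
  by_cases hj : ∃ τ r, e (τ, r) = j ∧ st τ r ≠ 2
  · right
    obtain ⟨τ, r, hr, hR⟩ := hj
    have h1 : (univ.filter fun l : Fin n × Bool => form2 h e st (j, l) = true) ⊆
        selCl h τ ∪ rowCl2 h r := by
      intro l hl
      rw [mem_filter, form2_true] at hl
      rw [mem_union]
      rcases hl.2 τ r hr with h1 | h1 | h1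
      · exact Or.inl h1
      · exact Or.inr h1.2
      · exact absurd h1 hR
    refine (card_le_card h1).trans ((card_union_le _ _).trans ?_)
    exact add_le_add (selCl_card h τ) (rowCl2_card h r)
  · left
    push Not at hj
    refine ⟨⟨0, hn⟩, ?_, ?_⟩
    · rw [form2_true]
      exact fun τ r hr => Or.inr (Or.inr (hj τ r hr))
    · rw [form2_true]
      exact fun τ r hr => Or.inr (Or.inr (hj τ r hr))

lemma form2_sat (h : σ + ν * b ≤ n) (hn : 0 < n) {e : (Fin σ → Bool) × Row ν b → Fin m}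
    (he : Function.Injective e) {st : (Fin σ → Bool) → Row ν b → Fin 3} {x : Fin n → Bool}
    (hst : ∀ r, st (sel h x) r = 2 ∨
      (st (sel h x) r = 1 ∧ ¬ (blk2 h x r.1.1 = r.2.1 ∧ blk2 h x r.1.2 = r.2.2))) :
    Sat x (form2 h e st) := by
  intro j
  by_cases hj : ∃ τ r, e (τ, r) = j
  · obtain ⟨τ, r, hr⟩ := hj
    have huniq : ∀ τ' r', e (τ', r') = j → τ' = τ ∧ r' = r := by
      intro τ' r' h'
      have := he (h'.trans hr.symm)
      rwa [Prod.mk.injEq] at this
    by_cases hτ : sel h x = τ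
    · rcases hst r with h1 | ⟨h1, h2⟩
      · refine ⟨⟨0, hn⟩, ?_⟩
        rw [form2_true]
        intro τ' r' h'
        obtain ⟨rfl, rfl⟩ := huniq τ' r' h'
        rw [hτ] at h1
        exact Or.inr (Or.inr h1)
      · obtain ⟨i, hi⟩ := (sat_rowCl2 h r x).2 h2
        refine ⟨i, ?_⟩
        rw [form2_true]
        intro τ' r' h'
        obtain ⟨rfl, rfl⟩ := huniq τ' r' h'
        rw [hτ] at h1
        exact Or.inr (Or.inl ⟨h1, hi⟩)
    · obtain ⟨i, hi⟩ := (sat_selCl h τ x).2 hτ
      refine ⟨i, ?_⟩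
      rw [form2_true]
      intro τ' r' h'
      obtain ⟨rfl, rfl⟩ := huniq τ' r' h'
      exact Or.inl hi
  · refine ⟨⟨0, hn⟩, ?_⟩
    rw [form2_true]
    exact fun τ r hr => absurd ⟨τ, r, hr⟩ hj

lemma form2_unsat (h : σ + ν * b ≤ n) {e : (Fin σ → Bool) × Row ν b → Fin m}
    {st : (Fin σ → Bool) → Row ν b → Fin 3}
    (hst : ∀ (τ : Fin σ → Bool) (X : Fin ν → Fin b → Bool), ∃ r : Row ν b, st τ r ≠ 2 ∧
      (st τ r = 1 → X r.1.1 = r.2.1 ∧ X r.1.2 = r.2.2)) : ¬ Satisfiable (form2 h e st) := by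
  rintro ⟨x, hx⟩
  obtain ⟨r, hr1, hr2⟩ := hst (sel h x) (blk2 h x)
  obtain ⟨i, hi⟩ := hx (e (sel h x, r))
  rw [form2_true] at hi
  rcases hi (sel h x) r rfl with h1 | ⟨h1, h2⟩ | h1
  · exact (sat_selCl h (sel h x) x).1 ⟨i, h1⟩ rfl
  · exact (sat_rowCl2 h r x).1 ⟨i, h2⟩ (hr2 h1)
  · exact hr1 h1

/-- the rows kept in the pigeonhole formula of `y` -/
def Gd2 (y : Fin ν → (Fin b → Bool) → Fin a → Bool) (r : Row ν b) : Prop :=
  r.1.1 ≠ r.1.2 ∧ y r.1.1 r.2.1 = y r.1.2 r.2.2

/-- status of the rows in the pigeonhole formula of `y` -/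
noncomputable def stU (y : Fin ν → (Fin b → Bool) → Fin a → Bool) (r : Row ν b) : Fin 3 :=
  @ite _ (Gd2 y r) (Classical.propDecidable _) 1 2

/-- status of the rows in the planted formula of `X` -/
noncomputable def stP (X : Fin ν → Fin b → Bool) (r : Row ν b) : Fin 3 :=
  @ite _ (X r.1.1 = r.2.1 ∧ X r.1.2 = r.2.2) (Classical.propDecidable _) 2 1

lemma stU_cases (y : Fin ν → (Fin b → Bool) → Fin a → Bool) (r : Row ν b) :
    (Gd2 y r ∧ stU y r = 1) ∨ (¬ Gd2 y r ∧ stU y r = 2) := by
  unfold stU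
  by_cases h : Gd2 y r
  · exact Or.inl ⟨h, by rw [if_pos h]⟩
  · exact Or.inr ⟨h, by rw [if_neg h]⟩

lemma stP_cases (X : Fin ν → Fin b → Bool) (r : Row ν b) :
    ((X r.1.1 = r.2.1 ∧ X r.1.2 = r.2.2) ∧ stP X r = 2) ∨
      (¬ (X r.1.1 = r.2.1 ∧ X r.1.2 = r.2.2) ∧ stP X r = 1) := by
  unfold stP
  by_cases h : X r.1.1 = r.2.1 ∧ X r.1.2 = r.2.2
  · exact Or.inl ⟨h, by rw [if_pos h]⟩
  · exact Or.inr ⟨h, by rw [if_neg h]⟩

/-- status of all rows: pigeonhole formulas before the copy `t`, `Z` in the copy `t`, and the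
least status 0 afterwards; `en` enumerates the copies -/
noncomputable def stAll {R : ℕ} (en : (Fin σ → Bool) ≃ Fin R)
    (y : Fin R → Fin ν → (Fin b → Bool) → Fin a → Bool) (t : ℕ)
    (Z : Row ν b → Fin 3) (τ : Fin σ → Bool) (r : Row ν b) : Fin 3 :=
  if (en τ).1 < t then stU (y (en τ)) r else if (en τ).1 = t then Z r else 0

lemma stAll_congr {R : ℕ} (en : (Fin σ → Bool) ≃ Fin R)
    {y y' : Fin R → Fin ν → (Fin b → Bool) → Fin a → Bool} {t : ℕ}
    (h : ∀ i : Fin R, i.1 < t → y i = y' i) (Z : Row ν b → Fin 3) :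
    stAll en y t Z = stAll en y' t Z := by
  funext τ r
  unfold stAll
  by_cases h1 : (en τ).1 < t
  · rw [if_pos h1, if_pos h1, h _ h1]
  · rw [if_neg h1, if_neg h1]

lemma stAll_succ {R : ℕ} (en : (Fin σ → Bool) ≃ Fin R)
    (y : Fin R → Fin ν → (Fin b → Bool) → Fin a → Bool) (t : Fin R)
    (ω : Fin ν → (Fin b → Bool) → Fin a → Bool) :
    stAll en (Function.update y t ω) (t.1 + 1) (fun _ => 0) = stAll en y t.1 (stU ω) := by
  funext τ r
  unfold stAll
  by_cases h1 : (en τ).1 < t.1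
  · rw [if_pos (by omega), if_pos h1, Function.update_of_ne]
    intro h2
    rw [h2] at h1
    omega
  · rw [if_neg h1]
    by_cases h2 : (en τ).1 = t.1
    · rw [if_pos (by omega), if_pos h2]
      have h3 : en τ = t := Fin.ext h2
      rw [h3, Function.update_self]
    · rw [if_neg (by omega), if_neg h2]
      split_ifs <;> rfl

lemma stAll_le_succ {R : ℕ} (en : (Fin σ → Bool) ≃ Fin R)
    (y : Fin R → Fin ν → (Fin b → Bool) → Fin a → Bool) (t : ℕ) (τ : Fin σ → Bool) (r : Row ν b) :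
    stAll en y t (fun _ => 0) τ r ≤ stAll en y (t + 1) (fun _ => 0) τ r := by
  unfold stAll
  by_cases h1 : (en τ).1 < t
  · rw [if_pos h1, if_pos (by omega)]
  · rw [if_neg h1]
    split_ifs <;> exact Fin.zero_le _

lemma stAll_zero_le {R : ℕ} (en : (Fin σ → Bool) ≃ Fin R)
    (y : Fin R → Fin ν → (Fin b → Bool) → Fin a → Bool) (t : ℕ) (Z : Row ν b → Fin 3)
    (τ : Fin σ → Bool) (r : Row ν b) :
    stAll en y t (fun _ => 0) τ r ≤ stAll en y t Z τ r := by
  unfold stAll
  split_ifs
  · exact le_refl _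
  · exact Fin.zero_le _
  · exact le_refl _

end enc

/-- monotonicity of monotone circuits -/
lemma MonCircuit.mono {ι : Type} {s : ℕ} (C : MonCircuit ι s) {A A' : ι → Bool}
    (h : ∀ i, A i = true → A' i = true) (t : Fin s) (ht : C.Val A t) : C.Val A' t := by
  induction t using WellFoundedLT.induction with
  | ind t ih =>
    by_cases hand : C.isAnd t = true
    · rw [C.val_and _ hand] at ht ⊢
      exact ⟨fun i hi => h i (ht.1 i hi), fun u hu => ih u (C.lt t u hu) (ht.2 u hu)⟩
    · rw [C.val_or _ hand] at ht ⊢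
      rcases ht with ⟨i, hi, h1⟩ | ⟨u, hu, h1⟩
      · exact Or.inl ⟨i, hi, h i h1⟩
      · exact Or.inr ⟨u, hu, ih u (C.lt t u hu) h1⟩

/-- injective positions: Duplicator for the pigeonhole principle -/
lemma dup_php {ν a : ℕ} :
    Dup2 (ν := ν) (S := Fin a → Bool) (2 ^ a) fun I ρ => Set.InjOn ρ (I : Set (Fin ν)) := by
  classical
  refine ⟨fun ρ => by simp, fun I J ρ h hJ => h.mono (by exact_mod_cast hJ), ?_, ?_⟩
  · intro I ρ ρ' h hρ i hi j hj hij
    refine h hi hj ?_
    rw [hρ i hi, hρ j hj]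
    exact hij
  · intro I ρ h hc i
    by_cases hi : i ∈ I
    · exact ⟨ρ, fun _ _ => rfl, by rwa [insert_eq_of_mem hi]⟩
    · obtain ⟨v, hv⟩ : ∃ v : Fin a → Bool, v ∉ I.image ρ := by
        by_contra hno
        push Not at hno
        have h1 : (univ : Finset (Fin a → Bool)).card ≤ (I.image ρ).card :=
          card_le_card fun v _ => hno v
        rw [card_univ, Fintype.card_fun, Fintype.card_fin, Fintype.card_bool] at h1
        have h2 := card_image_le (s := I) (f := ρ)
        omega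
      have hne : ∀ j ∈ I, j ≠ i := fun j hj hji => hi (hji ▸ hj)
      refine ⟨Function.update ρ i v, fun j hj => Function.update_of_ne (hne j hj) _ _, ?_⟩
      intro j hj k hk hjk
      rw [coe_insert, Set.mem_insert_iff] at hj hk
      rcases hj with rfl | hj
      · rcases hk with rfl | hk
        · rfl
        · exfalso
          rw [Function.update_self, Function.update_of_ne (hne k hk)] at hjk
          exact hv (mem_image.2 ⟨k, hk, hjk.symm⟩)
      · rcases hk with rfl | hk
        · exfalso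
          rw [Function.update_self, Function.update_of_ne (hne j hj)] at hjk
          exact hv (mem_image.2 ⟨j, hj, hjk⟩)
        · rw [Function.update_of_ne (hne j hj), Function.update_of_ne (hne k hk)] at hjk
          exact h hj hk hjk

/-- counting triples -/
lemma card_triple {T Y X : Type} [Fintype T] [Fintype Y] [Fintype X] (p : T → Y → X → Prop)
    [∀ t y, DecidablePred (p t y)] [DecidablePred fun k : T × Y × X => p k.1 k.2.1 k.2.2] :
    (univ.filter fun k : T × Y × X => p k.1 k.2.1 k.2.2).card =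
      ∑ t : T, ∑ y : Y, (univ.filter fun x => p t y x).card := by
  rw [card_filter, Fintype.sum_prod_type]
  refine sum_congr rfl fun t _ => ?_
  rw [Fintype.sum_prod_type]
  refine sum_congr rfl fun y _ => ?_
  rw [card_filter]
  refine sum_congr rfl fun x _ => ?_
  by_cases hp : p t y x
  · rw [if_pos hp, if_pos hp]
  · rw [if_neg hp, if_neg hp]

/-- the pigeonhole formulas before `t` and nothing afterwards: unsatisfiable -/
lemma unsat_prefix {n m σ b a R : ℕ} (h : σ + (2 ^ a + 1) * b ≤ n)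
    {e : (Fin σ → Bool) × Row (2 ^ a + 1) b → Fin m} (en : (Fin σ → Bool) ≃ Fin R)
    (y : Fin R → Fin (2 ^ a + 1) → (Fin b → Bool) → Fin a → Bool) (t : ℕ) :
    ¬ Satisfiable (form2 h e (stAll en y t fun _ => 0)) := by
  refine form2_unsat h fun τ X => ?_
  by_cases h1 : (en τ).1 < t
  · -- pigeonhole
    obtain ⟨i, j, hij, hv⟩ : ∃ i j : Fin (2 ^ a + 1), i ≠ j ∧
        y (en τ) i (X i) = y (en τ) j (X j) := by
      have hcard : Fintype.card (Fin a → Bool) < Fintype.card (Fin (2 ^ a + 1)) := by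
        rw [Fintype.card_fun, Fintype.card_fin, Fintype.card_fin, Fintype.card_bool]
        omega
      exact Fintype.exists_ne_map_eq_of_card_lt (fun i => y (en τ) i (X i)) hcard
    refine ⟨((i, j), (X i, X j)), ?_, ?_⟩
    · unfold stAll
      rw [if_pos h1]
      rcases stU_cases (y (en τ)) ((i, j), (X i, X j)) with ⟨_, h2⟩ | ⟨h2, _⟩
      · rw [h2]
        decide
      · exact absurd ⟨hij, hv⟩ h2
    · exact fun _ => ⟨rfl, rfl⟩
  · refine ⟨((0, 0), (X 0, X 0)), ?_, ?_⟩
    · unfold stAll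
      rw [if_neg h1]
      split_ifs
      · exact (by decide : (0 : Fin 3) ≠ 2)
      · decide
    · unfold stAll
      rw [if_neg h1]
      split_ifs
      · exact fun h2 => absurd (show (0 : Fin 3) = 1 from h2) (by decide)
      · exact fun h2 => absurd h2 (by decide)

/-- the planted formula is satisfied -/
lemma sat_planted {n m σ b a R : ℕ} (h : σ + (2 ^ a + 1) * b ≤ n) (hn : 0 < n)
    {e : (Fin σ → Bool) × Row (2 ^ a + 1) b → Fin m} (he : Function.Injective e)
    (en : (Fin σ → Bool) ≃ Fin R)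
    (y : Fin R → Fin (2 ^ a + 1) → (Fin b → Bool) → Fin a → Bool) (t : Fin R)
    (X : Fin (2 ^ a + 1) → Fin b → Bool) :
    Satisfiable (form2 h e (stAll en y t.1 (stP X))) := by
  -- an assignment with selector `en⁻¹ t` and blocks `X`
  obtain ⟨x, hx1, hx2⟩ : ∃ x : Fin n → Bool, sel h x = en.symm t ∧ blk2 h x = X := by
    have hinj : Function.Injective (Sum.elim (sidx h) fun p : Fin (2 ^ a + 1) × Fin b =>
        bidx h p.1 p.2) := by
      rintro (c | ⟨i, u⟩) (c' | ⟨i', u'⟩) hcc
      · simp only [Sum.elim_inl, sidx, Fin.mk.injEq] at hcc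
        rw [Fin.ext hcc]
      · simp only [Sum.elim_inl, Sum.elim_inr, sidx, bidx, Fin.mk.injEq] at hcc
        have := c.2
        omega
      · simp only [Sum.elim_inl, Sum.elim_inr, sidx, bidx, Fin.mk.injEq] at hcc
        have := c'.2
        omega
      · simp only [Sum.elim_inr, bidx, Fin.mk.injEq, Nat.add_left_cancel_iff] at hcc
        have hb : 0 < b := lt_of_le_of_lt (Nat.zero_le _) u.2
        have h1 : (i.1 * b + u.1) / b = i.1 := by
          rw [mul_comm, Nat.mul_add_div hb, Nat.div_eq_of_lt u.2, add_zero]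
        have h2 : (i'.1 * b + u'.1) / b = i'.1 := by
          rw [mul_comm, Nat.mul_add_div hb, Nat.div_eq_of_lt u'.2, add_zero]
        have h3 : i = i' := Fin.ext (by rw [← h1, ← h2, hcc])
        have h4 : u = u' := by
          apply Fin.ext
          rw [h3] at hcc
          omega
        rw [h3, h4]
    refine ⟨Function.extend (Sum.elim (sidx h) fun p : Fin (2 ^ a + 1) × Fin b => bidx h p.1 p.2)
      (Sum.elim (en.symm t) fun p => X p.1 p.2) fun _ => false, ?_, ?_⟩
    · funext c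
      exact hinj.extend_apply _ _ (Sum.inl c)
    · funext i u
      exact hinj.extend_apply _ _ (Sum.inr (i, u))
  refine ⟨x, form2_sat h hn he fun r => ?_⟩
  rw [hx1, hx2]
  have h1 : stAll en y t.1 (stP X) (en.symm t) r = stP X r := by
    unfold stAll
    rw [Equiv.apply_symm_apply, if_neg (lt_irrefl _), if_pos rfl]
  rw [h1]
  rcases stP_cases X r with ⟨_, h2⟩ | ⟨h2, h3⟩
  · exact Or.inl h2
  · exact Or.inr ⟨h3, h2⟩

end Pool.Agent.H1.Mono
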