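import Pool.Agent.H1.Mono.Enc
import Pool.Agent.H21.SR.ResolutionSETH

/-!
# Choice of the parameters
-/

open Finset Pool.Agent.H73.Xor

namespace Pool.Agent.H1.Mono

lemma sq_le_pow (l : ℕ) : (l + 1) ^ 2 ≤ 4 * 2 ^ l := by
  induction l with
  | zero => norm_num
  | succ l ih =>
    rcases Nat.lt_or_ge l 2 with h | h
    · interval_cases l <;> norm_num
    · rw [pow_succ 2 l]
      nlinarith

/-- `K * b ≤ n` for `b = B * (log n + 1)` and large `n` -/
lemma large (K B : ℕ) {n : ℕ} (hn : 2 ^ (4 * (K * B)) ≤ n) : K * (B * (Nat.log 2 n + 1)) ≤ n := by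
  have hn0 : n ≠ 0 := by
    have : 0 < 2 ^ (4 * (K * B)) := by positivity
    omega
  have h1 : 4 * (K * B) ≤ Nat.log 2 n := Nat.le_log_of_pow_le (by norm_num) hn
  have h2 := Nat.pow_log_le_self 2 hn0
  have h3 := sq_le_pow (Nat.log 2 n)
  set l := Nat.log 2 n
  have h4 : 4 * (K * B) * (l + 1) ≤ (l + 1) ^ 2 := by
    rw [pow_two]
    exact Nat.mul_le_mul_right _ (by omega)
  have h5 : K * (B * (l + 1)) = K * B * (l + 1) := by ring
  rw [h5]
  have h6 : 4 * (K * B) * (l + 1) = 4 * (K * B * (l + 1)) := by ring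
  omega

open Pool.Agent.Results.MP_c62aed_lc.ResolutionSETH in
lemma exists_k {e : ℝ} (he : 0 < e) : ∃ k : ℕ, 2 ≤ k ∧ eps k ≤ e := by
  have h1 : Filter.Tendsto (fun x : ℝ => Real.log x ^ 4 / x) Filter.atTop (nhds 0) :=
    (Real.isLittleO_pow_log_id_atTop (n := 4)).tendsto_div_nhds_zero
  have h2 : Filter.Tendsto (fun k : ℕ => 150 / Real.log 2 ^ 4 * (Real.log (k : ℝ) ^ 4 / k))
      Filter.atTop (nhds (150 / Real.log 2 ^ 4 * 0)) :=
    (h1.comp tendsto_natCast_atTop_atTop).const_mul _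
  rw [mul_zero] at h2
  have h3 := h2.eventually (gt_mem_nhds he)
  obtain ⟨k, hk⟩ := (h3.and (Filter.eventually_ge_atTop 2)).exists
  refine ⟨k, hk.2, le_of_eq_of_le ?_ hk.1.le⟩
  unfold eps Real.logb
  have : Real.log 2 ≠ 0 := (Real.log_pos (by norm_num)).ne'
  field_simp

/-- the lower bound for planted formulas -/
theorem planted (hDAG : DAG_target) (hAD : AD_target) : ∀ ε : ℝ, 0 < ε → ε ≤ 1 → ∃ c n₀ : ℕ,
    ∀ n, n₀ ≤ n → ∀ m, n ^ c ≤ m →
    ∃ P : (Fin n → Bool) → Formula n m, (∀ x, Sat x (P x)) ∧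
      (∀ x, Narrow (c * Nat.log 2 n) (P x)) ∧
      ∀ (s : ℕ) (C : MonCircuit (Fin m × (Fin n × Bool)) s),
        (∀ A : Formula n m, Narrow (c * Nat.log 2 n) A → ¬ Satisfiable A → ¬ C.Accepts A) →
        ∀ S : Finset (Fin n → Bool), (∀ x ∈ S, C.Accepts (P x)) →
          (S.card : ℝ) ≤ s * (2 : ℝ) ^ (ε * n) := by
  intro ε hε hε1
  obtain ⟨k, hk2, hek⟩ := exists_k (show 0 < ε / 4 by positivity)
  obtain ⟨n1, hres⟩ := Pool.Agent.Results.MP_c62aed_lc.ResolutionSETH.result k hk2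
  set e := Pool.Agent.Results.MP_c62aed_lc.ResolutionSETH.eps k with he
  have he0 : 0 ≤ e := Pool.Agent.Results.MP_c62aed_lc.ResolutionSETH.eps_nonneg k
  obtain ⟨B, hB⟩ := exists_nat_ge (16 / ε)
  obtain ⟨K0, hK0⟩ := exists_nat_ge (2 / ε)
  have hBε : 4 ≤ ε / 4 * B := by
    rw [div_le_iff₀ hε] at hB
    linarith
  have hB0 : 0 < B := by
    by_contra h0
    have : B = 0 := by omega
    rw [this] at hBε
    norm_num at hBε
  set K := n1 + K0 + 4 * k + 4 with hK
  refine ⟨(1 + 2 * B) * k, 2 ^ (4 * (K * B)) + 2 ^ 8, fun n hn m hm => ?_⟩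
  have hlarge := large K B (n := n) (by omega)
  have hn8 : 2 ^ 8 ≤ n := by
    have : 0 < 2 ^ (4 * (K * B)) := by positivity
    omega
  set l := Nat.log 2 n with hl
  have hl8 : 8 ≤ l := Nat.le_log_of_pow_le (by norm_num) hn8
  set b := B * (l + 1) with hb
  have hb0 : 0 < b := by positivity
  set ν := n / b with hν
  have hKν : K ≤ ν := by
    rw [hν, Nat.le_div_iff_mul_le hb0]
    exact hlarge
  have hνb : ν * b ≤ n := Nat.div_mul_le_self n b
  have hνb' : n < ν * b + b := Nat.lt_div_mul_add hb0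
  have hν0 : 0 < ν := by omega
  obtain ⟨F, hFk, hFu, hFw⟩ := hres ν (by omega)
  have hνR : (0 : ℝ) < ν := by exact_mod_cast hν0
  have hnR : (0 : ℝ) < n := by
    have : 0 < n := by omega
    exact_mod_cast this
  have hbR : (0 : ℝ) < b := by exact_mod_cast hb0
  have he4 : e ≤ 1 / 4 := by linarith
  -- the width
  set w := ⌈(1 - e) * ν⌉₊ with hw
  have hwge : (1 - e) * ν ≤ w := Nat.le_ceil _
  have hkν : (4 * k + 4 : ℝ) ≤ ν := by
    have : 4 * k + 4 ≤ ν := by omega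
    exact_mod_cast this
  have hkw : k + 1 < w := by
    have h1 : ((k + 1 : ℕ) : ℝ) < w := by
      push_cast
      nlinarith
    exact_mod_cast h1
  obtain ⟨d, hd⟩ : ∃ d, d + 1 = w := ⟨w - 1, by omega⟩
  have hkd : k ≤ d := by omega
  have hFd : IsKCNF d F := fun C hC => (hFk C hC).trans hkd
  obtain ⟨H, hH⟩ := hAD hFd fun N π => by
    obtain ⟨t, ht⟩ := (hFw N π).1
    refine ⟨t, ?_⟩
    have h1 : w ≤ (π.cl t).card := Nat.ceil_le.2 ht
    omega
  -- the rate
  set lam : ℝ := (2 : ℝ) ^ (-(ε / 4 * b)) with hlam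
  set T : ℝ := (2 : ℝ) ^ ((b : ℝ) * (ν - (1 - ε / 4) * (d + 1))) with hT
  have hlam0 : 0 < lam := Real.rpow_pos_of_pos (by norm_num) _
  have hlam1 : lam < 1 := by
    rw [hlam]
    exact Real.rpow_lt_one_of_one_lt_of_neg (by norm_num) (by
      have : 0 < ε / 4 * b := by positivity
      linarith)
  have hT0 : 0 ≤ T := (Real.rpow_pos_of_pos (by norm_num) _).le
  have hnν : ν ≤ n := Nat.div_le_self n b
  set Δ := 2 * (ν * b) + 3 * ν + 1 with hΔ
  have hΔn : Δ ≤ 6 * n := by omega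
  have hl2 : n < 2 ^ (l + 1) := Nat.lt_pow_succ_log_self (by norm_num) n
  have hlow : 2 ^ l ≤ n := Nat.pow_log_le_self 2 (by omega)
  have hm' : (ν * 2 ^ b) ^ k ≤ m := by
    refine le_trans ?_ hm
    rw [pow_mul n (1 + 2 * B) k]
    refine Nat.pow_le_pow_left ?_ k
    rw [pow_add, pow_one]
    refine Nat.mul_le_mul hnν ?_
    rw [hb, mul_comm B, pow_mul, pow_mul]
    refine Nat.pow_le_pow_left ?_ B
    rw [pow_succ, pow_two]
    refine Nat.mul_le_mul hlow (by omega)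
  obtain ⟨P, hP1, hP2, hP3⟩ := core hDAG (n := n) (m := m) (ν := ν) (b := b) (k := k) (d := d)
    (Δ := Δ) (F := F) (H := H) (lam := lam) (T := T) hν0 hνb hνb' hm' hFk hFu hH hkd hlam0 hlam1
    hT0 (by omega)
    (by
      intro j hj hjν
      rw [hT, hlam, ← Real.rpow_natCast, ← Real.rpow_natCast, Nat.cast_pow,
        ← Real.rpow_natCast, ← Real.rpow_mul (by norm_num), ← Real.rpow_mul (by norm_num),
        ← Real.rpow_add (by norm_num), Nat.cast_sub hjν, Nat.cast_ofNat]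
      refine Real.rpow_le_rpow_of_exponent_le (by norm_num) ?_
      have h1 : ((d + 1 : ℕ) : ℝ) ≤ j := by exact_mod_cast hj
      push_cast at h1
      have h2 : (1 - ε / 4) * ((d : ℝ) + 1) ≤ (1 - ε / 4) * j :=
        mul_le_mul_of_nonneg_left h1 (by linarith)
      have h3 := mul_le_mul_of_nonneg_left h2 hbR.le
      nlinarith)
    (by
      have h1 : (Δ : ℝ) ≤ 6 * n := by exact_mod_cast hΔn
      have h2 : (ν : ℝ) ≤ n := by exact_mod_cast hnν
      have h3 : (n : ℝ) ≤ (2 : ℝ) ^ (l + 1) := by exact_mod_cast hl2.le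
      have h4 : (2 : ℝ) ^ (4 * (l + 1)) ≤ (2 : ℝ) ^ (ε / 4 * b) := by
        rw [← Real.rpow_natCast]
        refine Real.rpow_le_rpow_of_exponent_le (by norm_num) ?_
        rw [hb]
        push_cast
        nlinarith
      have h5 : 32 * (Δ : ℝ) * (ν : ℝ) ^ 2 ≤ (2 : ℝ) ^ (4 * (l + 1)) := by
        calc 32 * (Δ : ℝ) * (ν : ℝ) ^ 2 ≤ 32 * (6 * n) * (n : ℝ) ^ 2 := by gcongr
          _ = 192 * (n : ℝ) ^ 3 := by ring
          _ ≤ 2 ^ (l + 1) * ((2 : ℝ) ^ (l + 1)) ^ 3 := by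
              have h6 : (192 : ℝ) ≤ 2 ^ (l + 1) := by
                calc (192 : ℝ) ≤ 2 ^ 8 := by norm_num
                  _ ≤ 2 ^ (l + 1) := pow_le_pow_right₀ (by norm_num) (by omega)
              gcongr
          _ = (2 : ℝ) ^ (4 * (l + 1)) := by ring
      rw [hlam, Real.rpow_neg (by norm_num), ← div_eq_mul_inv,
        div_le_one (Real.rpow_pos_of_pos (by norm_num) _)]
      exact h5.trans h4)
  have hkb : k * b ≤ (1 + 2 * B) * k * l := by
    rw [hb]
    have h1 : l + 1 ≤ 2 * l := by omega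
    calc k * (B * (l + 1)) ≤ k * (B * (2 * l)) := by gcongr
      _ ≤ (1 + 2 * B) * k * l := by
          have : (1 + 2 * B) * k * l = k * l + k * (B * (2 * l)) := by ring
          omega
  have hbn : (b : ℝ) ≤ ε / 2 * n := by
    have h1 : ((K * b : ℕ) : ℝ) ≤ n := by exact_mod_cast hlarge
    have h2 : (K0 : ℝ) ≤ K := by
      have : K0 ≤ K := by omega
      exact_mod_cast this
    rw [div_le_iff₀ hε] at hK0
    push_cast at h1
    have h3 : (2 : ℝ) * b ≤ K0 * ε * b := mul_le_mul_of_nonneg_right hK0 hbR.le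
    have h4 : (K0 : ℝ) * b ≤ K * b := mul_le_mul_of_nonneg_right h2 hbR.le
    have h5 : (K0 : ℝ) * b * ε ≤ n * ε := mul_le_mul_of_nonneg_right (h4.trans h1) hε.le
    nlinarith
  have hnar : ∀ A : Formula n m, Narrow (k * b) A → Narrow ((1 + 2 * B) * k * l) A := by
    intro A hA j
    rcases hA j with h | h
    · exact Or.inl h
    · exact Or.inr (h.trans hkb)
  refine ⟨P, hP1, fun x => hnar _ (hP2 x), fun s C hC S hS => ?_⟩
  rcases Nat.lt_or_ge (2 ^ (ν * b)) s with hs | hs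
  · -- many gates
    have h1 : S.card ≤ 2 ^ n := by
      have := card_le_univ S
      rwa [Fintype.card_fun, Fintype.card_fin, Fintype.card_bool] at this
    have h2 : ((2 ^ (ν * b) : ℕ) : ℝ) ≤ s := by exact_mod_cast hs.le
    calc (S.card : ℝ) ≤ ((2 ^ n : ℕ) : ℝ) := by exact_mod_cast h1
      _ = (2 : ℝ) ^ (n : ℝ) := by
          rw [Real.rpow_natCast]
          push_cast
          rfl
      _ ≤ (2 : ℝ) ^ (((ν * b : ℕ) : ℝ) + ε * n) := by
          refine Real.rpow_le_rpow_of_exponent_le (by norm_num) ?_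
          have h3 : (n : ℝ) ≤ ((ν * b + b : ℕ) : ℝ) := by exact_mod_cast hνb'.le
          push_cast at h3 ⊢
          nlinarith
      _ = ((2 ^ (ν * b) : ℕ) : ℝ) * (2 : ℝ) ^ (ε * n) := by
          rw [Real.rpow_add (by norm_num), Real.rpow_natCast]
          push_cast
          rfl
      _ ≤ s * (2 : ℝ) ^ (ε * n) := by gcongr
  · have h1 := hP3 s C (by
      calc s * (8 * 2 ^ b) ^ ν ≤ 2 ^ (ν * b) * (8 * 2 ^ b) ^ ν := by gcongr
        _ = 2 ^ (2 * (ν * b) + 3 * ν) := by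
            rw [mul_pow, show (8 : ℕ) = 2 ^ 3 by norm_num, ← pow_mul, ← pow_mul, ← pow_add,
              ← pow_add]
            congr 1
            ring
        _ < 2 ^ Δ := Nat.pow_lt_pow_right (by norm_num) (by omega)) (fun A hA => hC A (hnar A hA))
      S hS
    refine h1.trans ?_
    rw [mul_assoc]
    refine mul_le_mul_of_nonneg_left ?_ (Nat.cast_nonneg _)
    rw [hT, ← Real.rpow_natCast 2 b, ← Real.rpow_add (by norm_num)]
    refine Real.rpow_le_rpow_of_exponent_le (by norm_num) ?_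
    have h2 : (1 - e) * ν ≤ (d : ℝ) + 1 := by
      have h3 : (w : ℝ) = d + 1 := by
        rw [← hd]
        push_cast
        rfl
      rw [← h3]
      exact hwge
    have h3 : (b : ℝ) * ν ≤ n := by
      have : ((ν * b : ℕ) : ℝ) ≤ n := by exact_mod_cast hνb
      push_cast at this
      linarith
    have h4 : (1 - ε / 4) * ((1 - e) * ν) ≤ (1 - ε / 4) * ((d : ℝ) + 1) :=
      mul_le_mul_of_nonneg_left h2 (by linarith)
    have h5 : ν - (1 - ε / 4) * ((d : ℝ) + 1) ≤ ε / 2 * ν := by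
      nlinarith [mul_nonneg (mul_nonneg hε.le he0) hνR.le, mul_le_mul_of_nonneg_right hek hνR.le]
    have h6 : (b : ℝ) * (ν - (1 - ε / 4) * ((d : ℝ) + 1)) ≤ b * (ε / 2 * ν) :=
      mul_le_mul_of_nonneg_left h5 hbR.le
    have h7 : (b : ℝ) * (ε / 2 * ν) ≤ ε / 2 * n := by nlinarith
    linarith

end Pool.Agent.H1.Mono
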