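import Pool.Agent.H1.Mono.Defs

/-!
# Targets (statements as propositions) of the modules KH, MOM, LVL, FR, PART, AD, DAG
-/

open Finset Pool.Agent.H73.Xor

namespace Pool.Agent.H1.Mono

/-- module KH: Khinchine inequality for even moments -/
def KH_target : Prop := ∀ {Q : Type} [Fintype Q] [DecidableEq Q] (a : Q → ℝ) (r : ℕ),
  ∑ y : Q → Bool, (∑ q, a q * sgn (y q)) ^ (2 * r) ≤
    2 ^ Fintype.card Q * (2 * r : ℝ) ^ r * (∑ q, a q ^ 2) ^ r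

/-- module MOM: even moments of decoupled chaos -/
def MOM_target : Prop := ∀ {Q ι : Type} [Fintype Q] [DecidableEq Q] [Fintype ι] [DecidableEq ι]
    (c : (ι → Q) → ℝ) (r : ℕ),
  ∑ y : ι → Q → Bool, (∑ β : ι → Q, c β * ∏ i, sgn (y i (β i))) ^ (2 * r) ≤
    2 ^ (Fintype.card ι * Fintype.card Q) * (2 * r : ℝ) ^ (r * Fintype.card ι) *
      (∑ β : ι → Q, c β ^ 2) ^ r

/-- module LVL: level inequality -/
def LVL_target : Prop := ∀ {V Q : Type} [Fintype V] [DecidableEq V] [Fintype Q] [DecidableEq Q]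
    (Y : Finset (V → Q → Bool)) (K : Finset V) (Δ : ℕ), 0 < Δ →
    2 ^ (Fintype.card V * Fintype.card Q) ≤ Y.card * 2 ^ Δ →
  ∑ β : {i // i ∈ K} → Q, (∑ y ∈ Y, ∏ i : {i // i ∈ K}, sgn (y i.1 (β i))) ^ 2 ≤
    2 * (2 * Δ : ℝ) ^ K.card * (Y.card : ℝ) ^ 2

/-- module FR: full range -/
def FR_target : Prop := ∀ {V Q : Type} [Fintype V] [DecidableEq V] [Fintype Q] [DecidableEq Q]
    (X : Finset (V → Q)) (I : Finset V) (lam : ℝ) (Y : Finset (V → Q → Bool)) (Δ : ℕ),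
    X.Nonempty → 0 ≤ lam → Dense lam I X → 0 < Δ →
    2 ^ (Fintype.card V * Fintype.card Q) ≤ Y.card * 2 ^ Δ →
    32 * Δ * (Fintype.card V : ℝ) ^ 2 * lam ≤ 1 →
  ∃ x ∈ X, ∀ z : V → Bool, ∃ y ∈ Y, ∀ i, i ∉ I → y i (x i) = z i

/-- module PART: density-restoring partition with an error set -/
def PART_target : Prop := ∀ {V Q : Type} [Fintype V] [DecidableEq V] [Fintype Q] [DecidableEq Q]
    (lam T : ℝ) (d : ℕ), 0 < lam → 0 ≤ T →
    (∀ j : ℕ, d < j → j ≤ Fintype.card V →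
      (Fintype.card Q : ℝ) ^ (Fintype.card V - j) ≤ T * lam ^ j) →
    ∀ X : Finset (V → Q),
  ∃ E ⊆ X, (E.card : ℝ) ≤ T ∧ ∀ x ∈ X, x ∉ E → ∃ X' ⊆ X, ∃ I : Finset V,
    x ∈ X' ∧ I.card ≤ d ∧ (∀ x' ∈ X', ∀ i ∈ I, x' i = x i) ∧ Dense lam I X'

/-- module AD: Duplicator survives when the resolution width is large -/
def AD_target : Prop := ∀ {ν : ℕ} {F : CNF ν} {d : ℕ}, IsKCNF d F →
    (∀ (N : ℕ) (π : Refutation F N), ∃ t, d < (π.cl t).card) → ∃ H, Dup F d H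

/-- module DAG: the dag-like lifting theorem for monotone circuits -/
def DAG_target : Prop := ∀ {ν k s d Δ : ℕ} {Q ι : Type} [Fintype Q] [DecidableEq Q] {F : CNF ν}
    {H : Finset (Fin ν) → (Fin ν → Bool) → Prop} {lam T : ℝ},
    Dup F d H → k ≤ d → 0 < lam → lam < 1 → 0 ≤ T → 0 < Δ →
    (∀ j : ℕ, d < j → j ≤ ν → (Fintype.card Q : ℝ) ^ (ν - j) ≤ T * lam ^ j) →
    32 * Δ * (ν : ℝ) ^ 2 * lam ≤ 1 →
    s * (8 * Fintype.card Q) ^ ν < 2 ^ Δ →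
    ∀ (C : MonCircuit ι s) (A : (Fin ν → Q) → ι → Bool) (B : (Fin ν → Q → Bool) → ι → Bool),
    (∀ i : ι, (∀ y, B y i = true) ∨ ∃ r : Fin k → Fin ν × Q,
      (∀ x, A x i = true → ∀ j, x (r j).1 = (r j).2) ∧
      (∀ y, B y i = false → ∃ D ∈ F, ∀ l ∈ D, ∃ j, l.1 = (r j).1 ∧ y (r j).1 (r j).2 = !l.2)) →
    (∀ y, ¬ C.Accepts (B y)) →
    ∀ S : Finset (Fin ν → Q), (∀ x ∈ S, C.Accepts (A x)) → (S.card : ℝ) ≤ s * T

end Pool.Agent.H1.Mono
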