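import Pool.Agent.H1.Mono.Par2
import Pool.Agent.H92.Mono.Mom
import Pool.Agent.H13.Mono.KH
import Pool.Agent.H75.Mono.PART
import Pool.Agent.H26.Mono.Neg
import Pool.Agent.H26.Mono.Avg
import Pool.Agent.H26.Mono.Inj
import Pool.Agent.H97.Mono.Lvl2
import Pool.Agent.H97.Mono.Fr2

/-!
# The theorems without hypotheses
-/

open Finset

namespace Pool.Agent.H1.Mono

/-- the trade-off, average case form -/
theorem tradeoff_avg {n m L r : ℕ} (hn : 2 ≤ n) (hL : L ^ 2 ≤ n) (hr : r < L) (hm : 2 ^ L ≤ m) :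
    ∃ (κ : Type) (_ : Fintype κ) (_ : Nonempty κ) (P U : κ → Formula n m),
      (∀ k, Satisfiable (P k)) ∧ (∀ k, ¬ Satisfiable (U k)) ∧
      (∀ k, Narrow L (P k)) ∧ (∀ k, Narrow L (U k)) ∧
      ∀ (s q : ℕ) (C : Circuit (Fin m × (Fin n × Bool)) s), C.negs + q ≤ r →
        (Fintype.card κ : ℝ) / (n * 2 ^ q) ≤
          (Nat.card {k // C.Accepts (P k)} : ℝ) - Nat.card {k // C.Accepts (U k)} →
        (2 : ℝ) ^ (n * (1 - 64 * Real.logb 2 n / (L - r))) ≤ s := by
  classical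
  obtain ⟨κ, hκ, hκne, P, U, hP1, hU1, hP2, hU2, hmain⟩ :=
    tradeoff (Pool.Agent.H97.Mono.fr2 (Pool.Agent.H97.Mono.lvl2 (Pool.Agent.H92.Mono.mom KH)))
      Pool.Agent.H75.Mono.part Pool.Agent.H26.Mono.neg Pool.Agent.H26.Mono.avg
      Pool.Agent.H26.Mono.inj hn hL hr hm
  refine ⟨κ, hκ, hκne, P, U, hP1, hU1, hP2, hU2, fun s q C hC hadv => ?_⟩
  refine hmain s q C hC
    ⟨univ.filter fun k => ¬ C.Accepts (U k) ∧ C.Accepts (P k), fun k hk => (mem_filter.1 hk).2, ?_⟩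
  have h1 : Nat.card {k // C.Accepts (P k)} = (univ.filter fun k => C.Accepts (P k)).card := by
    rw [Nat.card_eq_fintype_card, Fintype.card_subtype]
  have h2 : Nat.card {k // C.Accepts (U k)} = (univ.filter fun k => C.Accepts (U k)).card := by
    rw [Nat.card_eq_fintype_card, Fintype.card_subtype]
  have h3 : (univ.filter fun k => C.Accepts (P k)).card ≤
      (univ.filter fun k => C.Accepts (U k)).card +
        (univ.filter fun k => ¬ C.Accepts (U k) ∧ C.Accepts (P k)).card := by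
    refine (card_le_card fun k hk => ?_).trans (card_union_le _ _)
    rw [mem_union, mem_filter, mem_filter]
    have h4 := (mem_filter.1 hk).2
    by_cases h5 : C.Accepts (U k)
    · exact Or.inl ⟨mem_univ _, h5⟩
    · exact Or.inr ⟨mem_univ _, h5, h4⟩
  have h4 : ((univ.filter fun k => C.Accepts (P k)).card : ℝ) ≤
      (univ.filter fun k => C.Accepts (U k)).card +
        (univ.filter fun k => ¬ C.Accepts (U k) ∧ C.Accepts (P k)).card := by exact_mod_cast h3
  have hn0 : (0 : ℝ) < n := by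
    have : 0 < n := by omega
    exact_mod_cast this
  rw [h1, h2, div_le_iff₀ (by positivity)] at hadv
  have h5 : (Fintype.card κ : ℝ) ≤
      n * 2 ^ q * (univ.filter fun k => ¬ C.Accepts (U k) ∧ C.Accepts (P k)).card := by
    refine hadv.trans ?_
    rw [mul_comm]
    refine mul_le_mul_of_nonneg_left ?_ (by positivity)
    linarith
  exact_mod_cast h5

/-- the trade-off, worst case form -/
theorem tradeoff_worst {n m L r : ℕ} (hn : 2 ≤ n) (hL : L ^ 2 ≤ n) (hr : r < L) (hm : 2 ^ L ≤ m)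
    {s : ℕ} (C : Circuit (Fin m × (Fin n × Bool)) s) (hC : C.negs ≤ r)
    (h : ∀ A : Formula n m, C.Accepts A ↔ Satisfiable A) :
    (2 : ℝ) ^ (n * (1 - 64 * Real.logb 2 n / (L - r))) ≤ s := by
  obtain ⟨κ, hκ, _, P, U, hP, hU, -, -, hmain⟩ := tradeoff_avg hn hL hr hm
  refine hmain s 0 C (by rwa [add_zero]) ?_
  have h1 : Nat.card {k // C.Accepts (P k)} = Fintype.card κ := by
    rw [← Nat.card_eq_fintype_card]
    refine Nat.card_congr (Equiv.subtypeUnivEquiv fun k => (h (P k)).2 (hP k))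
  have h2 : Nat.card {k // C.Accepts (U k)} = 0 := by
    rw [Nat.card_eq_zero]
    left
    exact ⟨fun k => hU k.1 ((h _).1 k.2)⟩
  rw [h1, h2, Nat.cast_zero, sub_zero, pow_zero, mul_one]
  refine div_le_self (Nat.cast_nonneg _) ?_
  have : 1 ≤ n := by omega
  exact_mod_cast this

lemma growth (c : ℕ) : ∃ n₀ : ℕ, ∀ n : ℕ, n₀ ≤ n →
    c * Real.logb 2 n + 1 ≤ Real.sqrt n := by
  have h1 : Filter.Tendsto (fun x : ℝ => Real.log x / x ^ ((1 : ℝ) / 2)) Filter.atTop (nhds 0) :=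
    (isLittleO_log_rpow_atTop (by norm_num : (0 : ℝ) < 1 / 2)).tendsto_div_nhds_zero
  have h2 : Filter.Tendsto (fun x : ℝ => 1 / x ^ ((1 : ℝ) / 2)) Filter.atTop (nhds 0) := by
    have h0 : Filter.Tendsto (fun x : ℝ => (x ^ ((1 : ℝ) / 2))⁻¹) Filter.atTop (nhds 0) :=
      (tendsto_rpow_atTop (by norm_num : (0 : ℝ) < 1 / 2)).inv_tendsto_atTop
    simpa only [one_div] using h0
  have h3 : Filter.Tendsto (fun x : ℝ => (c / Real.log 2) * (Real.log x / x ^ ((1 : ℝ) / 2)) +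
      1 / x ^ ((1 : ℝ) / 2)) Filter.atTop (nhds ((c / Real.log 2) * 0 + 0)) :=
    (h1.const_mul _).add h2
  rw [mul_zero, add_zero] at h3
  have h4 := (h3.comp tendsto_natCast_atTop_atTop).eventually (gt_mem_nhds (zero_lt_one))
  obtain ⟨n₀, hn₀⟩ := Filter.eventually_atTop.1 (h4.and (Filter.eventually_ge_atTop 1))
  refine ⟨n₀, fun n hn => ?_⟩
  obtain ⟨h5, h6⟩ := hn₀ n hn
  have hnpos : (0 : ℝ) < n := by exact_mod_cast h6
  have hsq : (0 : ℝ) < (n : ℝ) ^ ((1 : ℝ) / 2) := Real.rpow_pos_of_pos hnpos _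
  rw [Real.sqrt_eq_rpow]
  simp only [Function.comp] at h5
  have h7 : (c / Real.log 2) * (Real.log n / (n : ℝ) ^ ((1 : ℝ) / 2)) + 1 / (n : ℝ) ^ ((1 : ℝ) / 2) =
      (c * Real.logb 2 n + 1) / (n : ℝ) ^ ((1 : ℝ) / 2) := by
    unfold Real.logb
    ring
  rw [h7, div_lt_one hsq] at h5
  exact h5.le

/-- the headline -/
theorem headline (ε : ℝ) (hε : 0 < ε) : ∃ c n₀ : ℕ, ∀ n, n₀ ≤ n → ∀ m, n ^ c ≤ m →
    ∀ (s : ℕ) (C : Circuit (Fin m × (Fin n × Bool)) s),
      (C.negs : ℝ) ≤ (1 - ε) * min (Real.logb 2 (2 * m * n)) (Real.sqrt n) →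
      (∀ A : Formula n m, C.Accepts A ↔ Satisfiable A) →
      (2 : ℝ) ^ ((1 - ε) * n) ≤ s := by
  obtain ⟨c, hc⟩ := exists_nat_ge ((64 / ε + 4) / ε)
  obtain ⟨n₀, hn₀⟩ := growth c
  refine ⟨c, n₀ + 2, fun n hn m hm s C hneg hC => ?_⟩
  have hs1 : (1 : ℝ) ≤ s := by
    have := C.out.2
    have h1 : 1 ≤ s := by omega
    exact_mod_cast h1
  have hn2 : 2 ≤ n := by omega
  have hnR : (2 : ℝ) ≤ n := by exact_mod_cast hn2
  rcases le_or_gt 1 ε with hε1 | hε1
  · refine le_trans (Real.rpow_le_one_of_one_le_of_nonpos (by norm_num) ?_) hs1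
    exact mul_nonpos_of_nonpos_of_nonneg (by linarith) (by linarith)
  have hgrow := hn₀ n (by omega)
  set x := Real.logb 2 n with hx
  have hx1 : 1 ≤ x := by
    rw [hx, Real.le_logb_iff_rpow_le (by norm_num) (by linarith), Real.rpow_one]
    exact hnR
  have hmpos : 0 < m := lt_of_lt_of_le (by positivity) hm
  have hmR : (0 : ℝ) < m := by exact_mod_cast hmpos
  have hlogm : (c : ℝ) * x ≤ Real.logb 2 m := by
    rw [hx, ← Real.logb_rpow_eq_mul_logb_of_pos (by linarith), Real.rpow_natCast]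
    refine (Real.logb_le_logb (by norm_num) (by positivity) hmR).2 ?_
    exact_mod_cast hm
  obtain ⟨L, hL⟩ : ∃ L, L = min (Nat.log 2 m) (Nat.sqrt n) := ⟨_, rfl⟩
  have hL1 : 2 ^ L ≤ m := by
    refine le_trans (Nat.pow_le_pow_right (by norm_num) ?_) (Nat.pow_log_le_self 2 hmpos.ne')
    rw [hL]
    exact min_le_left _ _
  have hL2 : L ^ 2 ≤ n := by
    have h1 : L ≤ Nat.sqrt n := by
      rw [hL]
      exact min_le_right _ _
    exact (Nat.pow_le_pow_left h1 2).trans (Nat.sqrt_le' n)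
  have h1 : Real.logb 2 m < Nat.log 2 m + 1 := by
    rw [Real.logb_lt_iff_lt_rpow (by norm_num) hmR]
    have h2 : m < 2 ^ (Nat.log 2 m + 1) := Nat.lt_pow_succ_log_self (by norm_num) m
    have h3 : (m : ℝ) < 2 ^ (Nat.log 2 m + 1) := by exact_mod_cast h2
    rw [← Real.rpow_natCast] at h3
    push_cast at h3
    exact h3
  have h2 : Real.sqrt n < Nat.sqrt n + 1 := by
    rw [Real.sqrt_lt' (by positivity)]
    have h3 : n < (Nat.sqrt n + 1) ^ 2 := Nat.lt_succ_sqrt' n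
    exact_mod_cast h3
  have hLge : (c : ℝ) * x - 1 ≤ L := by
    rw [hL, Nat.cast_min, le_min_iff]
    constructor <;> linarith
  have hlog2 : Real.logb 2 (2 * m * n) = 1 + Real.logb 2 m + x := by
    rw [Real.logb_mul (by positivity) (by positivity), Real.logb_mul (by norm_num) hmR.ne',
      Real.logb_self_eq_one (by norm_num)]
  have hmin : min (Real.logb 2 (2 * m * n)) (Real.sqrt n) ≤ L + 2 + x := by
    rw [hL, Nat.cast_min]
    rcases le_total (Nat.log 2 m : ℝ) (Nat.sqrt n : ℝ) with h3 | h3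
    · rw [min_eq_left h3]
      refine (min_le_left _ _).trans ?_
      rw [hlog2]
      linarith
    · rw [min_eq_right h3]
      refine (min_le_right _ _).trans ?_
      linarith
  have hneg2 : (C.negs : ℝ) ≤ (1 - ε) * (L + 2 + x) :=
    hneg.trans (mul_le_mul_of_nonneg_left hmin (by linarith))
  have hgap : 64 / ε * x ≤ (L : ℝ) - C.negs := by
    rw [div_le_iff₀ hε] at hc
    have h3 : (64 / ε + 4) * x ≤ c * ε * x := mul_le_mul_of_nonneg_right hc (by linarith)
    have h4 : ε * (c * x - 1) ≤ ε * L := mul_le_mul_of_nonneg_left hLge hε.le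
    have h5 : 0 ≤ ε * x := by positivity
    nlinarith
  have hgap0 : 0 < (L : ℝ) - C.negs := lt_of_lt_of_le (by positivity) hgap
  have hr : C.negs < L := by
    have : (C.negs : ℝ) < L := by linarith
    exact_mod_cast this
  refine le_trans (Real.rpow_le_rpow_of_exponent_le (by norm_num) ?_)
    (tradeoff_worst hn2 hL2 hr hL1 C le_rfl hC)
  have h6 : 64 * x / ((L : ℝ) - C.negs) ≤ ε := by
    rw [div_le_iff₀ hgap0]
    have : ε * (64 / ε * x) ≤ ε * ((L : ℝ) - C.negs) := mul_le_mul_of_nonneg_left hgap hε.le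
    have h7 : ε * (64 / ε * x) = 64 * x := by field_simp
    linarith
  rw [mul_comm]
  exact mul_le_mul_of_nonneg_left (by linarith) (by linarith)

end Pool.Agent.H1.Mono
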