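import Pool.Agent.H1.Mono.Head

/-!
# Monotone circuits and planted formulas
-/

open Finset

namespace Pool.Agent.H1.Mono

/-- a circuit without negated gates as a monotone circuit -/
def Circuit.toMon {ι : Type} {s : ℕ} (C : Circuit ι s) : MonCircuit ι s where
  isAnd := C.isAnd
  ins := C.ins
  gates := C.gates
  lt := C.lt
  out := C.out

lemma Circuit.toMon_val {ι : Type} {s : ℕ} (C : Circuit ι s) (h : C.negs = 0) (A : ι → Bool)
    (t : Fin s) : C.toMon.Val A t ↔ C.Val A t := by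
  induction t using WellFoundedLT.induction with
  | ind t ih =>
    have hneg : ¬ C.neg t = true := by
      intro ht
      unfold Circuit.negs at h
      rw [card_eq_zero, filter_eq_empty_iff] at h
      exact h (mem_univ t) ht
    rw [C.val_eq, if_neg hneg]
    unfold Circuit.Inner
    by_cases hand : C.isAnd t = true
    · rw [C.toMon.val_and A hand, if_pos hand]
      refine and_congr Iff.rfl ?_
      exact forall_congr' fun u => forall_congr' fun hu => ih u (C.lt t u hu)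
    · rw [C.toMon.val_or A hand, if_neg hand]
      refine or_congr Iff.rfl ?_
      refine exists_congr fun u => ?_
      constructor
      · rintro ⟨hu, h1⟩
        exact ⟨hu, (ih u (C.lt t u hu)).1 h1⟩
      · rintro ⟨hu, h1⟩
        exact ⟨hu, (ih u (C.lt t u hu)).2 h1⟩

/-- counting assignments by blocks -/
lemma card_blk2 {n ν b : ℕ} (h : 0 + ν * b ≤ n) (hb : 0 < b)
    (S : Finset (Fin n → Bool)) (T : Finset (Fin ν → Fin b → Bool))
    (hST : ∀ x ∈ S, blk2 h x ∈ T) :
    S.card ≤ T.card * 2 ^ (n - ν * b) := by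
  classical
  have h1 : S.card ≤ (T ×ˢ (univ : Finset (Fin (n - ν * b) → Bool))).card := by
    refine card_le_card_of_injOn
      (fun x => (blk2 h x, fun j : Fin (n - ν * b) => x ⟨ν * b + j.1, by omega⟩)) ?_ ?_
    · intro x hx
      rw [mem_coe, mem_product]
      exact ⟨hST x hx, mem_univ _⟩
    · intro x _ x' _ hxx
      rw [Prod.mk.injEq] at hxx
      obtain ⟨h2, h3⟩ := hxx
      funext i
      by_cases hi : i.1 < ν * b
      · have h4 : i.1 / b < ν := by
          rw [Nat.div_lt_iff_lt_mul hb]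
          exact hi
        have h5 : i.1 % b < b := Nat.mod_lt _ hb
        have h6 := congrFun (congrFun h2 ⟨i.1 / b, h4⟩) ⟨i.1 % b, h5⟩
        unfold blk2 bidx at h6
        have h7 : 0 + (i.1 / b * b + i.1 % b) = i.1 := by
          rw [Nat.div_add_mod' i.1 b, zero_add]
        simp only [h7] at h6
        exact h6
      · have h4 : i.1 - ν * b < n - ν * b := by omega
        have h5 := congrFun h3 ⟨i.1 - ν * b, h4⟩
        simp only at h5
        have h6 : ν * b + (i.1 - ν * b) = i.1 := by omega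
        simp only [h6] at h5
        exact h5
  refine h1.trans ?_
  rw [card_product, card_univ, Fintype.card_fun, Fintype.card_fin, Fintype.card_bool]

/-- the planted formulas for monotone circuits, with all parameters -/
theorem core3 (hFR : FR2_target) (hPART : PART_target) {n m a b Δ : ℕ} {lam : ℝ} (ha : 1 ≤ a)
    (hb : 0 < b) (h : 0 + (2 ^ a + 1) * b ≤ n) (hm : (2 ^ a + 1) ^ 2 * 4 ^ b ≤ m) (hn : 0 < n)
    (hlam0 : 0 < lam) (hlam1 : lam < 1) (hΔ : 0 < Δ)
    (hlam : 32 * Δ * ((2 ^ a + 1 : ℕ) : ℝ) ^ 2 * 4 ^ a * lam ≤ 1) :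
    ∃ P : (Fin n → Bool) → Formula n m, (∀ x, Sat x (P x)) ∧ (∀ x, Narrow (2 * b) (P x)) ∧
      ∀ (s : ℕ) (C : MonCircuit (Fin m × (Fin n × Bool)) s),
        s * (2 * 2 ^ b * 2 ^ a * 2 ^ a) ^ (2 ^ a + 1) < 2 ^ Δ →
        (∀ A, Narrow (2 * b) A → ¬ Satisfiable A → ¬ C.Accepts A) →
        ∀ S : Finset (Fin n → Bool), (∀ x ∈ S, C.Accepts (P x)) →
        (S.card : ℝ) ≤ (s * (1 / lam) ^ (2 ^ a + 1) + (1 / lam) ^ (2 ^ a + 1)) *
          2 ^ (n - (2 ^ a + 1) * b) := by
  classical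
  have hcard : Fintype.card ((Fin 0 → Bool) × Row (2 ^ a + 1) b) ≤ Fintype.card (Fin m) := by
    rw [Fintype.card_prod, Fintype.card_prod, Fintype.card_prod, Fintype.card_prod,
      Fintype.card_fun, Fintype.card_fun, Fintype.card_fin, Fintype.card_fin, Fintype.card_fin,
      Fintype.card_fin, Fintype.card_bool]
    refine le_trans (le_of_eq ?_) hm
    rw [show (4 : ℕ) = 2 * 2 by norm_num, mul_pow 2 2 b]
    ring
  obtain ⟨e⟩ := Function.Embedding.nonempty_of_card_le hcard
  have he : Function.Injective e := e.injective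
  have hQ : Fintype.card (Fin b → Bool) = 2 ^ b := by
    rw [Fintype.card_fun, Fintype.card_fin, Fintype.card_bool]
  have ha2 : 2 ≤ 2 ^ a := by
    calc 2 = 2 ^ 1 := by norm_num
      _ ≤ 2 ^ a := Nat.pow_le_pow_right (by norm_num) ha
  have hnar : ∀ st : (Fin 0 → Bool) → Row (2 ^ a + 1) b → Fin 3,
      Narrow (2 * b) (form2 h e st) := by
    intro st
    have h1 := form2_narrow h hn e st
    rwa [Nat.zero_add] at h1
  refine ⟨fun x => form2 h e fun _ => stP (blk2 h x), ?_, fun x => hnar _, ?_⟩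
  · intro x
    refine form2_sat h hn he fun r => ?_
    rcases stP_cases (blk2 h x) r with ⟨_, h2⟩ | ⟨h2, h3⟩
    · exact Or.inl h2
    · exact Or.inr ⟨h3, h2⟩
  intro s C hs hC S hS
  have hmain := sound_case hFR hPART (Q := Fin b → Bool) (a := a) (d := 2 ^ a) (Δ := Δ)
    (T := (1 / lam) ^ (2 ^ a + 1)) dup_php hlam0 hlam1 (by positivity) hΔ
    (by
      intro j hj hj'
      have : j = 2 ^ a + 1 := by omega
      rw [this, Nat.sub_self, pow_zero, ← mul_pow, one_div, inv_mul_cancel₀ hlam0.ne', one_pow])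
    hlam (by rw [hQ]; exact hs) C (fun X => form2 h e fun _ => stP X)
    (fun ω => form2 h e fun _ => stU ω)
    (by
      rintro ⟨j, l⟩
      by_cases hj : ∃ τ r, e (τ, r) = j
      · obtain ⟨τ, r, hr⟩ := hj
        have huniq : ∀ τ' r', e (τ', r') = j → τ' = τ ∧ r' = r := by
          intro τ' r' h'
          have := he (h'.trans hr.symm)
          rwa [Prod.mk.injEq] at this
        have hval : ∀ Z : Row (2 ^ a + 1) b → Fin 3,
            form2 h e (fun _ => Z) (j, l) = true ↔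
              (l ∈ selCl h τ ∨ (Z r = 1 ∧ l ∈ rowCl2 h r) ∨ Z r = 2) := by
          intro Z
          rw [form2_true]
          constructor
          · exact fun hq => hq τ r hr
          · intro hq τ' r' h'
            obtain ⟨rfl, rfl⟩ := huniq τ' r' h'
            exact hq
        by_cases hsel : l ∈ selCl h τ
        · left
          exact fun ω => (hval _).2 (Or.inl hsel)
        by_cases hrow : l ∈ rowCl2 h r
        · left
          intro ω
          rw [hval]
          rcases stU_cases ω r with ⟨_, h2⟩ | ⟨_, h2⟩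
          · exact Or.inr (Or.inl ⟨h2, hrow⟩)
          · exact Or.inr (Or.inr h2)
        by_cases hij : r.1.1 = r.1.2
        · left
          intro ω
          rw [hval]
          rcases stU_cases ω r with ⟨h2, _⟩ | ⟨_, h2⟩
          · exact absurd hij h2.1
          · exact Or.inr (Or.inr h2)
        right; right
        refine ⟨{r.1.1, r.1.2}, fun v => if v = r.1.1 then r.2.1 else r.2.2, ?_, ?_, ?_⟩
        · exact (card_le_two).trans ha2
        · intro X hX j' hj'
          rw [hval] at hX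
          rcases stP_cases X r with ⟨h2, _⟩ | ⟨_, h3⟩
          · rw [mem_insert, mem_singleton] at hj'
            rcases hj' with rfl | rfl
            · simp only [if_true]
              exact h2.1
            · simp only
              rw [if_neg (Ne.symm hij)]
              exact h2.2
          · rw [h3] at hX
            rcases hX with h4 | ⟨_, h4⟩ | h4
            · exact absurd h4 hsel
            · exact absurd h4 hrow
            · exact absurd h4 (by decide)
        · intro ω hω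
          have hne : ¬ (form2 h e (fun _ => stU ω) (j, l) = true) := by
            rw [hω]
            simp
          rw [hval] at hne
          rcases stU_cases ω r with ⟨h2, _⟩ | ⟨_, h2⟩
          · intro hinj
            apply hij
            refine hinj (by simp) (by simp) ?_
            simp only [if_true]
            rw [if_neg (Ne.symm hij)]
            exact h2.2
          · exact absurd (Or.inr (Or.inr h2)) hne
      · left
        intro ω
        rw [form2_true]
        exact fun τ r hr => absurd ⟨τ, r, hr⟩ hj)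
    (by
      intro ω
      refine hC _ (hnar _) (form2_unsat h fun τ X => ?_)
      obtain ⟨i, j, hij, hv⟩ : ∃ i j : Fin (2 ^ a + 1), i ≠ j ∧ ω i (X i) = ω j (X j) := by
        have hcard : Fintype.card (Fin a → Bool) < Fintype.card (Fin (2 ^ a + 1)) := by
          rw [Fintype.card_fun, Fintype.card_fin, Fintype.card_fin, Fintype.card_bool]
          omega
        exact Fintype.exists_ne_map_eq_of_card_lt (fun i => ω i (X i)) hcard
      refine ⟨((i, j), (X i, X j)), ?_, fun _ => ⟨rfl, rfl⟩⟩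
      rcases stU_cases ω ((i, j), (X i, X j)) with ⟨_, h2⟩ | ⟨h2, _⟩
      · rw [h2]
        decide
      · exact absurd ⟨hij, hv⟩ h2)
    (univ.filter fun X => C.Accepts (form2 h e fun _ => stP X))
    (fun X hX => (mem_filter.1 hX).2)
  have h1 := card_blk2 h hb S (univ.filter fun X => C.Accepts (form2 h e fun _ => stP X))
    fun x hx => mem_filter.2 ⟨mem_univ _, hS x hx⟩
  have h2 : (S.card : ℝ) ≤
      ((univ.filter fun X => C.Accepts (form2 h e fun _ => stP X)).card : ℝ) *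
        2 ^ (n - (2 ^ a + 1) * b) := by exact_mod_cast h1
  exact h2.trans (mul_le_mul_of_nonneg_right hmain (by positivity))

/-- the integer parameters -/
lemma params3 {n L l : ℕ} (hl : 10 ≤ l) (hnl : n < 2 ^ l) (hL : L ≤ n)
    (hD : 64 * (l - 1) < L) : ∃ a b : ℕ,
      1 ≤ a ∧ (2 ^ a + 1) * b ≤ n ∧ 2 * l + 2 * b ≤ L ∧
      n < (2 ^ a + 1) * b + (2 ^ a + 1) ∧ 12 * l ≤ b ∧ (2 ^ a + 1) * l ≤ n ∧ a + 1 ≤ l ∧
      2 ^ a + 1 ≤ n ∧ (2 ^ a + 1) * L ≤ 5 * n := by
  obtain ⟨b0, hb0⟩ : ∃ b0, b0 = (L - 2 * l) / 4 := ⟨_, rfl⟩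
  have hb1 : 4 * b0 + 2 * l ≤ L := by omega
  have hb2 : L < 4 * b0 + 2 * l + 4 := by omega
  have hb12 : 12 * l ≤ b0 := by omega
  have hb5 : L ≤ 5 * b0 := by omega
  have hb0pos : 0 < b0 := by omega
  obtain ⟨w, hw⟩ : ∃ w, w = n / b0 := ⟨_, rfl⟩
  have hw1 : w * b0 ≤ n := by
    rw [hw]
    exact Nat.div_mul_le_self _ _
  have hw2 : n < (w + 1) * b0 := by
    rw [hw, add_mul, one_mul]
    exact Nat.lt_div_mul_add hb0pos
  have hw3 : 4 ≤ w := by
    by_contra hlt
    have h1 : w + 1 ≤ 4 := by omega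
    have h2 : (w + 1) * b0 ≤ 4 * b0 := Nat.mul_le_mul_right _ h1
    omega
  obtain ⟨a, ha⟩ : ∃ a, a = Nat.log 2 (w - 1) := ⟨_, rfl⟩
  have ha1 : 2 ^ a ≤ w - 1 := by
    rw [ha]
    exact Nat.pow_log_le_self 2 (by omega)
  have ha2 : w - 1 < 2 ^ (a + 1) := by
    rw [ha]
    exact Nat.lt_pow_succ_log_self (by norm_num) _
  have ha3 : 1 ≤ a := by
    rw [ha]
    exact Nat.le_log_of_pow_le (by norm_num) (by omega)
  rw [pow_succ] at ha2
  obtain ⟨ν, hν⟩ : ∃ ν, ν = 2 ^ a + 1 := ⟨_, rfl⟩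
  have hνw : ν ≤ w := by omega
  have hνpos : 0 < ν := by omega
  obtain ⟨b, hb⟩ : ∃ b, b = n / ν := ⟨_, rfl⟩
  have hbν1 : b * ν ≤ n := by
    rw [hb]
    exact Nat.div_mul_le_self _ _
  have hbν2 : n < b * ν + ν := by
    rw [hb]
    exact Nat.lt_div_mul_add hνpos
  have hb0b : b0 ≤ b := by
    rw [hb, Nat.le_div_iff_mul_le hνpos]
    calc b0 * ν ≤ b0 * w := Nat.mul_le_mul_left _ hνw
      _ = w * b0 := mul_comm _ _
      _ ≤ _ := hw1
  have hb2b0 : b < 2 * b0 := by
    by_contra hge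
    rw [not_lt] at hge
    have h1 : 2 * b0 * ν ≤ b * ν := Nat.mul_le_mul_right _ hge
    have h2 : (w + 1) * b0 ≤ 2 * ν * b0 := Nat.mul_le_mul_right _ (by omega)
    have h3 : 2 * ν * b0 = 2 * b0 * ν := by ring
    omega
  have hνb0 : ν * b0 ≤ n := by
    have h1 : ν * b0 ≤ w * b0 := Nat.mul_le_mul_right _ hνw
    omega
  have hνn : ν ≤ n := by
    have : ν * 1 ≤ ν * b0 := Nat.mul_le_mul_left _ hb0pos
    omega
  refine ⟨a, b, ha3, ?_, by omega, ?_, by omega, ?_, ?_, ?_, ?_⟩
  · rw [← hν, mul_comm]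
    exact hbν1
  · rw [← hν, mul_comm]
    exact hbν2
  · rw [← hν]
    have h1 : ν * l ≤ ν * b0 := Nat.mul_le_mul_left _ (by omega)
    omega
  · have h1 : 2 ^ a < 2 ^ l := by omega
    have h2 := (Nat.pow_lt_pow_iff_right (by norm_num : 1 < 2)).1 h1
    omega
  · rw [← hν]
    exact hνn
  · rw [← hν]
    have h1 : ν * L ≤ ν * (5 * b0) := Nat.mul_le_mul_left _ hb5
    have h2 : ν * (5 * b0) = 5 * (ν * b0) := by ring
    omega

/-- monotone circuits and planted formulas -/
theorem mono_planted {n m L : ℕ} (hn : 2 ≤ n) (hL0 : 0 < L) (hL : L ≤ n) (hm : 2 ^ L ≤ m) :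
    ∃ P : (Fin n → Bool) → Formula n m, (∀ x, Sat x (P x)) ∧ (∀ x, Narrow L (P x)) ∧
      ∀ (s : ℕ) (C : Circuit (Fin m × (Fin n × Bool)) s), C.negs = 0 →
        (∀ A, Narrow L A → ¬ Satisfiable A → ¬ C.Accepts A) →
        ∀ S : Finset (Fin n → Bool), (∀ x ∈ S, C.Accepts (P x)) →
        (S.card : ℝ) ≤ s * (2 : ℝ) ^ (n * (64 * Real.logb 2 n / L)) := by
  classical
  have hLR : (0 : ℝ) < L := by exact_mod_cast hL0
  have hnR : (0 : ℝ) < n := by
    have : 0 < n := by omega
    exact_mod_cast this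
  have hall : ∀ S : Finset (Fin n → Bool), (S.card : ℝ) ≤ (2 : ℝ) ^ (n : ℝ) := by
    intro S
    have h1 := card_le_univ S
    rw [Fintype.card_fun, Fintype.card_fin, Fintype.card_bool] at h1
    rw [Real.rpow_natCast]
    exact_mod_cast h1
  rcases le_or_gt (L : ℝ) (64 * Real.logb 2 n) with htriv | hbig
  · -- trivial range
    refine ⟨fun _ => fun _ => true, fun x j => ⟨⟨0, by omega⟩, rfl⟩,
      fun _ => (trivial_family (by omega) L).2, fun s C _ _ S _ => ?_⟩
    have hs1 : 1 ≤ s := by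
      have := C.out.2
      omega
    have h3 : (1 : ℝ) ≤ s := by exact_mod_cast hs1
    have h4 : (2 : ℝ) ^ (n : ℝ) ≤ (2 : ℝ) ^ (n * (64 * Real.logb 2 n / L)) := by
      refine Real.rpow_le_rpow_of_exponent_le (by norm_num) ?_
      refine le_mul_of_one_le_right hnR.le ?_
      rw [le_div_iff₀ hLR, one_mul]
      exact htriv
    calc (S.card : ℝ) ≤ (2 : ℝ) ^ (n : ℝ) := hall S
      _ ≤ 1 * (2 : ℝ) ^ (n * (64 * Real.logb 2 n / L)) := by
          rw [one_mul]
          exact h4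
      _ ≤ _ := by gcongr
  obtain ⟨l, hl⟩ : ∃ l, l = Nat.log 2 n + 1 := ⟨_, rfl⟩
  have hnl : n < 2 ^ l := by
    rw [hl]
    exact Nat.lt_pow_succ_log_self (by norm_num) n
  have hln : 2 ^ (l - 1) ≤ n := by
    rw [hl, Nat.add_sub_cancel]
    exact Nat.pow_log_le_self 2 (by omega)
  have hl2 : 2 ≤ l := by
    rw [hl]
    have : 1 ≤ Nat.log 2 n := Nat.le_log_of_pow_le (by norm_num) (by omega)
    omega
  have hx : ((l - 1 : ℕ) : ℝ) ≤ Real.logb 2 n := by
    rw [Real.le_logb_iff_rpow_le (by norm_num) hnR, Real.rpow_natCast]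
    exact_mod_cast hln
  have hD : 64 * (l - 1) < L := by
    have h1 : ((64 * (l - 1) : ℕ) : ℝ) < (L : ℝ) := by
      push_cast
      linarith
    exact_mod_cast h1
  have hl10 : 10 ≤ l := by
    by_contra hlt
    have h1 : 64 * (l - 1) + 1 ≤ n := by omega
    have h2 : 64 * (l - 1) + 1 < 2 ^ l := lt_of_le_of_lt h1 hnl
    have h3 : l < 10 := by omega
    interval_cases l <;> norm_num at h2
  obtain ⟨a, b, ha, hνb, hbL, hn2, hb12, hνl, hal, hνn, hνL⟩ := params3 hl10 hnl hL hD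
  have hn0 : 0 < n := by omega
  have hlam0 : (0 : ℝ) < ((2 : ℝ) ^ (6 * l))⁻¹ := by positivity
  have hlam1 : ((2 : ℝ) ^ (6 * l))⁻¹ < 1 := by
    apply inv_lt_one_of_one_lt₀
    exact one_lt_pow₀ (by norm_num) (by omega)
  obtain ⟨Δ, hΔ⟩ : ∃ Δ, Δ = 2 * ((2 ^ a + 1) * b) + (2 ^ a + 1) * (1 + 2 * a) + 1 := ⟨_, rfl⟩
  have hΔn : Δ ≤ 5 * n := by
    have h1 : (2 ^ a + 1) * (1 + 2 * a) ≤ (2 ^ a + 1) * (2 * l) := Nat.mul_le_mul_left _ (by omega)
    have h2 : (2 ^ a + 1) * (2 * l) = 2 * ((2 ^ a + 1) * l) := by ring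
    omega
  have hm' : (2 ^ a + 1) ^ 2 * 4 ^ b ≤ m := by
    refine le_trans ?_ hm
    calc (2 ^ a + 1) ^ 2 * 4 ^ b ≤ (2 ^ l) ^ 2 * 4 ^ b := by
          have : 2 ^ a + 1 ≤ 2 ^ l := by omega
          gcongr
      _ = 2 ^ (2 * l + 2 * b) := by
          rw [show (4 : ℕ) = 2 ^ 2 by norm_num, ← pow_mul, ← pow_mul, ← pow_add]
          congr 1
          ring
      _ ≤ 2 ^ L := Nat.pow_le_pow_right (by norm_num) hbL
  obtain ⟨P, hP1, hP2, hP3⟩ := core3
    (Pool.Agent.H97.Mono.fr2 (Pool.Agent.H97.Mono.lvl2 (Pool.Agent.H92.Mono.mom KH)))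
    Pool.Agent.H75.Mono.part (n := n) (m := m) (a := a) (b := b) (Δ := Δ)
    (lam := ((2 : ℝ) ^ (6 * l))⁻¹) ha (by omega) (by rwa [zero_add]) hm' hn0 hlam0 hlam1 (by omega)
    (by
      have h1 : 32 * Δ * (2 ^ a + 1) ^ 2 * 4 ^ a ≤ 2 ^ (6 * l) := by
        calc 32 * Δ * (2 ^ a + 1) ^ 2 * 4 ^ a
            ≤ 32 * (8 * 2 ^ l) * (2 ^ l) ^ 2 * (2 ^ l) ^ 2 := by
              have h2 : Δ ≤ 8 * 2 ^ l := by omega
              have h3 : 2 ^ a + 1 ≤ 2 ^ l := by omega
              have h4 : 4 ^ a ≤ (2 ^ l) ^ 2 := by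
                rw [show (4 : ℕ) = 2 ^ 2 by norm_num, ← pow_mul, mul_comm 2 a, pow_mul]
                exact Nat.pow_le_pow_left (by omega) 2
              gcongr
          _ = 2 ^ 8 * 2 ^ (5 * l) := by
              rw [show 5 * l = l + (l * 2 + l * 2) by ring, pow_add, pow_add, pow_mul]
              ring
          _ ≤ 2 ^ l * 2 ^ (5 * l) := by
              have : 2 ^ 8 ≤ 2 ^ l := Nat.pow_le_pow_right (by norm_num) (by omega)
              gcongr
          _ = 2 ^ (6 * l) := by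
              rw [← pow_add]
              congr 1
              ring
      rw [← div_eq_mul_inv, div_le_one (by positivity)]
      exact_mod_cast h1)
  refine ⟨P, hP1, ?_, ?_⟩
  · intro x j
    rcases hP2 x j with h | h
    · exact Or.inl h
    · exact Or.inr (h.trans (by omega))
  intro s C hC0 hC S hS
  obtain ⟨ν, hν⟩ : ∃ ν, ν = 2 ^ a + 1 := ⟨_, rfl⟩
  rw [← hν] at hνL hνl hn2 hνb hP3 hΔ
  have hs1 : 1 ≤ s := by
    have := C.out.2
    omega
  have hs1R : (1 : ℝ) ≤ s := by exact_mod_cast hs1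
  -- the key inequality
  have key : (S.card : ℝ) ≤ s * 2 ^ (6 * l * ν + ν + 1) := by
    rcases Nat.lt_or_ge (2 ^ (ν * b)) s with hs | hs
    · have h1 : ((2 ^ (ν * b) : ℕ) : ℝ) ≤ s := by exact_mod_cast hs.le
      push_cast at h1
      calc (S.card : ℝ) ≤ (2 : ℝ) ^ (n : ℝ) := hall S
        _ = (2 : ℝ) ^ n := Real.rpow_natCast _ _
        _ ≤ (2 : ℝ) ^ (ν * b + (6 * l * ν + ν + 1)) :=
            pow_le_pow_right₀ (by norm_num) (by omega)
        _ = (2 : ℝ) ^ (ν * b) * 2 ^ (6 * l * ν + ν + 1) := pow_add _ _ _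
        _ ≤ s * 2 ^ (6 * l * ν + ν + 1) := by gcongr
    · have h1 := hP3 s C.toMon (by
        calc s * (2 * 2 ^ b * 2 ^ a * 2 ^ a) ^ ν
            ≤ 2 ^ (ν * b) * (2 * 2 ^ b * 2 ^ a * 2 ^ a) ^ ν := by gcongr
          _ = 2 ^ (2 * (ν * b) + ν * (1 + 2 * a)) := by
              rw [show 2 * 2 ^ b * 2 ^ a * 2 ^ a = 2 ^ (1 + b + a + a) by
                rw [pow_add, pow_add, pow_add, pow_one], ← pow_mul, ← pow_add]
              congr 1
              ring
          _ < 2 ^ Δ := Nat.pow_lt_pow_right (by norm_num) (by omega))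
        (fun A hA hA' hacc => hC A (fun j => by
          rcases hA j with h | h
          · exact Or.inl h
          · exact Or.inr (h.trans (by omega))) hA' ((C.toMon_val hC0 A C.out).1 hacc)) S
        (fun x hx => (C.toMon_val hC0 _ C.out).2 (hS x hx))
      refine h1.trans ?_
      have h2 : ((s : ℝ) * (1 / ((2 : ℝ) ^ (6 * l))⁻¹) ^ ν + (1 / ((2 : ℝ) ^ (6 * l))⁻¹) ^ ν) *
          2 ^ (n - ν * b) = (s + 1) * 2 ^ (6 * l * ν) * 2 ^ (n - ν * b) := by
        rw [one_div, inv_inv, ← pow_mul]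
        ring
      rw [h2]
      have h3 : (2 : ℝ) ^ (n - ν * b) ≤ 2 ^ ν := pow_le_pow_right₀ (by norm_num) (by omega)
      calc ((s : ℝ) + 1) * 2 ^ (6 * l * ν) * 2 ^ (n - ν * b)
          ≤ (s + s) * 2 ^ (6 * l * ν) * 2 ^ ν := by gcongr
        _ = s * 2 ^ (6 * l * ν + ν + 1) := by
            rw [pow_add, pow_add, pow_one]
            ring
  refine key.trans ?_
  refine mul_le_mul_of_nonneg_left ?_ (Nat.cast_nonneg _)
  rw [← Real.rpow_natCast]
  refine Real.rpow_le_rpow_of_exponent_le (by norm_num) ?_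
  set x := Real.logb 2 n with hxdef
  have hlx : (l : ℝ) ≤ x + 1 := by
    have h1 : ((l - 1 : ℕ) : ℝ) = (l : ℝ) - 1 := by
      rw [Nat.cast_sub (by omega)]
      simp
    linarith
  have hx9 : (9 : ℝ) ≤ x := by
    have : (9 : ℝ) ≤ ((l - 1 : ℕ) : ℝ) := by
      have : 9 ≤ l - 1 := by omega
      exact_mod_cast this
    linarith
  have hν0 : (0 : ℝ) ≤ ν := Nat.cast_nonneg _
  have e1 : (ν : ℝ) * L ≤ 5 * n := by exact_mod_cast hνL
  have e2 : (L : ℝ) ≤ n := by exact_mod_cast hL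
  have hlR : (10 : ℝ) ≤ l := by exact_mod_cast hl10
  push_cast
  have e3 : ((6 * l * ν + ν + 1 : ℝ)) * L ≤ 64 * x * n := by
    have h1 : 7 * (l : ℝ) * (ν * L) ≤ 7 * l * (5 * n) := by gcongr
    have h2 : (l : ℝ) * n ≤ (x + 1) * n := by gcongr
    have h3 : (ν : ℝ) * L ≤ l * (ν * L) := le_mul_of_one_le_left (by positivity) (by linarith)
    nlinarith
  have e4 : (n * (64 * x / L) : ℝ) * L = 64 * x * n := by
    field_simp
  have e5 : ((6 * l * ν + ν + 1 : ℝ)) * L ≤ (n * (64 * x / L)) * L := by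
    rw [e4]
    exact e3
  exact le_of_mul_le_mul_right e5 hLR

end Pool.Agent.H1.Mono
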