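import Pool.Agent.H1.Mono.Core2

/-!
# Choice of the parameters: the trade-off between size and number of negations
-/

open Finset

namespace Pool.Agent.H1.Mono

/-- the integer parameters -/
lemma params {n L r l : ℕ} (hl : 21 ≤ l) (hnl : n < 2 ^ l) (hL : L ^ 2 ≤ n) (hr : r < L)
    (hD : 64 * (l - 1) < L - r) : ∃ σ a b j0 : ℕ,
      1 ≤ a ∧ σ + (2 ^ a + 1) * b ≤ n ∧ σ = r + 2 * l + 3 ∧ σ + 2 * l + 2 * b ≤ L ∧
      n < σ + (2 ^ a + 1) * b + (2 ^ a + 1) ∧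
      12 * l ≤ b ∧ 4 * j0 ^ 2 ≤ 2 ^ a ∧ σ ≤ (b - 6 * l) * (j0 + 1) ∧
      2 ^ a + 1 ≤ n ∧ (2 ^ a + 1) * l ≤ n ∧ a + 1 ≤ l ∧
      (2 ^ a + 1) * (L - r) ≤ 5 * n + 4 * (2 ^ a + 1) := by
  obtain ⟨D, hDdef⟩ : ∃ D, D = L - r := ⟨_, rfl⟩
  rw [← hDdef] at hD ⊢
  have hDL : D ≤ L := by omega
  obtain ⟨b0, hb0⟩ : ∃ b0, b0 = D / 5 := ⟨_, rfl⟩
  have hb1 : 5 * b0 ≤ D := by omega
  have hb2 : D < 5 * b0 + 5 := by omega
  have hb12 : 12 * l ≤ b0 := by omega
  obtain ⟨σ, hσ⟩ : ∃ σ, σ = r + 2 * l + 3 := ⟨_, rfl⟩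
  have hσL : σ + 4 * b0 + 2 * l ≤ L := by omega
  have hL64 : 64 * 20 ≤ L := by omega
  have hLn : 64 * 20 * L ≤ n := by nlinarith
  have hb0pos : 0 < b0 := by omega
  obtain ⟨w, hw⟩ : ∃ w, w = (n - σ) / b0 := ⟨_, rfl⟩
  have hw1 : w * b0 ≤ n - σ := by
    rw [hw]
    exact Nat.div_mul_le_self _ _
  have hw2 : n - σ < (w + 1) * b0 := by
    rw [hw, add_mul, one_mul]
    exact Nat.lt_div_mul_add hb0pos
  have hw3 : 4 ≤ w := by
    by_contra hlt
    have h1 : w + 1 ≤ 4 := by omega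
    have h2 : (w + 1) * b0 ≤ 4 * b0 := Nat.mul_le_mul_right _ h1
    omega
  obtain ⟨a, ha⟩ : ∃ a, a = Nat.log 2 (w - 1) := ⟨_, rfl⟩
  have ha1 : 2 ^ a ≤ w - 1 := by
    rw [ha]
    exact Nat.pow_log_le_self 2 (by omega)
  have ha2 : w - 1 < 2 ^ (a + 1) := by
    rw [ha]
    exact Nat.lt_pow_succ_log_self (by norm_num) _
  have ha3 : 1 ≤ a := by
    rw [ha]
    exact Nat.le_log_of_pow_le (by norm_num) (by omega)
  rw [pow_succ] at ha2
  obtain ⟨ν, hν⟩ : ∃ ν, ν = 2 ^ a + 1 := ⟨_, rfl⟩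
  have hνw : ν ≤ w := by omega
  have hνpos : 0 < ν := by omega
  obtain ⟨b, hb⟩ : ∃ b, b = (n - σ) / ν := ⟨_, rfl⟩
  have hbν1 : b * ν ≤ n - σ := by
    rw [hb]
    exact Nat.div_mul_le_self _ _
  have hbν2 : n - σ < b * ν + ν := by
    rw [hb]
    exact Nat.lt_div_mul_add hνpos
  have hb0b : b0 ≤ b := by
    rw [hb, Nat.le_div_iff_mul_le hνpos]
    calc b0 * ν ≤ b0 * w := Nat.mul_le_mul_left _ hνw
      _ = w * b0 := mul_comm _ _
      _ ≤ _ := hw1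
  have hb2b0 : b < 2 * b0 := by
    by_contra hge
    rw [not_lt] at hge
    have h1 : 2 * b0 * ν ≤ b * ν := Nat.mul_le_mul_right _ hge
    have h2 : (w + 1) * b0 ≤ 2 * ν * b0 := Nat.mul_le_mul_right _ (by omega)
    have h3 : 2 * ν * b0 = 2 * b0 * ν := by ring
    omega
  have hνb0 : ν * b0 ≤ n := by
    have h1 : ν * b0 ≤ w * b0 := Nat.mul_le_mul_right _ hνw
    omega
  have hνn : ν ≤ n := by
    have : ν * 1 ≤ ν * b0 := Nat.mul_le_mul_left _ hb0pos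
    omega
  -- the number of steps at the root
  obtain ⟨j0, hj0⟩ : ∃ j0, j0 = 2 * σ / b0 := ⟨_, rfl⟩
  have hj1 : j0 * b0 ≤ 2 * σ := by
    rw [hj0]
    exact Nat.div_mul_le_self _ _
  have hj2 : 2 * σ < (j0 + 1) * b0 := by
    rw [hj0, add_mul, one_mul]
    exact Nat.lt_div_mul_add hb0pos
  have h4a : n ≤ 2 ^ a * (4 * b0) := by
    have h1 : (w + 1) * b0 ≤ (2 ^ a * 2 + 1) * b0 := Nat.mul_le_mul_right _ (by omega)
    have h2 : (2 ^ a * 2 + 1) * b0 = 2 ^ a * (2 * b0) + b0 := by ring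
    have h3 : 2 ^ a * (4 * b0) = 2 * (2 ^ a * (2 * b0)) := by ring
    omega
  have hj3 : 4 * j0 ^ 2 ≤ 2 ^ a := by
    have h1 : (j0 * b0) ^ 2 ≤ (2 * σ) ^ 2 := Nat.pow_le_pow_left hj1 2
    have h2 : σ ^ 2 ≤ L ^ 2 := Nat.pow_le_pow_left (by omega) 2
    have h3 : 4 * j0 ^ 2 * b0 ^ 2 ≤ 16 * n := by
      calc 4 * j0 ^ 2 * b0 ^ 2 = 4 * (j0 * b0) ^ 2 := by ring
        _ ≤ 4 * (2 * σ) ^ 2 := Nat.mul_le_mul_left _ h1
        _ = 16 * σ ^ 2 := by ring
        _ ≤ 16 * n := Nat.mul_le_mul_left _ (h2.trans hL)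
    have h4 : 16 * n ≤ 2 ^ a * b0 ^ 2 := by
      calc 16 * n ≤ 16 * (2 ^ a * (4 * b0)) := Nat.mul_le_mul_left _ h4a
        _ = 2 ^ a * (64 * b0) := by ring
        _ ≤ 2 ^ a * b0 ^ 2 := by
            rw [pow_two b0]
            exact Nat.mul_le_mul_left _ (Nat.mul_le_mul_right _ (by omega))
    exact Nat.le_of_mul_le_mul_right (h3.trans h4) (by positivity)
  refine ⟨σ, a, b, j0, ha3, ?_, hσ, by omega, ?_, by omega, hj3, ?_, ?_, ?_, ?_, ?_⟩
  · rw [← hν, mul_comm]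
    omega
  · rw [← hν, mul_comm]
    omega
  · -- `σ ≤ (b - 6 l) (j0 + 1)`
    have h1 : b0 ≤ 2 * (b - 6 * l) := by omega
    have h2 : (j0 + 1) * b0 ≤ (j0 + 1) * (2 * (b - 6 * l)) := Nat.mul_le_mul_left _ h1
    have h3 : (j0 + 1) * (2 * (b - 6 * l)) = 2 * ((b - 6 * l) * (j0 + 1)) := by ring
    omega
  · rw [← hν]
    exact hνn
  · rw [← hν]
    have h1 : ν * l ≤ ν * b0 := Nat.mul_le_mul_left _ (by omega)
    omega
  · have h1 : 2 ^ a < 2 ^ l := by omega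
    have h2 := (Nat.pow_lt_pow_iff_right (by norm_num : 1 < 2)).1 h1
    omega
  · rw [← hν]
    have h1 : ν * D ≤ ν * (5 * b0 + 4) := Nat.mul_le_mul_left _ (by omega)
    have h2 : ν * (5 * b0 + 4) = 5 * (ν * b0) + 4 * ν := by ring
    omega

/-- the full formula -/
lemma trivial_family {n m : ℕ} (hn : 0 < n) (w : ℕ) :
    Satisfiable (fun _ => true : Formula n m) ∧ Narrow w (fun _ => true : Formula n m) :=
  ⟨⟨fun _ => true, fun _ => ⟨⟨0, hn⟩, rfl⟩⟩, fun _ => Or.inl ⟨⟨0, hn⟩, rfl, rfl⟩⟩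

/-- the trade-off between size and number of negations -/
theorem tradeoff (hFR : FR2_target) (hPART : PART_target) (hNEG : NEG_target) (hAVG : AVG_target)
    (hINJ : INJ_target) {n m L r : ℕ} (hn : 2 ≤ n) (hL : L ^ 2 ≤ n) (hr : r < L)
    (hm : 2 ^ L ≤ m) :
    ∃ (κ : Type) (_ : Fintype κ) (_ : Nonempty κ) (P U : κ → Formula n m),
      (∀ k, Satisfiable (P k)) ∧ (∀ k, ¬ Satisfiable (U k)) ∧ (∀ k, Narrow L (P k)) ∧
      (∀ k, Narrow L (U k)) ∧
      ∀ (s q : ℕ) (C : Circuit (Fin m × (Fin n × Bool)) s), C.negs + q ≤ r →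
        (∃ S : Finset κ, (∀ k ∈ S, ¬ C.Accepts (U k) ∧ C.Accepts (P k)) ∧
          Fintype.card κ ≤ n * 2 ^ q * S.card) →
        (2 : ℝ) ^ (n * (1 - 64 * Real.logb 2 n / (L - r))) ≤ s := by
  classical
  have hDpos : (0 : ℝ) < (L : ℝ) - r := by
    have : (r : ℝ) < L := by exact_mod_cast hr
    linarith
  have hnR : (0 : ℝ) < n := by
    have : 0 < n := by omega
    exact_mod_cast this
  rcases le_or_gt ((L : ℝ) - r) (64 * Real.logb 2 n) with htriv | hbig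
  · -- trivial range
    obtain ⟨h1, h2⟩ := trivial_family (n := n) (m := m) (by omega) L
    refine ⟨Unit, inferInstance, inferInstance, fun _ => fun _ => true, fun _ => fun _ => false,
      fun _ => h1, fun _ => ?_, fun _ => h2, fun _ j => Or.inr ?_, fun s q C _ _ => ?_⟩
    · rintro ⟨x, hx⟩
      have hm0 : 0 < m := lt_of_lt_of_le (by positivity) hm
      obtain ⟨i, hi⟩ := hx ⟨0, hm0⟩
      exact absurd hi (by simp)
    · simp
    have hs1 : 1 ≤ s := by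
      have := C.out.2
      omega
    have h3 : (1 : ℝ) ≤ s := by exact_mod_cast hs1
    refine le_trans (Real.rpow_le_one_of_one_le_of_nonpos (by norm_num) ?_) h3
    refine mul_nonpos_of_nonneg_of_nonpos hnR.le ?_
    rw [sub_nonpos, le_div_iff₀ hDpos, one_mul]
    exact htriv
  -- main range
  obtain ⟨l, hl⟩ : ∃ l, l = Nat.log 2 n + 1 := ⟨_, rfl⟩
  have hnl : n < 2 ^ l := by
    rw [hl]
    exact Nat.lt_pow_succ_log_self (by norm_num) n
  have hln : 2 ^ (l - 1) ≤ n := by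
    rw [hl, Nat.add_sub_cancel]
    exact Nat.pow_log_le_self 2 (by omega)
  have hl2 : 2 ≤ l := by
    rw [hl]
    have : 1 ≤ Nat.log 2 n := Nat.le_log_of_pow_le (by norm_num) (by omega)
    omega
  have hx : ((l - 1 : ℕ) : ℝ) ≤ Real.logb 2 n := by
    rw [Real.le_logb_iff_rpow_le (by norm_num) hnR, Real.rpow_natCast]
    exact_mod_cast hln
  have hD : 64 * (l - 1) < L - r := by
    have h1 : ((64 * (l - 1) : ℕ) : ℝ) < ((L - r : ℕ) : ℝ) := by
      rw [Nat.cast_sub hr.le]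
      push_cast
      linarith
    exact_mod_cast h1
  have hl21 : 21 ≤ l := by
    by_contra hlt
    have h1 : 64 * (l - 1) + 1 ≤ L := by omega
    have h2 : (64 * (l - 1) + 1) ^ 2 < 2 ^ l := lt_of_le_of_lt
      ((Nat.pow_le_pow_left h1 2).trans hL) hnl
    have h3 : l < 21 := by omega
    interval_cases l <;> norm_num at h2
  obtain ⟨σ, a, b, j0, ha, hσn, hσ, hσL, hn2, hb12, hj0, hj1, hνn, hνl, hal, hνD⟩ :=
    params hl21 hnl hL hr hD
  have hn0 : 0 < n := by omega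
  have hlam0 : (0 : ℝ) < ((2 : ℝ) ^ (6 * l))⁻¹ := by positivity
  have hlam1 : ((2 : ℝ) ^ (6 * l))⁻¹ < 1 := by
    apply inv_lt_one_of_one_lt₀
    exact one_lt_pow₀ (by norm_num) (by omega)
  have hνb : (2 ^ a + 1) * b ≤ n := by omega
  obtain ⟨Δ, hΔ⟩ : ∃ Δ, Δ = 2 * ((2 ^ a + 1) * b) + (2 ^ a + 1) * (1 + a) + 3 := ⟨_, rfl⟩
  have hΔn : Δ ≤ 4 * n := by
    have h1 : (2 ^ a + 1) * (1 + a) ≤ (2 ^ a + 1) * l := Nat.mul_le_mul_left _ (by omega)
    have h2 : 3 ≤ n := by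
      have : 2 ^ 20 ≤ 2 ^ (l - 1) := Nat.pow_le_pow_right (by norm_num) (by omega)
      have h3 : (2 : ℕ) ^ 20 = 1048576 := by norm_num
      omega
    omega
  have hm' : 2 ^ σ * ((2 ^ a + 1) ^ 2 * 4 ^ b) ≤ m := by
    refine le_trans ?_ hm
    calc 2 ^ σ * ((2 ^ a + 1) ^ 2 * 4 ^ b) ≤ 2 ^ σ * ((2 ^ l) ^ 2 * 4 ^ b) := by
          have : 2 ^ a + 1 ≤ 2 ^ l := by omega
          gcongr
      _ = 2 ^ (σ + 2 * l + 2 * b) := by
          rw [show (4 : ℕ) = 2 ^ 2 by norm_num, ← pow_mul, ← pow_mul, ← pow_add, ← pow_add]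
          congr 1
          ring
      _ ≤ 2 ^ L := Nat.pow_le_pow_right (by norm_num) hσL
  obtain ⟨κ, hκ, hκne, P, U, hP1, hU1, hP2, hU2, hP3⟩ := core2 hFR hPART hNEG hAVG hINJ (n := n) (m := m)
    (σ := σ) (a := a) (b := b) (j0 := j0) (Δ := Δ) (lam := ((2 : ℝ) ^ (6 * l))⁻¹)
    (T0 := (2 : ℝ) ^ (b * (2 ^ a + 1)) / 2 ^ ((b - 6 * l) * (j0 + 1))) ha hσn hm' hn0 hlam0 hlam1
    (by positivity) (by omega) hj0
    (by
      intro j hj hjν
      rw [inv_pow, ← div_eq_mul_inv, div_div, le_div_iff₀ (by positivity), ← pow_mul]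
      push_cast
      rw [← pow_mul, ← pow_add, ← pow_add]
      refine pow_le_pow_right₀ (by norm_num) ?_
      obtain ⟨d, hd⟩ : ∃ d, 2 ^ a + 1 = j + d := ⟨2 ^ a + 1 - j, by omega⟩
      obtain ⟨c, hc⟩ : ∃ c, b = 6 * l + c := ⟨b - 6 * l, by omega⟩
      rw [hd, hc, Nat.add_sub_cancel_left, Nat.add_sub_cancel_left]
      have h1 : c * (j0 + 1) ≤ c * j := Nat.mul_le_mul_left _ hj
      nlinarith)
    (by
      have h1 : 32 * Δ * (2 ^ a + 1) ^ 2 * 4 ^ a ≤ 2 ^ (6 * l) := by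
        calc 32 * Δ * (2 ^ a + 1) ^ 2 * 4 ^ a
            ≤ 32 * (4 * 2 ^ l) * (2 ^ l) ^ 2 * (2 ^ l) ^ 2 := by
              have h2 : Δ ≤ 4 * 2 ^ l := by omega
              have h3 : 2 ^ a + 1 ≤ 2 ^ l := by omega
              have h4 : 4 ^ a ≤ (2 ^ l) ^ 2 := by
                rw [show (4 : ℕ) = 2 ^ 2 by norm_num, ← pow_mul, mul_comm 2 a, pow_mul]
                exact Nat.pow_le_pow_left (by omega) 2
              gcongr
          _ = 2 ^ 7 * 2 ^ (5 * l) := by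
              rw [show 5 * l = l + (l * 2 + l * 2) by ring, pow_add, pow_add, pow_mul]
              ring
          _ ≤ 2 ^ l * 2 ^ (5 * l) := by
              have : 2 ^ 7 ≤ 2 ^ l := Nat.pow_le_pow_right (by norm_num) (by omega)
              gcongr
          _ = 2 ^ (6 * l) := by
              rw [← pow_add]
              congr 1
              ring
      rw [← div_eq_mul_inv, div_le_one (by positivity)]
      exact_mod_cast h1)
  refine ⟨κ, hκ, hκne, P, U, hP1, hU1, ?_, ?_, ?_⟩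
  · intro k j
    rcases hP2 k j with h | h
    · exact Or.inl h
    · exact Or.inr (h.trans (by omega))
  · intro k j
    rcases hU2 k j with h | h
    · exact Or.inl h
    · exact Or.inr (h.trans (by omega))
  intro s q C hCr hS
  obtain ⟨S, hS1, hS2⟩ := hS
  -- the key inequality
  have key : (2 : ℝ) ^ ((2 ^ a + 1) * b) ≤ s * 2 ^ (6 * l * (2 ^ a + 1) + σ) := by
    rcases Nat.lt_or_ge (2 ^ ((2 ^ a + 1) * b)) s with hs | hs
    · have h1 : ((2 ^ ((2 ^ a + 1) * b) : ℕ) : ℝ) ≤ s := by exact_mod_cast hs.le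
      push_cast at h1
      refine h1.trans (le_mul_of_one_le_right (Nat.cast_nonneg _) ?_)
      exact one_le_pow₀ (by norm_num)
    · have h1 := hP3 s C (by
        calc 4 * (s * (2 * 2 ^ b * 2 ^ a) ^ (2 ^ a + 1))
            ≤ 4 * (2 ^ ((2 ^ a + 1) * b) * (2 * 2 ^ b * 2 ^ a) ^ (2 ^ a + 1)) := by gcongr
          _ = 2 ^ (2 * ((2 ^ a + 1) * b) + (2 ^ a + 1) * (1 + a) + 2) := by
              rw [show 2 * 2 ^ b * 2 ^ a = 2 ^ (1 + b + a) by rw [pow_add, pow_add, pow_one],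
                ← pow_mul, ← pow_add, show (4 : ℕ) = 2 ^ 2 by norm_num, ← pow_add]
              congr 1
              ring
          _ < 2 ^ Δ := Nat.pow_lt_pow_right (by norm_num) (by omega)) S hS1
      have hκpos : 0 < Fintype.card κ := Fintype.card_pos
      have hSpos : 0 < S.card := by
        by_contra h0
        have : S.card = 0 := by omega
        rw [this, mul_zero] at hS2
        omega
      have hSR : (0 : ℝ) < S.card := by exact_mod_cast hSpos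
      have hS2R : (Fintype.card κ : ℝ) ≤ n * 2 ^ q * S.card := by exact_mod_cast hS2
      -- number of monotone circuits
      have hK : 8 * (n * 2 ^ q) * ((C.negs + 1) * 2 ^ C.negs) ≤ 2 ^ σ := by
        have h2 : C.negs + 1 ≤ 2 ^ l := by
          have : L ≤ n := by nlinarith
          omega
        calc 8 * (n * 2 ^ q) * ((C.negs + 1) * 2 ^ C.negs)
            ≤ 8 * (2 ^ l * 2 ^ q) * (2 ^ l * 2 ^ C.negs) := by gcongr
          _ = 8 * 2 ^ l * (2 ^ l * 2 ^ (C.negs + q)) := by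
              rw [pow_add 2 C.negs q]
              ring
          _ ≤ 8 * 2 ^ l * (2 ^ l * 2 ^ r) := by
              have h3 : (2 : ℕ) ^ (C.negs + q) ≤ 2 ^ r := Nat.pow_le_pow_right (by norm_num) hCr
              gcongr
          _ = 2 ^ σ := by
              rw [hσ, show (8 : ℕ) = 2 ^ 3 by norm_num, ← pow_add, ← pow_add, ← pow_add]
              congr 1
              ring
      have hKR : 8 * ((n : ℝ) * 2 ^ q) * (((C.negs : ℝ) + 1) * 2 ^ C.negs) ≤ 2 ^ σ := by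
        exact_mod_cast hK
      set Mν : ℝ := (2 ^ b : ℝ) ^ (2 ^ a + 1) with hMν
      have hMν0 : 0 < Mν := by positivity
      set TT : ℝ := (1 / ((2 : ℝ) ^ (6 * l))⁻¹) ^ (2 ^ a + 1) with hTT
      set T0 : ℝ := (2 : ℝ) ^ (b * (2 ^ a + 1)) / 2 ^ ((b - 6 * l) * (j0 + 1)) with hT0
      have hT0R : T0 * 2 ^ σ ≤ Mν := by
        have h2 : Mν = (2 : ℝ) ^ (b * (2 ^ a + 1)) := by rw [hMν, ← pow_mul]
        rw [hT0, h2, div_mul_eq_mul_div, div_le_iff₀ (by positivity)]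
        refine mul_le_mul_of_nonneg_left ?_ (by positivity)
        exact pow_le_pow_right₀ (by norm_num) hj1
      have hTT0 : 0 ≤ TT := by positivity
      have h2 : (S.card : ℝ) * (8 * Mν * 2 ^ σ) ≤
          S.card * (2 ^ σ * ((s * TT + T0) * 2 ^ σ + 2 * Mν)) := by
        have hin : 0 ≤ (s * TT + T0) * 2 ^ σ + 2 * Mν := by positivity
        calc (S.card : ℝ) * (8 * Mν * 2 ^ σ) = 8 * ((S.card : ℝ) * Mν * 2 ^ σ) := by ring
          _ ≤ 8 * ((C.negs + 1) * 2 ^ C.negs * ((s * TT + T0) * 2 ^ σ + 2 * Mν) *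
              Fintype.card κ) := by linarith
          _ ≤ 8 * ((C.negs + 1) * 2 ^ C.negs * ((s * TT + T0) * 2 ^ σ + 2 * Mν) *
              (n * 2 ^ q * S.card)) := by gcongr
          _ = S.card * ((8 * ((n : ℝ) * 2 ^ q) * (((C.negs : ℝ) + 1) * 2 ^ C.negs)) *
              ((s * TT + T0) * 2 ^ σ + 2 * Mν)) := by ring
          _ ≤ S.card * (2 ^ σ * ((s * TT + T0) * 2 ^ σ + 2 * Mν)) := by gcongr
      have h3 : 8 * Mν * 2 ^ σ ≤ 2 ^ σ * ((s * TT + T0) * 2 ^ σ + 2 * Mν) :=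
        le_of_mul_le_mul_left h2 hSR
      have h4 : 8 * Mν ≤ (s * TT + T0) * 2 ^ σ + 2 * Mν := by
        have h5 : (0 : ℝ) < 2 ^ σ := by positivity
        have h6 : 2 ^ σ * (8 * Mν) ≤ 2 ^ σ * ((s * TT + T0) * 2 ^ σ + 2 * Mν) := by linarith
        exact le_of_mul_le_mul_left h6 h5
      have h5 : Mν ≤ s * TT * 2 ^ σ := by linarith
      calc (2 : ℝ) ^ ((2 ^ a + 1) * b) = Mν := by
            rw [hMν, ← pow_mul, mul_comm]
        _ ≤ s * TT * 2 ^ σ := h5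
        _ = s * 2 ^ (6 * l * (2 ^ a + 1) + σ) := by
            rw [hTT, one_div, inv_inv, ← pow_mul, pow_add]
            ring
  -- conclusion
  have hfin : (2 : ℝ) ^ ((((2 ^ a + 1) * b : ℕ) : ℝ) - ((6 * l * (2 ^ a + 1) + σ : ℕ) : ℝ)) ≤ s := by
    rw [Real.rpow_sub (by norm_num), Real.rpow_natCast, Real.rpow_natCast,
      div_le_iff₀ (by positivity)]
    exact key
  refine le_trans (Real.rpow_le_rpow_of_exponent_le (by norm_num) ?_) hfin
  set x := Real.logb 2 n with hxdef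
  have hx20 : (20 : ℝ) ≤ x := by
    have : (20 : ℝ) ≤ ((l - 1 : ℕ) : ℝ) := by
      have : 20 ≤ l - 1 := by omega
      exact_mod_cast this
    linarith
  have hlx : (l : ℝ) ≤ x + 1 := by
    have h1 : ((l - 1 : ℕ) : ℝ) = (l : ℝ) - 1 := by
      rw [Nat.cast_sub (by omega)]
      simp
    linarith
  obtain ⟨D, hDd⟩ : ∃ D, D = L - r := ⟨_, rfl⟩
  have hDR : (L : ℝ) - r = D := by
    rw [hDd, Nat.cast_sub hr.le]
  rw [hDR] at hDpos ⊢
  rw [← hDd] at hνD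
  obtain ⟨ν, hν⟩ : ∃ ν, ν = 2 ^ a + 1 := ⟨_, rfl⟩
  rw [← hν] at hνD hνl hn2 ⊢
  have e1 : (n : ℝ) ≤ σ + ν * b + ν := by exact_mod_cast hn2.le
  have e2 : (ν : ℝ) * D ≤ 5 * n + 4 * ν := by exact_mod_cast hνD
  have e3 : (ν : ℝ) * l ≤ n := by exact_mod_cast hνl
  have e4 : (σ : ℝ) * D ≤ n := by
    have h1 : σ * D ≤ L * L := Nat.mul_le_mul (by omega) (by omega)
    have h2 : σ * D ≤ n := by nlinarith
    exact_mod_cast h2
  have hν0 : (0 : ℝ) ≤ ν := Nat.cast_nonneg _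
  have hlR : (21 : ℝ) ≤ l := by exact_mod_cast hl21
  have e5 : 21 * (ν : ℝ) ≤ n := by nlinarith
  have e6 : (ν : ℝ) * D ≤ 26 / 5 * n := by linarith
  have e7 : (2 * σ + 7 * l * ν) * (D : ℝ) ≤ 64 * x * n := by
    have h1 : 7 * (l : ℝ) * (ν * D) ≤ 7 * l * (26 / 5 * n) := by gcongr
    have h2 : (l : ℝ) * n ≤ (x + 1) * n := by gcongr
    nlinarith
  push_cast
  have e8 : (64 * x / D) * n * D = 64 * x * n := by
    field_simp
  have e9 : 2 * σ + 7 * l * ν ≤ 64 * x / D * n := by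
    have h1 : (2 * σ + 7 * l * ν) * (D : ℝ) ≤ (64 * x / D) * n * D := by
      rw [e8]
      exact e7
    exact le_of_mul_le_mul_right h1 hDpos
  have e10 : (ν : ℝ) + 6 * l * ν ≤ 7 * l * ν := by nlinarith
  nlinarith

end Pool.Agent.H1.Mono
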